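import Pool.Agent.D0H75.CM.Tr

/-!
# Additivity of the trace for the cokernel of a morphism out of the unit
-/

set_option autoImplicit false
set_option linter.unusedSectionVars false
set_option linter.style.haveILetI false

open CategoryTheory Limits MonoidalCategory

namespace Pool.Agent.D0H75.CM

universe v u

section

variable {C : Type u} [Category.{v} C] [MonoidalCategory C] [SymmetricCategory C]
  [RightRigidCategory C] [Abelian C] [MonoidalPreadditive C]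

lemma rtr_add {T X : C} (f g : T ⊗ X ⟶ X) : rtr (f + g) = rtr f + rtr g := by
  simp only [rtr, MonoidalPreadditive.add_whiskerRight, Preadditive.add_comp,
    Preadditive.comp_add]

lemma exists_desc {T M : C} (x : 𝟙_ C ⟶ M) {Z : C} (h : T ⊗ M ⟶ Z) (hh : T ◁ x ≫ h = 0) :
    ∃ h' : T ⊗ cokernel x ⟶ Z, T ◁ cokernel.π x ≫ h' = h := by
  have : PreservesColimitsOfSize.{0, 0} (tensorLeft T) :=
    letI : ExactPairing (Tᘁ) T := BraidedCategory.exactPairing_swap T Tᘁ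
    (tensorLeftAdjunction (Tᘁ) T).leftAdjoint_preservesColimits
  refine ⟨(PreservesCokernel.iso (tensorLeft T) x).hom ≫
    cokernel.desc ((tensorLeft T).map x) h hh, ?_⟩
  have h1 := PreservesCokernel.π_iso_hom (tensorLeft T) x
  have h2 : (tensorLeft T).map (cokernel.π x) = T ◁ cokernel.π x := rfl
  rw [← h2, reassoc_of% h1, cokernel.π_desc]

lemma evAt_comp {M : C} (x : 𝟙_ C ⟶ M) (t : 𝟙_ C ⟶ 𝟙_ C) : evAt (t ≫ x) = evAt x ≫ t := by
  have e1 : Mᘁ ◁ x ≫ ε_ M Mᘁ = (ρ_ Mᘁ).hom ≫ evAt x := by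
    rw [evAt, Iso.hom_inv_id_assoc]
  rw [evAt, MonoidalCategory.whiskerLeft_comp, Category.assoc, e1, ← rightUnitor_naturality,
    whisker_exchange_assoc, ← rightUnitor_inv_naturality_assoc, ← unitors_equal,
    leftUnitor_naturality, unitors_equal, Iso.inv_hom_id_assoc]

/-- Additivity of the trace. -/
lemma tr_add_aux {M : C} (x : 𝟙_ C ⟶ M) (a : M ⟶ M) (c : cokernel x ⟶ cokernel x)
    (t : 𝟙_ C ⟶ 𝟙_ C) (h1 : x ≫ a = t ≫ x) (h2 : a ≫ cokernel.π x = cokernel.π x ≫ c) :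
    evAt x ≫ tr a = evAt x ≫ t + evAt x ≫ tr c := by
  set e := evAt x with he
  -- the endomorphism `e a - ε t x` kills `T ◁ x`
  have h3 : Mᘁ ◁ x ≫ (e ▷ M ≫ (λ_ M).hom ≫ a - ε_ M Mᘁ ≫ t ≫ x) = 0 := by
    rw [Preadditive.comp_sub, sub_eq_zero]
    have e1 : Mᘁ ◁ x ≫ ε_ M Mᘁ = (ρ_ Mᘁ).hom ≫ e := by
      rw [he, evAt, Iso.hom_inv_id_assoc]
    rw [reassoc_of% e1, whisker_exchange_assoc, ← h1, leftUnitor_naturality_assoc,
      MonoidalCategory.whiskerRight_id, unitors_equal]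
    simp
  obtain ⟨w, hw⟩ := exists_desc x _ h3
  have h4 : w ≫ cokernel.π x = e ▷ cokernel x ≫ (λ_ _).hom ≫ c := by
    rw [← cancel_epi (Mᘁ ◁ cokernel.π x), reassoc_of% hw, Preadditive.sub_comp]
    simp only [Category.assoc, cokernel.condition, comp_zero, sub_zero]
    rw [h2, whisker_exchange_assoc, leftUnitor_naturality_assoc]
  have h5 : e ▷ M ≫ (λ_ M).hom ≫ a = ε_ M Mᘁ ≫ t ≫ x + Mᘁ ◁ cokernel.π x ≫ w := by
    rw [hw]; abel
  have h6 := congrArg rtr h5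
  rw [rtr_mul, rtr_add, rtr_cyc, h4, rtr_mul, rtr_ev] at h6
  rw [h6, he, evAt_comp]

end

end Pool.Agent.D0H75.CM
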