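import Pool.Agent.D0H75.CM.Real

/-!
# Conservativity and nilpotence
-/

set_option autoImplicit false
set_option linter.unusedSectionVars false
set_option linter.style.haveILetI false

open CategoryTheory Limits MonoidalCategory

namespace Pool.Agent.D0H75.CM

universe v u w w'

section

variable {C : Type u} [Category.{v} C] [MonoidalCategory C] [SymmetricCategory C]
  [RightRigidCategory C] [Preadditive C] [Linear ℚ C] {K : Type w} [Field K]

/-- The functor of the realisation turns whiskerings and duals of morphisms with bijective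
realisation into morphisms with bijective realisation. -/
structure WeightRealisation.IsTensorial (R : WeightRealisation.{v, u, w, w'} C K) : Prop where
  whisker {X Y : C} (f : X ⟶ Y) (T : C) : Function.Bijective (R.H.map f).hom →
    Function.Bijective (R.H.map (f ▷ T)).hom
  dual {X Y : C} (f : X ⟶ Y) : Function.Bijective (R.H.map f).hom →
    Function.Bijective (R.H.map (rightAdjointMate f)).hom

end

section

variable {C : Type u} [Category.{v} C] [MonoidalCategory C] [SymmetricCategory C]
  [RightRigidCategory C] [Abelian C] [MonoidalPreadditive C] [Linear ℚ C]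
  {K : Type w} [Field K] [CharZero K] (R : WeightRealisation.{v, u, w, w'} C K)

/-- The name of a morphism. -/
def nm {M N : C} (f : M ⟶ N) : 𝟙_ C ⟶ N ⊗ Mᘁ := η_ M Mᘁ ≫ f ▷ Mᘁ

omit [Linear ℚ C] in
lemma nm_recover {M N : C} (f : M ⟶ N) :
    f = (λ_ M).inv ≫ (nm f ▷ M) ≫ (α_ N Mᘁ M).hom ≫ (N ◁ ε_ M Mᘁ) ≫ (ρ_ N).hom := by
  rw [nm, comp_whiskerRight, Category.assoc, associator_naturality_left_assoc,
    ← whisker_exchange_assoc, rightUnitor_naturality,
    ExactPairing.evaluation_coevaluation_assoc]
  simp

omit [Linear ℚ C] in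
lemma eq_zero_of_nm {M N : C} (f : M ⟶ N) (h : nm f = 0) : f = 0 := by
  rw [nm_recover f, h, MonoidalPreadditive.zero_whiskerRight, zero_comp, comp_zero]

omit [Linear ℚ C] in
lemma nm_comp {M N P : C} (f : M ⟶ N) (g : N ⟶ P) : nm f ≫ g ▷ Mᘁ = nm (f ≫ g) := by
  rw [nm, nm, comp_whiskerRight, Category.assoc]

lemma rk_le_of_inj {M N : C} (f : M ⟶ N) (hf : Function.Injective (R.H.map f).hom) :
    R.rk M ≤ R.rk N := by
  have h0 : ∀ (n : ℕ) (v : R.H.obj M), (R.H.map f).hom
      ((((R.H.map (R.φ M)).hom - (1 : K) • (1 : Module.End K (R.H.obj M))) ^ n) v) =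
      (((R.H.map (R.φ N)).hom - (1 : K) • (1 : Module.End K (R.H.obj N))) ^ n)
        ((R.H.map f).hom v) := by
    intro n
    induction n with
    | zero => intro v; simp
    | succ n ih =>
      intro v
      rw [pow_succ, pow_succ, Module.End.mul_apply, Module.End.mul_apply, ih]
      congr 1
      have h1 := congrArg (fun z => (R.H.map z).hom v) (R.φ_natural f)
      simp only [Functor.map_comp, ModuleCat.hom_comp, LinearMap.comp_apply] at h1
      simp only [one_smul, LinearMap.sub_apply, Module.End.one_apply, map_sub, h1]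
  let g : (Module.End.maxGenEigenspace (R.H.map (R.φ M)).hom 1) →ₗ[K]
      (Module.End.maxGenEigenspace (R.H.map (R.φ N)).hom 1) :=
    LinearMap.restrict (R.H.map f).hom (fun v hv => by
      rw [Module.End.mem_maxGenEigenspace] at hv ⊢
      obtain ⟨n, hn⟩ := hv
      refine ⟨n, ?_⟩
      rw [← h0 n v, hn, map_zero])
  apply LinearMap.finrank_le_finrank_of_injective (f := g)
  intro a b hab
  apply Subtype.ext
  apply hf
  exact congrArg Subtype.val hab

lemma zero_of_inj (hU : ScalarUnit C) {P Q : C} (g : P ⟶ Q)
    (hg : Function.Injective (R.H.map g).hom) (x : 𝟙_ C ⟶ P) (h : x ≫ g = 0) : x = 0 := by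
  by_contra hx
  have h1 := rk_add R hU x hx
  have h2 : cokernel.π x ≫ cokernel.desc x g h = g := cokernel.π_desc x g h
  have h3 : Function.Injective (R.H.map (cokernel.π x)).hom := by
    rw [← h2, Functor.map_comp, ModuleCat.hom_comp] at hg
    exact Function.Injective.of_comp hg
  have h4 := rk_le_of_inj R _ h3
  omega

variable {R} in
lemma mono_of_bijective (hR : R.IsTensorial) (hU : ScalarUnit C) {M N : C} (f : M ⟶ N)
    (hf : Function.Bijective (R.H.map f).hom) : Mono f := by
  rw [Preadditive.mono_iff_cancel_zero]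
  intro K κ hκ
  apply eq_zero_of_nm
  apply zero_of_inj R hU (f ▷ Kᘁ) (hR.whisker f _ hf).1
  rw [nm_comp, hκ, nm, MonoidalPreadditive.zero_whiskerRight, comp_zero]

omit [Linear ℚ C] in
lemma eq_zero_of_mate {M N : C} (f : M ⟶ N) (h : rightAdjointMate f = 0) : f = 0 := by
  apply eq_zero_of_nm
  have := coevaluation_comp_rightAdjointMate f
  rw [nm, ← this, h, MonoidalPreadditive.whiskerLeft_zero, comp_zero]

variable {R} in
/-- **Conservativity.** -/
theorem isIso_of_bijective (hR : R.IsTensorial) (hU : ScalarUnit C) {M N : C} (f : M ⟶ N)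
    (hf : Function.Bijective (R.H.map f).hom) : IsIso f := by
  have h1 : Mono f := mono_of_bijective hR hU f hf
  have h2 : Epi f := by
    rw [Preadditive.epi_iff_cancel_zero]
    intro Q q hq
    apply eq_zero_of_mate
    have h3 : Mono (rightAdjointMate f) := mono_of_bijective hR hU _ (hR.dual f hf)
    rw [← cancel_mono (rightAdjointMate f), zero_comp, ← comp_rightAdjointMate, hq]
    -- the mate of zero is zero
    simp [rightAdjointMate, MonoidalPreadditive.whiskerLeft_zero,
      MonoidalPreadditive.zero_whiskerRight]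
  exact isIso_of_mono_of_epi f

end

end Pool.Agent.D0H75.CM
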