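import Pool.Agent.D0H75.CM.Fin
import Pool.Agent.D0H75.CM.Cons

/-!
# The realisation is tensorial
-/

set_option autoImplicit false
set_option linter.unusedSectionVars false
set_option linter.unusedVariables false

open CategoryTheory AlgebraicGeometry MonoidalCategory Idempotents Limits

universe u v w

namespace Pool.Agent.D0H75.CM

open Pool.Agent.H914 Pool.Agent.H914.VarClass Pool.Agent.H914.VarClass.Obj Pool.Agent.W492.BB
  Pool.Agent.W550.Corr Pool.Agent.TH133

section mates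

variable {D : Type u} [Category.{v} D] [MonoidalCategory D] [RightRigidCategory D]

/-- A morphism out of a dual is determined by its composite with the coevaluation. -/
lemma coev_cancel {Y Z : D} {g g' : Yᘁ ⟶ Z} (h : η_ Y Yᘁ ≫ Y ◁ g = η_ Y Yᘁ ≫ Y ◁ g') : g = g' := by
  have key : ∀ g : Yᘁ ⟶ Z, g = (ρ_ Yᘁ).inv ≫ (Yᘁ ◁ (η_ Y Yᘁ ≫ Y ◁ g)) ≫ (α_ _ _ _).inv ≫
      (ε_ Y Yᘁ ▷ Z) ≫ (λ_ Z).hom := by
    intro g
    have h5 : Yᘁ ◁ η_ Y Yᘁ ≫ (α_ _ _ _).inv ≫ ε_ Y Yᘁ ▷ Yᘁ = (ρ_ Yᘁ).hom ≫ (λ_ Yᘁ).inv :=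
      ExactPairing.coevaluation_evaluation Y Yᘁ
    rw [MonoidalCategory.whiskerLeft_comp, Category.assoc, associator_inv_naturality_right_assoc,
      whisker_exchange_assoc, reassoc_of% h5, leftUnitor_naturality]
    simp
  rw [key g, key g', h]

/-- The dual of a morphism is characterised by the coevaluations. -/
lemma mate_eq {X Y : D} (f : X ⟶ Y) (g : Yᘁ ⟶ Xᘁ) (h : η_ Y Yᘁ ≫ Y ◁ g = η_ X Xᘁ ≫ f ▷ Xᘁ) :
    rightAdjointMate f = g := by
  apply coev_cancel
  rw [h, coevaluation_comp_rightAdjointMate]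

/-- The dual of a morphism in the Karoubi envelope. -/
lemma kar_mate {P Q : Karoubi D} (f : P ⟶ Q) :
    (rightAdjointMate f).f = rightAdjointMate f.f := by
  let g : Qᘁ ⟶ Pᘁ := ⟨rightAdjointMate f.f, by
    change rightAdjointMate Q.p ≫ rightAdjointMate f.f ≫ rightAdjointMate P.p =
      rightAdjointMate f.f
    rw [← comp_rightAdjointMate, ← comp_rightAdjointMate, Category.assoc, f.comm]⟩
  have h1 : rightAdjointMate f = g := by
    apply mate_eq
    apply Karoubi.hom_ext
    change (η_ Q.X (Q.X)ᘁ ≫ (Q.p ⊗ₘ rightAdjointMate Q.p)) ≫ (Q.p ⊗ₘ rightAdjointMate f.f) =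
      (η_ P.X (P.X)ᘁ ≫ (P.p ⊗ₘ rightAdjointMate P.p)) ≫ (f.f ⊗ₘ rightAdjointMate P.p)
    rw [Category.assoc, Category.assoc, tensorHom_comp_tensorHom, tensorHom_comp_tensorHom,
      Q.idem, Karoubi.p_comp, ← comp_rightAdjointMate, ← comp_rightAdjointMate, P.idem,
      Karoubi.comp_p, MonoidalCategory.tensorHom_def', MonoidalCategory.tensorHom_def',
      reassoc_of% coevaluation_comp_rightAdjointMate f.f,
      reassoc_of% coevaluation_comp_rightAdjointMate P.p, ← comp_whiskerRight,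
      ← comp_whiskerRight, Karoubi.comp_p, Karoubi.p_comp]
  rw [h1]

end mates

variable {k : Type u} [Field k] {𝒱 : VarClass k} {C : TheoryData.{u, v, 0} 𝒱 ℚ}
  [hC : IsChowProj C]

section

variable [hP : HasPoint 𝒱]

/-- A class on `pt × W` is determined by its action. -/
lemma act_pt_inj {W : 𝒱.Obj} {a b : C.A ((pt 𝒱).prod W)}
    (h : C.act a (1 : C.A (pt 𝒱)) = C.act b (1 : C.A (pt 𝒱))) : a = b := by
  rw [TheoryData.act_apply, TheoryData.act_apply, map_one, mul_one, mul_one] at h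
  have h1 := congrArg (C.pull (snd (pt 𝒱) W)) h
  have h2 : ∀ c : C.A ((pt 𝒱).prod W), C.pull (snd (pt 𝒱) W) (C.push (snd (pt 𝒱) W) c) = c := by
    intro c
    rw [pull_iso C _ _ (unitL1 W) (unitL2 W), ← C.push_comp, unitL1, C.push_id]
  rwa [h2, h2] at h1

/-- The dual of a correspondence is its transpose. -/
lemma val_mate {M N : CObj C} (f : M ⟶ N) :
    CObj.val (rightAdjointMate f) = tp C (CObj.val f) := by
  have hmem : tp C (X := M.X) (Y := N.X) (CObj.val f) ∈ C.gr ((cDual N).X.prod (cDual M).X)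
      ((cDual N).X.dim + ((cDual M).m - (cDual N).m)) := by
    have h1 := tp_mem C (CObj.mem_val f)
    have e : (M.X.dim : ℤ) + (N.m - M.m) =
        (cDual N).X.dim + ((cDual M).m - (cDual N).m) := by
      change (M.X.dim : ℤ) + (N.m - M.m) = N.X.dim + (M.X.dim - M.m - (N.X.dim - N.m))
      ring
    rw [e] at h1
    exact h1
  have h1 : rightAdjointMate f = (CObj.mkH (M := cDual N) (N := cDual M)
      (tp C (X := M.X) (Y := N.X) (CObj.val f)) hmem : Nᘁ ⟶ Mᘁ) := by
    apply mate_eq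
    apply CObj.hom_ext
    change C.comp (coevC C N.X) (tens C (dg C N.X) (tp C (X := M.X) (Y := N.X) (CObj.val f))) =
      C.comp (coevC C M.X) (tens C (X := M.X) (Y := N.X) (CObj.val f) (dg C M.X))
    apply act_pt_inj
    have h2 : ∀ X : 𝒱.Obj, C.act (coevC C X) (1 : C.A (pt 𝒱)) = dg C X := by
      intro X
      rw [coevC, C.act_comp, C.act_cograph, C.act_graph, map_one]
      rfl
    rw [C.act_comp, C.act_comp, h2, h2, act_tens C (ch_comm C), act_tens C (ch_comm C),
      comp_dg, comp_dg, comp_dg, tp_dg, dg_comp]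
  rw [h1]
  rfl

end

variable {K : Type w} [Field K] (H : WeilTheoryData.{u, v, w} C K) [hH : IsWeilFin H]

/-- `Γ` maps the image of `p` onto the image of `q`. -/
def SurjOn {X Y : 𝒱.Obj} (p : C.A (X.prod X)) (q : C.A (Y.prod Y)) (Γ : C.A (X.prod Y)) : Prop :=
  ∀ b : H.A Y, ∃ a : H.A X, H.act (H.cl Γ) (H.act (H.cl p) a) = H.act (H.cl q) b

/-- `Γ` is injective on the image of `p`. -/
def InjOn {X Y : 𝒱.Obj} (p : C.A (X.prod X)) (Γ : C.A (X.prod Y)) : Prop :=
  ∀ a : H.A X, H.act (H.cl Γ) (H.act (H.cl p) a) = 0 → H.act (H.cl p) a = 0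

/-- The cohomology of a product is spanned by external products. -/
lemma kun_ind' {X Y : 𝒱.Obj} {p : H.A (X.prod Y) → Prop} (hz : p 0)
    (hadd : ∀ a b, p a → p b → p (a + b)) (hsm : ∀ (c : K) a, p a → p (c • a))
    (h : ∀ a b, p (H.ext a b)) (c : H.A (X.prod Y)) : p c := by
  have h1 : c ∈ ⨆ i, H.gr (X.prod Y) i := span_gr H _ c
  have key : ∀ m, ∀ c ∈ H.gr (X.prod Y) m, p c := by
    intro m c hc
    have h2 := H.kunneth X Y m hc
    clear hc
    induction h2 using Submodule.span_induction with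
    | mem x hx =>
      obtain ⟨l, a, b, ha, hb, rfl⟩ := hx
      exact h a b
    | zero => exact hz
    | add x y hx hy hx' hy' => exact hadd _ _ hx' hy'
    | smul r x hx hx' => exact hsm _ _ hx'
  induction h1 using Submodule.iSup_induction' with
  | mem i x hx => exact key i x hx
  | zero => exact hz
  | add x y _ _ hx hy => exact hadd _ _ hx hy

lemma surjOn_tens {X Y Z : 𝒱.Obj} {p : C.A (X.prod X)} {q : C.A (Y.prod Y)} {Γ : C.A (X.prod Y)}
    (t : C.A (Z.prod Z)) (h : SurjOn H p q Γ) (ht : C.comp t t = t) :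
    SurjOn H (tens C p t) (tens C q t) (tens C Γ t) := by
  intro b
  refine kun_ind' H (p := fun b => ∃ a, H.act (H.cl (tens C Γ t)) (H.act (H.cl (tens C p t)) a) =
    H.act (H.cl (tens C q t)) b) ?_ ?_ ?_ ?_ b
  · exact ⟨0, by rw [TheoryData.act_map_zero, TheoryData.act_map_zero, TheoryData.act_map_zero]⟩
  · rintro b b' ⟨a, ha⟩ ⟨a', ha'⟩
    exact ⟨a + a', by rw [act_map_add, act_map_add, act_map_add, ha, ha']⟩
  · rintro c b ⟨a, ha⟩
    exact ⟨c • a, by rw [act_map_smul, act_map_smul, act_map_smul, ha]⟩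
  · intro y z
    obtain ⟨x, hx⟩ := h y
    refine ⟨H.ext x z, ?_⟩
    rw [actH_tens_ext, actH_tens_ext, actH_tens_ext, hx, ← actH_comp, ht]

/-- The linear form given by a class. -/
lemma exists_form {X : 𝒱.Obj} (l : H.A X →ₗ[K] K) : ∃ a : H.A X, ∀ b, l b = H.tr X (a * b) := by
  have hf := hH.finite X
  let L : H.A X →ₗ[K] Module.Dual K (H.A X) :=
    { toFun := fun a => H.tr X ∘ₗ LinearMap.mulLeft K a
      map_add' := by
        intro a b
        apply LinearMap.ext
        intro c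
        change H.tr X ((a + b) * c) = H.tr X (a * c) + H.tr X (b * c)
        rw [add_mul, map_add]
      map_smul' := by
        intro r a
        apply LinearMap.ext
        intro c
        change H.tr X ((r • a) * c) = r • H.tr X (a * c)
        rw [smul_mul_assoc, map_smul] }
  have hL : Function.Injective L := by
    rw [← LinearMap.ker_eq_bot, eq_bot_iff]
    intro a ha
    rw [Submodule.mem_bot]
    apply H.nondeg
    intro b
    exact LinearMap.congr_fun (LinearMap.mem_ker.1 ha) b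
  have hs : Function.Surjective L :=
    (LinearMap.injective_iff_surjective_of_finrank_eq_finrank
      (Subspace.dual_finrank_eq (K := K) (V := H.A X)).symm).1 hL
  obtain ⟨a, ha⟩ := hs l
  exact ⟨a, fun b => by rw [← ha]; rfl⟩

lemma injOn_of_surjOn {X Y : 𝒱.Obj} {p : C.A (X.prod X)} {q : C.A (Y.prod Y)}
    {Γ : C.A (X.prod Y)} (hp : C.comp p p = p)
    (h : SurjOn H (tp C q) (tp C p) (tp C Γ)) : InjOn H p Γ := by
  intro a ha
  apply H.nondeg
  intro b
  obtain ⟨c, hc⟩ := h b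
  have h1 : H.act (H.cl p) a = H.act (H.cl p) (H.act (H.cl p) a) := by
    rw [← actH_comp, hp]
  rw [h1, ← tr_act, ← hc, tr_act, ha, zero_mul, map_zero]

lemma surjOn_of_injOn {X Y : 𝒱.Obj} {p : C.A (X.prod X)} {q : C.A (Y.prod Y)}
    {Γ : C.A (X.prod Y)} (hp : C.comp p p = p) (hΓ : C.comp (C.comp p Γ) q = Γ)
    (hq : C.comp q q = q) (h : InjOn H p Γ) : SurjOn H (tp C q) (tp C p) (tp C Γ) := by
  intro b
  by_contra hne
  let W : Submodule K (H.A X) := LinearMap.range (H.actL (H.cl (tp C Γ)))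
  have hpΓ : C.comp p Γ = Γ := by
    rw [← hΓ, ← comp_assoc, ← comp_assoc, hp]
  have hΓq : C.comp Γ q = Γ := by
    rw [← hΓ, comp_assoc, hq]
  have h1 : H.act (H.cl (tp C p)) b ∉ W := by
    rintro ⟨c, hc⟩
    apply hne
    refine ⟨c, ?_⟩
    rw [← actH_comp, ← tp_comp C (ch_comm C), hΓq]
    exact hc
  obtain ⟨l, hl1, hl2⟩ := Submodule.exists_le_ker_of_notMem h1
  obtain ⟨a, ha⟩ := exists_form H l
  have h2 : H.act (H.cl Γ) a = 0 := by
    apply H.nondeg
    intro c
    rw [← tr_act, ← ha]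
    exact hl2 ⟨c, rfl⟩
  have h3 : H.act (H.cl p) a = 0 := by
    apply h
    rw [← actH_comp, hpΓ, h2]
  apply hl1
  rw [ha, tr_act, h3, zero_mul, map_zero]

lemma bij_iff {P Q : Karoubi (CObj C)} (f : P ⟶ Q) :
    Function.Bijective (rMap H f) ↔ InjOn H (CObj.val P.p) (CObj.val f.f) ∧
      SurjOn H (CObj.val P.p) (CObj.val Q.p) (CObj.val f.f) := by
  constructor
  · rintro ⟨h1, h2⟩
    constructor
    · intro a ha
      have h3 : rMap H f ⟨H.act (H.cl (CObj.val P.p)) a, ⟨a, rfl⟩⟩ = 0 := Subtype.ext ha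
      have h4 := (map_eq_zero_iff (rMap H f) h1).1 h3
      exact congrArg Subtype.val h4
    · intro b
      obtain ⟨⟨_, ⟨a, rfl⟩⟩, ha⟩ := h2 ⟨H.act (H.cl (CObj.val Q.p)) b, ⟨b, rfl⟩⟩
      exact ⟨a, congrArg Subtype.val ha⟩
  · rintro ⟨h1, h2⟩
    constructor
    · rw [injective_iff_map_eq_zero]
      rintro ⟨_, ⟨a, rfl⟩⟩ ha
      exact Subtype.ext (h1 a (congrArg Subtype.val ha))
    · rintro ⟨_, ⟨b, rfl⟩⟩
      obtain ⟨a, ha⟩ := h2 b
      exact ⟨⟨H.act (H.cl (CObj.val P.p)) a, ⟨a, rfl⟩⟩, Subtype.ext ha⟩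

lemma val_idem (P : Karoubi (CObj C)) :
    C.comp (CObj.val P.p) (CObj.val P.p) = CObj.val P.p := congrArg CObj.val P.idem

lemma val_comm {P Q : Karoubi (CObj C)} (f : P ⟶ Q) :
    C.comp (C.comp (CObj.val P.p) (CObj.val f.f)) (CObj.val Q.p) = CObj.val f.f := by
  rw [comp_assoc]
  exact congrArg CObj.val f.comm

variable [hP : HasPoint 𝒱]

lemma bij_whisker {P Q : Karoubi (CObj C)} (f : P ⟶ Q) (T : Karoubi (CObj C))
    (hf : Function.Bijective (rMap H f)) : Function.Bijective (rMap H (f ▷ T)) := by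
  rw [bij_iff] at hf ⊢
  obtain ⟨h1, h2⟩ := hf
  have hT := val_idem T
  change InjOn H (tens C (CObj.val P.p) (CObj.val T.p)) (tens C (CObj.val f.f) (CObj.val T.p)) ∧
    SurjOn H (tens C (CObj.val P.p) (CObj.val T.p)) (tens C (CObj.val Q.p) (CObj.val T.p))
      (tens C (CObj.val f.f) (CObj.val T.p))
  constructor
  · have h3 := surjOn_of_injOn H (val_idem P) (val_comm f) (val_idem Q) h1
    have h4 := surjOn_tens H (tp C (CObj.val T.p)) h3 (by
      rw [← tp_comp C (ch_comm C), hT])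
    rw [← tp_tens, ← tp_tens, ← tp_tens] at h4
    apply injOn_of_surjOn H _ h4
    rw [tens_comp C (ch_comm C), hT, val_idem P]
  · exact surjOn_tens H _ h2 hT

lemma bij_mate {P Q : Karoubi (CObj C)} (f : P ⟶ Q)
    (hf : Function.Bijective (rMap H f)) : Function.Bijective (rMap H (rightAdjointMate f)) := by
  rw [bij_iff] at hf ⊢
  obtain ⟨h1, h2⟩ := hf
  have e1 : CObj.val (rightAdjointMate f).f = tp C (CObj.val f.f) :=
    (congrArg CObj.val (kar_mate f)).trans (val_mate f.f)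
  have e2 : ∀ R : Karoubi (CObj C), CObj.val (Rᘁ).p = tp C (CObj.val R.p) := fun R => val_mate R.p
  have key : InjOn H (tp C (CObj.val Q.p)) (tp C (CObj.val f.f)) ∧
    SurjOn H (tp C (CObj.val Q.p)) (tp C (CObj.val P.p)) (tp C (CObj.val f.f)) := by
    constructor
    · have h3 : SurjOn H (tp C (tp C (CObj.val P.p))) (tp C (tp C (CObj.val Q.p)))
          (tp C (tp C (CObj.val f.f))) := by
        rw [tp_tp, tp_tp, tp_tp]
        exact h2
      apply injOn_of_surjOn H _ h3
      rw [← tp_comp C (ch_comm C), val_idem Q]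
    · exact surjOn_of_injOn H (val_idem P) (val_comm f) (val_idem Q) h1
  have gen : ∀ (x : C.A (Q.X.X.prod Q.X.X)) (y : C.A (Q.X.X.prod P.X.X))
      (z : C.A (P.X.X.prod P.X.X)), x = tp C (CObj.val Q.p) → y = tp C (CObj.val f.f) →
      z = tp C (CObj.val P.p) → InjOn H x y ∧ SurjOn H x z y := by
    rintro x y z rfl rfl rfl
    exact key
  exact gen _ _ _ (e2 Q) e1 (e2 P)

variable [Finite k] {Fr : ∀ X : 𝒱.Obj, X ⟶ X}

/-- The realisation is tensorial. -/
theorem tensorial (h : IsFrobFamily H Fr) : (realisation h).IsTensorial where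
  whisker f T hf := bij_whisker H f T hf
  dual f hf := bij_mate H f hf

/-- **Conservativity of the realisation.** -/
theorem isIso_of_bij (h : IsFrobFamily H Fr) (hab : IsAbelianCat (CHMot C)) {M N : CHMot C}
    (f : M ⟶ N) (hf : Function.Bijective (rMap H f)) : IsIso f := by
  have hK := hH.charZero
  let _ := hab.abelian
  exact isIso_of_bijective (C := CHMot C) (R := realisation h) (tensorial H h)
    (scalarUnit_CHMot (H := H)) f hf

end Pool.Agent.D0H75.CM
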