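import Pool.Agent.D0H75.CM.EndR

/-!
# Chow-Kunneth decompositions from abelianness
-/

set_option autoImplicit false
set_option linter.unusedSectionVars false
set_option linter.unusedVariables false

open CategoryTheory AlgebraicGeometry MonoidalCategory Idempotents Limits Polynomial

universe u v w

namespace Pool.Agent.D0H75.CM

open Pool.Agent.H914 Pool.Agent.H914.VarClass Pool.Agent.H914.VarClass.Obj Pool.Agent.W492.BB
  Pool.Agent.W550.Corr Pool.Agent.TH133

/-- Polynomials for the Kunneth projectors. -/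
structure KunPoly (n : ℕ) where
  /-- the annihilating polynomials -/
  P : ℕ → ℚ[X]
  /-- the exponent -/
  N : ℕ
  /-- the polynomials of the projectors -/
  t : ℕ → ℚ[X]
  /-- auxiliary -/
  a : ℕ → ℚ[X]
  /-- auxiliary -/
  b : ℕ → ℚ[X]
  pos : 0 < N
  h1 : ∀ i, t i = 1 + a i * P i ^ N
  h2 : ∀ i, t i = b i * ∏ j ∈ (Finset.range n).erase i, P j ^ N
  cop : ∀ i j, i ≠ j → IsCoprime (P i) (P j)

namespace KunPoly

variable {n : ℕ} (D : KunPoly n)

/-- The annihilating polynomial. -/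
noncomputable def tot : ℚ[X] := ∏ j ∈ Finset.range n, D.P j ^ D.N

variable {E : Type*} [Ring E] [Algebra ℚ E] (x : E) (hx : aeval x D.tot = 0)

include hx

lemma aeval_of_dvd {s : ℚ[X]} (hs : D.tot ∣ s) : aeval x s = 0 := by
  obtain ⟨r, rfl⟩ := hs
  rw [map_mul, hx, zero_mul]

lemma idem {i : ℕ} (hi : i < n) : aeval x (D.t i) * aeval x (D.t i) = aeval x (D.t i) := by
  have h3 : aeval x (D.t i * D.t i - D.t i) = 0 := by
    apply D.aeval_of_dvd x hx
    have e : D.t i * D.t i - D.t i = D.t i * (D.t i - 1) := by ring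
    rw [e]
    nth_rewrite 1 [D.h2 i]
    rw [D.h1 i, tot, ← Finset.mul_prod_erase _ _ (Finset.mem_range.2 hi)]
    exact ⟨D.b i * D.a i, by ring⟩
  rw [map_sub, map_mul, sub_eq_zero] at h3
  exact h3

lemma orth {i j : ℕ} (hi : i < n) (hij : i ≠ j) : aeval x (D.t i) * aeval x (D.t j) = 0 := by
  rw [← map_mul]
  apply D.aeval_of_dvd x hx
  rw [D.h2 i, D.h2 j, tot, ← Finset.mul_prod_erase _ _ (Finset.mem_range.2 hi)]
  have h4 : D.P i ^ D.N ∣ ∏ l ∈ (Finset.range n).erase j, D.P l ^ D.N :=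
    Finset.dvd_prod_of_mem _ (Finset.mem_erase.2 ⟨hij, Finset.mem_range.2 hi⟩)
  obtain ⟨r, hr⟩ := h4
  rw [hr]
  exact ⟨D.b i * D.b j * r, by ring⟩

lemma sum_eq : ∑ i ∈ Finset.range n, aeval x (D.t i) = 1 := by
  have h3 : aeval x ((∑ i ∈ Finset.range n, D.t i) - 1) = 0 := by
    apply D.aeval_of_dvd x hx
    apply Finset.prod_dvd_of_coprime
    · intro i _ j _ hij
      exact (D.cop i j hij).pow
    · intro i hi
      rw [← Finset.add_sum_erase _ _ hi]
      have e : D.t i + ∑ j ∈ (Finset.range n).erase i, D.t j - 1 =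
          D.a i * D.P i ^ D.N + ∑ j ∈ (Finset.range n).erase i, D.t j := by
        nth_rewrite 1 [D.h1 i]
        ring
      rw [e]
      apply dvd_add (Dvd.intro_left _ rfl)
      apply Finset.dvd_sum
      intro j hj
      rw [D.h2 j]
      apply Dvd.dvd.mul_left
      exact Finset.dvd_prod_of_mem (fun l => D.P l ^ D.N)
        (Finset.mem_erase.2 ⟨(Finset.ne_of_mem_erase hj).symm, hi⟩)
  rw [map_sub, map_sum, map_one, sub_eq_zero] at h3
  exact h3

end KunPoly

variable {k : Type u} [Field k] {𝒱 : VarClass k} {C : TheoryData.{u, v, 0} 𝒱 ℚ}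
  [hC : IsChowProj C] {K : Type w} [Field K] (H : WeilTheoryData.{u, v, w} C K)
  [hH : IsWeilFin H] [Finite k] [hP : HasPoint 𝒱] {Fr : ∀ X : 𝒱.Obj, X ⟶ X}

/-- The Kunneth polynomials compute the Kunneth projectors. -/
lemma ev_kun [CharZero K] {X : 𝒱.Obj} (D : KunPoly (2 * X.dim + 1)) (B : Module.End K (H.A X))
    (hB : ∀ (i : ℕ), ∀ a ∈ H.gr X i, ev B (D.P i) a = 0) (i : ℕ)
    (hBm : ∀ (j : ℤ), ∀ a ∈ H.gr X j, B a ∈ H.gr X j) :
    ev B (D.t i) = prL H X i := by
  have hpow : ∀ (j : ℕ), ∀ a ∈ H.gr X j, ev B (D.P j ^ D.N) a = 0 := by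
    intro j a ha
    have : D.P j ^ D.N = D.P j ^ (D.N - 1) * D.P j := by
      rw [← pow_succ, Nat.sub_add_cancel D.pos]
    rw [this, ev_mul, Module.End.mul_apply, hB j a ha, map_zero]
  apply ext_gr H
  intro j a ha
  by_cases h0 : a = 0
  · rw [h0, map_zero, map_zero]
  have h1 := nonneg_of_mem H ha h0
  have h2 : j ≤ 2 * X.dim := by
    by_contra h2
    rw [gr_top H (by omega)] at ha
    exact h0 ((Submodule.mem_bot _).1 ha)
  obtain ⟨m, rfl⟩ := Int.eq_ofNat_of_zero_le h1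
  by_cases hm : m = i
  · subst hm
    rw [prL_same H ha, D.h1, ev_add, ev_one, LinearMap.add_apply, ev_mul, Module.End.mul_apply,
      hpow m a ha, map_zero, add_zero, Module.End.one_apply]
  · rw [prL_ne H ha (by exact_mod_cast hm), D.h2, ev_mul, Module.End.mul_apply]
    have h3 : ev B (∏ j ∈ (Finset.range (2 * X.dim + 1)).erase i, D.P j ^ D.N) a = 0 := by
      apply ev_prod _ _ (fun j => D.P j ^ D.N) _ m
      · exact Finset.mem_erase.2 ⟨hm, Finset.mem_range.2 (by omega)⟩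
      · exact hpow m a ha
    rw [h3, map_zero]

end Pool.Agent.D0H75.CM
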