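import Pool.Agent.D0H75.CM.Defs

/-!
# Morphisms of Chow motives: cohomology
-/

set_option autoImplicit false

open CategoryTheory AlgebraicGeometry Idempotents

universe u v w

namespace Pool.Agent.D0H75.CM

open Pool.Agent.H914 Pool.Agent.H914.VarClass Pool.Agent.H914.VarClass.Obj Pool.Agent.W492.BB
  Pool.Agent.W550.Corr Pool.Agent.TH133

variable {k : Type u} [Field k] {𝒱 : VarClass k} {C : TheoryData.{u, v, 0} 𝒱 ℚ}
  {K : Type w} [Field K]

/-- The action `Γ_* : H(X) → H(Y)` of a correspondence `Γ` on the cohomology. -/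
noncomputable def onH (H : WeilTheoryData.{u, v, w} C K) {X Y : 𝒱.Obj} (Γ : C.A (X.prod Y))
    (a : H.A X) : H.A Y := H.act (H.cl Γ) a

/-- The variety `X` of a Chow motive `(X, p, m)`. -/
def var [IsChowProj C] (M : CHMot C) : 𝒱.Obj := M.X.X

/-- The cycle class in `CH^(dim X + (n - m))(X × Y)_ℚ` underlying a morphism of Chow motives
from `(X, p, m)` to `(Y, q, n)`. -/
def cls [IsChowProj C] {M N : CHMot C} (f : M ⟶ N) : C.A ((var M).prod (var N)) :=
  CObj.Hom.val f.f

/-- The morphism `f : (X, p, m) ⟶ (Y, q, n)` of Chow motives induces a bijection from the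
cohomology `p_* H(X)` of `(X, p, m)` to the cohomology `q_* H(Y)` of `(Y, q, n)` (the class
underlying the identity of `(X, p, m)` is `p`). -/
def IsCohIso [IsChowProj C] (H : WeilTheoryData.{u, v, w} C K) {M N : CHMot C} (f : M ⟶ N) :
    Prop :=
  (∀ a, onH H (cls f) (onH H (cls (𝟙 M)) a) = 0 → onH H (cls (𝟙 M)) a = 0) ∧
    ∀ b, ∃ a, onH H (cls f) (onH H (cls (𝟙 M)) a) = onH H (cls (𝟙 N)) b

/-- The endomorphism `f` of the Chow motive `(X, p, m)` is numerically trivial: the cycle class
underlying it, in `CH^(dim X)(X × X)_ℚ`, is numerically equivalent to zero. -/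
def NumTrivEnd [IsChowProj C] [HasPoint 𝒱] {M : CHMot C} (f : M ⟶ M) : Prop :=
  NumTriv C ((var M).prod (var M)) (var M).dim (cls f)

end Pool.Agent.D0H75.CM
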