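import Pool.Agent.D0H75.CM.Num
import Pool.Agent.D0H75.CM.Defs2

/-!
# Conservativity and nilpotence for Chow motives
-/

set_option autoImplicit false
set_option linter.unusedSectionVars false
set_option linter.unusedVariables false

open CategoryTheory AlgebraicGeometry MonoidalCategory Idempotents Limits

universe u v w

namespace Pool.Agent.D0H75.CM

open Pool.Agent.H914 Pool.Agent.H914.VarClass Pool.Agent.H914.VarClass.Obj Pool.Agent.W492.BB
  Pool.Agent.W550.Corr Pool.Agent.TH133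

variable {k : Type u} [Field k] [Finite k] {𝒱 : VarClass k} [hP : HasPoint 𝒱]
  {C : TheoryData.{u, v, 0} 𝒱 ℚ} [hC : IsChowProj C] {K : Type w} [Field K]
  (H : WeilTheoryData.{u, v, w} C K) [hH : IsWeilFin H] {Fr : ∀ X : 𝒱.Obj, X ⟶ X}

theorem isIso_of_cohIso (h : IsFrobFamily H Fr) (hab : IsAbelianCat (CHMot C)) {M N : CHMot C}
    (f : M ⟶ N) (hf : IsCohIso H f) : IsIso f := by
  apply isIso_of_bij H h hab
  rw [bij_iff]
  exact hf

theorem nil_end (h : IsFrobFamily H Fr) (hab : IsAbelianCat (CHMot C)) {M : CHMot C}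
    (φ : End M) (hf : NumTrivEnd (M := M) φ) : IsNilpotent φ := by
  let f : M ⟶ M := φ
  let ψ : End M.X := f.f
  obtain ⟨n, hn⟩ := nil_of_num H h hab M.X ψ hf
  refine ⟨n + 1, ?_⟩
  have h1 : ∀ n : ℕ, Karoubi.Hom.f (P := M) (Q := M) (φ ^ (n + 1)) = ψ ^ (n + 1) := by
    intro n
    induction n with
    | zero => rw [zero_add, pow_one, pow_one]
    | succ n ih =>
      rw [pow_succ, pow_succ ψ]
      change f.f ≫ Karoubi.Hom.f (P := M) (Q := M) (φ ^ (n + 1)) = _
      rw [ih]
      rfl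
  have h2 : ψ ^ (n + 1) = 0 := by rw [pow_succ, hn, zero_mul]
  apply Karoubi.hom_ext
  exact (h1 n).trans h2

end Pool.Agent.D0H75.CM
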