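import Pool.Agent.D0H75.CM.Graph

/-!
# The category of correspondences
-/

set_option autoImplicit false
set_option linter.unusedSectionVars false

open CategoryTheory AlgebraicGeometry

universe u v w

namespace Pool.Agent.D0H75.CM

open Pool.Agent.H914 Pool.Agent.H914.VarClass Pool.Agent.H914.VarClass.Obj Pool.Agent.W492.BB
  Pool.Agent.W550.Corr Pool.Agent.TH133

variable {k : Type u} [Field k] {𝒱 : VarClass k}

namespace CObj

variable {C : TheoryData.{u, v, 0} 𝒱 ℚ}

noncomputable instance Hom.module (M N : CObj C) : Module ℚ (Hom M N) where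
  smul q f := ⟨q • f.val, Submodule.smul_mem _ q f.mem⟩
  one_smul f := Hom.ext (one_smul ℚ f.val)
  mul_smul q r f := Hom.ext (mul_smul q r f.val)
  smul_zero q := Hom.ext (smul_zero q)
  smul_add q f g := Hom.ext (smul_add q f.val g.val)
  add_smul q r f := Hom.ext (add_smul q r f.val)
  zero_smul f := Hom.ext (zero_smul ℚ f.val)

@[simp] lemma Hom.val_mk {M N : CObj C} (Γ : C.A (M.X.prod N.X))
    (h : Γ ∈ C.gr (M.X.prod N.X) (M.X.dim + (N.m - M.m))) : (Hom.mk (M := M) (N := N) Γ h).val = Γ :=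
  rfl

@[simp] lemma Hom.val_add {M N : CObj C} (f g : Hom M N) : (f + g).val = f.val + g.val := rfl
@[simp] lemma Hom.val_zero {M N : CObj C} : (0 : Hom M N).val = 0 := rfl
@[simp] lemma Hom.val_smul {M N : CObj C} (q : ℚ) (f : Hom M N) : (q • f).val = q • f.val := rfl

variable [hC : IsChowProj C]

/-- The class underlying a morphism. -/
def val {M N : CObj C} (f : M ⟶ N) : C.A (M.X.prod N.X) := Hom.val f

lemma mem_val {M N : CObj C} (f : M ⟶ N) :
    val f ∈ C.gr (M.X.prod N.X) (M.X.dim + (N.m - M.m)) := Hom.mem f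

/-- The morphism given by a class. -/
def mkH {M N : CObj C} (Γ : C.A (M.X.prod N.X))
    (h : Γ ∈ C.gr (M.X.prod N.X) (M.X.dim + (N.m - M.m))) : M ⟶ N := Hom.mk Γ h

@[ext]
lemma hom_ext {M N : CObj C} {f g : M ⟶ N} (h : val f = val g) : f = g := Hom.ext h

@[simp] lemma val_mkH {M N : CObj C} (Γ : C.A (M.X.prod N.X))
    (h : Γ ∈ C.gr (M.X.prod N.X) (M.X.dim + (N.m - M.m))) : val (mkH Γ h : M ⟶ N) = Γ := rfl

@[simp] lemma val_comp {M N P : CObj C} (f : M ⟶ N) (g : N ⟶ P) :
    val (f ≫ g) = C.comp (val f) (val g) := rfl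

@[simp] lemma val_id (M : CObj C) : val (𝟙 M) = dg C M.X := rfl

@[simp] lemma val_add {M N : CObj C} (f g : M ⟶ N) : val (f + g) = val f + val g := rfl
@[simp] lemma val_zero {M N : CObj C} : val (0 : M ⟶ N) = 0 := rfl

noncomputable instance : Linear ℚ (CObj C) where
  homModule := Hom.module
  smul_comp M N P r f g := hom_ext (by
    change C.comp (r • Hom.val f) (Hom.val g) = r • C.comp (Hom.val f) (Hom.val g)
    rw [← compL_apply, ← compL_apply, map_smul, LinearMap.smul_apply])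
  comp_smul M N P f r g := hom_ext (by
    change C.comp (Hom.val f) (r • Hom.val g) = r • C.comp (Hom.val f) (Hom.val g)
    rw [← compL_apply, ← compL_apply, map_smul])

@[simp] lemma val_smul {M N : CObj C} (q : ℚ) (f : M ⟶ N) : val (q • f) = q • val f := rfl

end CObj

section mem

variable {C : TheoryData.{u, v, 0} 𝒱 ℚ} [hC : IsChowProj C] {X Y : 𝒱.Obj}

lemma graph_mem (f : X ⟶ Y) : C.graph f ∈ C.gr (X.prod Y) Y.dim := by
  have h := C.push_mem (Obj.lift (𝟙 X) f) (C.one_mem X)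
  have e1 : (0 : ℤ) + 1 * (((X.prod Y).dim : ℤ) - (X.dim : ℤ)) = Y.dim := by
    rw [dim_prod]; push_cast; ring
  rwa [e1] at h

lemma cograph_mem (f : X ⟶ Y) : C.cograph f ∈ C.gr (Y.prod X) Y.dim := by
  have h := C.push_mem (Obj.lift f (𝟙 X)) (C.one_mem X)
  have e1 : (0 : ℤ) + 1 * (((Y.prod X).dim : ℤ) - (X.dim : ℤ)) = Y.dim := by
    rw [dim_prod]; push_cast; ring
  rwa [e1] at h

/-- The isomorphism of objects given by an isomorphism of varieties. -/
noncomputable def isoOf {M N : CObj C} (f : M.X ⟶ N.X) (g : N.X ⟶ M.X) (h1 : f ≫ g = 𝟙 _)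
    (h2 : g ≫ f = 𝟙 _) (hd : M.X.dim = N.X.dim) (hm : M.m = N.m) : M ≅ N where
  hom := CObj.mkH (C.graph f) (by
    rw [hm, sub_self, add_zero, hd]; exact graph_mem f)
  inv := CObj.mkH (C.graph g) (by
    rw [hm, sub_self, add_zero, ← hd]; exact graph_mem g)
  hom_inv_id := CObj.hom_ext (by
    rw [CObj.val_comp, CObj.val_mkH, CObj.val_mkH, graph_graph, h1]; rfl)
  inv_hom_id := CObj.hom_ext (by
    rw [CObj.val_comp, CObj.val_mkH, CObj.val_mkH, graph_graph, h2]; rfl)

end mem

end Pool.Agent.D0H75.CM
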