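import Pool.Agent.TH133.Ext

/-!
# The category of Chow motives: definitions
-/

set_option autoImplicit false

open CategoryTheory AlgebraicGeometry Idempotents Polynomial Limits

universe u v w

namespace Pool.Agent.D0H75.CM

open Pool.Agent.H914 Pool.Agent.H914.VarClass Pool.Agent.H914.VarClass.Obj Pool.Agent.W492.BB
  Pool.Agent.W550.Corr Pool.Agent.TH133

instance geomIrred_id (S : Scheme.{u}) : GeometricallyIrreducible (𝟙 S) where
  geometrically_irreducibleSpace := by
    intro K _ y Z f g h
    have h1 : IsIso g := h.isIso_snd_of_isIso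
    have h2 : IrreducibleSpace (Spec (.of K)) := inferInstance
    exact (Homeomorph.irreducibleSpace_iff (Scheme.homeoOfIso (asIso g))).2 h2

/-- The point `Spec k` as a variety over `k`. -/
noncomputable def point (k : Type u) [Field k] : SmVar k where
  X := Spec (.of k)
  str := 𝟙 _
  dim := 0
  smooth := inferInstance
  proper := inferInstance
  irred := inferInstance

/-- The class `𝒱` contains the point `Spec k`. -/
class HasPoint {k : Type u} [Field k] (𝒱 : VarClass k) : Prop where
  mem : 𝒱.mem (point k)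

/-- The point as an object of the class. -/
noncomputable def pt {k : Type u} [Field k] (𝒱 : VarClass k) [hP : HasPoint 𝒱] : 𝒱.Obj :=
  ⟨point k, hP.mem⟩

/-- The structure morphism. -/
noncomputable def toPt {k : Type u} [Field k] {𝒱 : VarClass k} [hP : HasPoint 𝒱] (X : 𝒱.Obj) :
    X ⟶ pt 𝒱 :=
  SmVar.Hom.mk (X := X.V) (Y := point k) X.V.str (Category.comp_id _)

variable {k : Type u} [Field k] {𝒱 : VarClass k}

/-- The objects `(X, m)` of the category of correspondences: a variety `X` and an integer `m`. -/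
@[ext]
structure CObj (C : TheoryData.{u, v, 0} 𝒱 ℚ) where
  /-- the variety -/
  X : 𝒱.Obj
  /-- the twist -/
  m : ℤ

namespace CObj

variable {C : TheoryData.{u, v, 0} 𝒱 ℚ}

/-- The morphisms from `(X, m)` to `(Y, n)`: the elements of the group
`Corr^(n - m)(X, Y) = CH^(dim X + (n - m))(X × Y)_ℚ` of correspondences of degree `n - m`. -/
@[ext]
structure Hom (M N : CObj C) where
  /-- the underlying class -/
  val : C.A (M.X.prod N.X)
  mem : C.Deg (M.X.dim + (N.m - M.m)) val

lemma Hom.add_mem {M N : CObj C} (f g : Hom M N) :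
    C.Deg (M.X.dim + (N.m - M.m)) (f.val + g.val) := Submodule.add_mem _ f.mem g.mem

lemma Hom.zero_mem (M N : CObj C) :
    C.Deg (X := M.X.prod N.X) (M.X.dim + (N.m - M.m)) 0 := Submodule.zero_mem _

lemma Hom.neg_mem {M N : CObj C} (f : Hom M N) :
    C.Deg (M.X.dim + (N.m - M.m)) (-f.val) := Submodule.neg_mem _ f.mem

noncomputable instance (M N : CObj C) : Add (Hom M N) := ⟨fun f g => ⟨_, Hom.add_mem f g⟩⟩

noncomputable instance (M N : CObj C) : Zero (Hom M N) := ⟨⟨_, Hom.zero_mem M N⟩⟩

noncomputable instance (M N : CObj C) : Neg (Hom M N) := ⟨fun f => ⟨_, Hom.neg_mem f⟩⟩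

noncomputable instance Hom.addCommGroup (M N : CObj C) : AddCommGroup (Hom M N) where
  toAddGroup := AddGroup.ofLeftAxioms (fun f g h => Hom.ext (add_assoc f.val g.val h.val))
    (fun f => Hom.ext (zero_add f.val)) (fun f => Hom.ext (neg_add_cancel f.val))
  add_comm f g := Hom.ext (add_comm f.val g.val)

variable [hC : IsChowProj C]

lemma Hom.id_mem (M : CObj C) : C.Deg (M.X.dim + (M.m - M.m)) (dg C M.X) := by
  rw [sub_self, add_zero]
  exact dg_mem C M.X

/-- The identity of `(X, m)`: the class of the diagonal. -/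
noncomputable def Hom.id (M : CObj C) : Hom M M := ⟨dg C M.X, Hom.id_mem M⟩

lemma Hom.comp_mem {M N P : CObj C} (f : Hom M N) (g : Hom N P) :
    C.Deg (M.X.dim + (P.m - M.m)) (C.comp f.val g.val) := by
  have h := Pool.Agent.TH133.comp_mem C f.mem g.mem
  have e : M.X.dim + (N.m - M.m + (P.m - N.m)) = M.X.dim + (P.m - M.m) := by ring
  rwa [e] at h

/-- The composite of `Γ : (X, m) ⟶ (Y, n)` and `Δ : (Y, n) ⟶ (Z, l)` is
`Δ ∘ Γ = p_{13 *}(p_12^* Γ · p_23^* Δ)`. -/
noncomputable def Hom.comp {M N P : CObj C} (f : Hom M N) (g : Hom N P) : Hom M P :=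
  ⟨C.comp f.val g.val, Hom.comp_mem f g⟩

lemma Hom.id_comp {M N : CObj C} (f : Hom M N) : (Hom.id M).comp f = f :=
  Hom.ext (dg_comp C f.val)

lemma Hom.comp_id {M N : CObj C} (f : Hom M N) : f.comp (Hom.id N) = f :=
  Hom.ext (comp_dg C f.val)

lemma Hom.assoc {M N P Q : CObj C} (f : Hom M N) (g : Hom N P) (h : Hom P Q) :
    (f.comp g).comp h = f.comp (g.comp h) := Hom.ext (comp_assoc C f.val g.val h.val)

lemma Hom.add_comp (M N P : CObj C) (f f' : Hom M N) (g : Hom N P) :
    (f + f').comp g = f.comp g + f'.comp g :=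
  Hom.ext (Pool.Agent.W550.Corr.add_comp C (Hom.val f) (Hom.val f') (Hom.val g))

lemma Hom.comp_add (M N P : CObj C) (f : Hom M N) (g g' : Hom N P) :
    f.comp (g + g') = f.comp g + f.comp g' :=
  Hom.ext (Pool.Agent.W550.Corr.comp_add C (Hom.val f) (Hom.val g) (Hom.val g'))

/-- The category of correspondences. -/
noncomputable instance : Category (CObj C) where
  Hom := Hom
  id := Hom.id
  comp := Hom.comp
  id_comp := Hom.id_comp
  comp_id := Hom.comp_id
  assoc := Hom.assoc

noncomputable instance : Preadditive (CObj C) where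
  homGroup := Hom.addCommGroup
  add_comp := Hom.add_comp
  comp_add := Hom.comp_add

end CObj

/-- The category of Chow motives with rational coefficients: the objects are the triples
`(X, p, m)` with `X` in the class `𝒱`, `m` an integer and `p` an idempotent in
`Corr^0(X, X) = CH^(dim X)(X × X)_ℚ`, and the morphisms from `(X, p, m)` to `(Y, q, n)` are the
elements `f` of `Corr^(n - m)(X, Y) = CH^(dim X + (n - m))(X × Y)_ℚ` with `f = q ∘ f ∘ p`. It is
the Karoubi envelope of the category of correspondences `CObj C`. -/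
abbrev CHMot (C : TheoryData.{u, v, 0} 𝒱 ℚ) [IsChowProj C] := Karoubi (CObj C)

/-- The preadditive category `D` is abelian: it has finite products, every morphism has a kernel
and a cokernel, and for every morphism the canonical map from the coimage to the image is an
isomorphism. -/
def IsAbelianCat (D : Type u) [Category.{v} D] [Preadditive D] : Prop :=
  HasFiniteProducts D ∧ ∃ (_ : HasKernels D) (_ : HasCokernels D),
    ∀ {X Y : D} (f : X ⟶ Y), IsIso (Abelian.coimageImageComparison f)

/-- A Weil cohomology theory in the sense of `IsWeilProj` whose values are finite-dimensional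
graded-commutative algebras over a field of characteristic zero. -/
class IsWeilFin {C : TheoryData.{u, v, 0} 𝒱 ℚ} {K : Type w} [Field K]
    (H : WeilTheoryData.{u, v, w} C K) : Prop extends IsWeilProj H where
  charZero : CharZero K
  finite : ∀ X : 𝒱.Obj, Module.Finite K (H.A X)
  comm : ∀ {X : 𝒱.Obj} {i j : ℤ} {a b : H.A X}, H.Deg i a → H.Deg j b →
    a * b = (-1 : K) ^ (i * j) • (b * a)

/-- The endomorphism `F` of the scheme `X` is the `q`-power Frobenius endomorphism: for every
commutative ring `R` on which `r ↦ r ^ q` is a ring endomorphism `φ` and every point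
`g : Spec R ⟶ X`, the point `F ∘ g` is `g ∘ Spec φ`. -/
def IsFrobenius (q : ℕ) {X : Scheme.{u}} (F : X ⟶ X) : Prop :=
  ∀ (R : CommRingCat.{u}) (φ : R →+* R), (∀ r, φ r = r ^ q) → ∀ g : Spec R ⟶ X,
    g ≫ F = Spec.map (CommRingCat.ofHom φ) ≫ g

/-- On the subspace `U` the operator `A` is annihilated by a nonzero polynomial with rational
coefficients all of whose complex roots have the square `w` of the absolute value. -/
def IsPure {K : Type w} [Field K] {V : Type*} [AddCommGroup V] [Module K V]
    (A : Module.End K V) (U : Submodule K V) (w : ℝ) : Prop :=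
  ∃ P : ℚ[X], P ≠ 0 ∧
    (∀ a ∈ U, ∑ i ∈ Finset.range (P.natDegree + 1), (P.coeff i : K) • (A ^ i) a = 0) ∧
    ∀ z : ℂ, aeval z P = 0 → ‖z‖ ^ 2 = w

variable {C : TheoryData.{u, v, 0} 𝒱 ℚ} {K : Type w} [Field K]

/-- The Frobenius `F^*` on the cohomology `H(X)` of an endomorphism `F`. -/
abbrev frobEnd (H : WeilTheoryData.{u, v, w} C K) {X : 𝒱.Obj} (F : X ⟶ X) :
    Module.End K (H.A X) := (H.pull F).toLinearMap

/-- The properties of the Frobenius endomorphisms `Fr X` of the varieties over the finite field `k`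
with `q` elements: `Fr X` is the `q`-power Frobenius endomorphism of `X`; it acts on `CH^i(X)` as
`q ^ i`; and the eigenvalues of the Frobenius on `H^i(X)` are algebraic numbers all of whose
conjugates have the absolute value `q ^ (i / 2)` (the theorem of Deligne). -/
structure IsFrobFamily (H : WeilTheoryData.{u, v, w} C K) (Fr : ∀ X : 𝒱.Obj, X ⟶ X) : Prop where
  frob : ∀ X : 𝒱.Obj, IsFrobenius (Nat.card k) (SmVar.Hom.hom (X := X.V) (Y := X.V) (Fr X))
  chow : ∀ (X : 𝒱.Obj) (i : ℤ) (a : C.A X), C.Deg i a →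
    C.up (Fr X) a = (Nat.card k : ℚ) ^ i • a
  weights : ∀ (X : 𝒱.Obj) (i : ℤ),
    IsPure (frobEnd H (Fr X)) (H.gr X i) ((Nat.card k : ℝ) ^ i)

/-- The multiplicity of the eigenvalue `q ^ i` of the Frobenius on the cohomology `H(X)`. By purity
this is its multiplicity on `H^(2i)(X)`, that is, the order of the pole of the zeta function
`ζ(X, s)` at `s = i`. -/
noncomputable def poleOrder (H : WeilTheoryData.{u, v, w} C K) (Fr : ∀ X : 𝒱.Obj, X ⟶ X)
    (X : 𝒱.Obj) (i : ℤ) : ℕ :=
  Module.finrank K ((frobEnd H (Fr X)).maxGenEigenspace ((Nat.card k : K) ^ i))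

/-- The vector space `CH^i(X)_ℚ` is finite-dimensional of dimension at most `n`. -/
def DimLE (C : TheoryData.{u, v, 0} 𝒱 ℚ) (X : 𝒱.Obj) (i : ℤ) (n : ℕ) : Prop :=
  ∀ (r : ℕ) (a : Fin r → C.A X), (∀ s, C.Deg i (a s)) → LinearIndependent ℚ a → r ≤ n

/-- The cycle class `a` in `CH^i(X)_ℚ` is numerically equivalent to zero: the intersection number
of `a` and `b` is zero for all `b` in `CH^(dim X - i)(X)_ℚ`. -/
def NumTriv (C : TheoryData.{u, v, 0} 𝒱 ℚ) [HasPoint 𝒱] (X : 𝒱.Obj) (i : ℤ) (a : C.A X) : Prop :=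
  C.Deg i a ∧ ∀ b, C.Deg (X.dim - i) b → C.down (toPt X) (C.mul a b) = 0

/-- The rank of the group of cycles of codimension `i` on `X` modulo numerical equivalence is at
least `n`: there are `n` classes in `CH^i(X)_ℚ` and `n` classes in `CH^(dim X - i)(X)_ℚ` which are
dual to each other under the intersection pairing. -/
def NumRankGE (C : TheoryData.{u, v, 0} 𝒱 ℚ) [HasPoint 𝒱] (X : 𝒱.Obj) (i : ℤ) (n : ℕ) : Prop :=
  ∃ a b : Fin n → C.A X, (∀ s, C.Deg i (a s)) ∧ (∀ s, C.Deg (X.dim - i) (b s)) ∧
    ∀ s t, C.down (toPt X) (C.mul (a s) (b t)) = if s = t then 1 else 0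

end Pool.Agent.D0H75.CM
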