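import Pool.Agent.D0H75.CM.Defs

/-!
# Hard Lefschetz: definitions
-/

set_option autoImplicit false

open CategoryTheory AlgebraicGeometry

universe u v w

namespace Pool.Agent.D0H75.CM

open Pool.Agent.H914 Pool.Agent.H914.VarClass Pool.Agent.H914.VarClass.Obj Pool.Agent.W492.BB
  Pool.Agent.W550.Corr Pool.Agent.TH133

variable {k : Type u} [Field k] {𝒱 : VarClass k} {C : TheoryData.{u, v, 0} 𝒱 ℚ}
  {K : Type w} [Field K]

/-- The multiplication by the `n`-th power of the class `l` on the cohomology of `X`. -/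
noncomputable def lefPow (H : WeilTheoryData.{u, v, w} C K) {X : 𝒱.Obj} (l : C.A X) (n : ℕ)
    (a : H.A X) : H.A X := H.mul (H.cl (l ^ n)) a

/-- The class `l` in `CH^1(X)_ℚ` satisfies the hard Lefschetz theorem: for all `i ≤ dim X` the
multiplication by the power `l ^ (dim X - i)` is a bijection from `H^i(X)` to
`H^(2 dim X - i)(X)`. (This holds for the class of an ample divisor.) -/
structure IsLef (H : WeilTheoryData.{u, v, w} C K) (X : 𝒱.Obj) (l : C.A X) : Prop where
  deg : C.Deg 1 l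
  inj : ∀ i : ℕ, i ≤ X.dim → ∀ a : H.A X, H.Deg i a → lefPow H l (X.dim - i) a = 0 → a = 0
  surj : ∀ i : ℕ, i ≤ X.dim → ∀ b : H.A X, H.Deg (2 * X.dim - i) b →
    ∃ a : H.A X, H.Deg i a ∧ lefPow H l (X.dim - i) a = b

/-- The correspondences `Γ` and `Δ` are inverse isomorphisms between the images of the idempotent
correspondences `p` of `X` and `q` of `Y`. -/
def InvIso (C : TheoryData.{u, v, 0} 𝒱 ℚ) {X Y : 𝒱.Obj} (p : C.A (X.prod X)) (q : C.A (Y.prod Y))
    (Γ : C.A (X.prod Y)) (Δ : C.A (Y.prod X)) : Prop :=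
  C.comp Γ Δ = p ∧ C.comp Δ Γ = q

/-- The correspondence `Λ` of degree `i - dim X` is inverse on the cohomology to the Lefschetz
isomorphism from `H^i(X)` to `H^(2 dim X - i)(X)` given by `l`. -/
def IsLefInv (H : WeilTheoryData.{u, v, w} C K) {X : 𝒱.Obj} (l : C.A X) (i : ℕ)
    (Λ : C.A (X.prod X)) : Prop :=
  C.Deg i Λ ∧ ∀ a : H.A X, H.Deg i a → H.act (H.cl Λ) (lefPow H l (X.dim - i) a) = a

end Pool.Agent.D0H75.CM
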