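import Pool.Agent.D0H75.CM.Defs

/-!
# Kimura finite-dimensionality: definitions
-/

set_option autoImplicit false

open CategoryTheory AlgebraicGeometry

universe u v w

namespace Pool.Agent.D0H75.CM

open Pool.Agent.H914 Pool.Agent.H914.VarClass Pool.Agent.H914.VarClass.Obj Pool.Agent.W492.BB
  Pool.Agent.W550.Corr Pool.Agent.TH133

variable {k : Type u} [Field k] {𝒱 : VarClass k} {C : TheoryData.{u, v, 0} 𝒱 ℚ}
  {K : Type w} [Field K]

/-- The part of the cohomology of `X` in the degrees `i` congruent to `e` modulo 2 has dimension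
less than `n`: any `n` homogeneous classes of such degrees are linearly dependent. -/
def ParDimLT (H : WeilTheoryData.{u, v, w} C K) (X : 𝒱.Obj) (e : ℤ) (n : ℕ) : Prop :=
  ∀ a : Fin n → H.A X, (∀ s, ∃ i, H.Deg (2 * i + e) (a s)) → ¬ LinearIndependent K a

/-- For all varieties `W` and morphisms `x_1, …, x_n, y_1, …, y_n` from `W` to `X` the sum
`∑_σ χ(σ) ∏_i (x_i, y_σ(i))^* p` in `CH(W)_ℚ` is zero, where `χ` is a character of the symmetric
group. For `W = X^n × X^n` and its projections this sum is `n!` times the idempotent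
correspondence which defines the `n`-th exterior power (if `χ` is the sign) or the `n`-th
symmetric power (if `χ` is trivial) of the Chow motive `(X, p, 0)`. -/
def PowZero (C : TheoryData.{u, v, 0} 𝒱 ℚ) {X : 𝒱.Obj} (p : C.A (X.prod X)) {n : ℕ}
    (χ : Equiv.Perm (Fin n) →* ℤˣ) : Prop :=
  ∀ (W : 𝒱.Obj) (x y : Fin n → (W ⟶ X)), ∑ σ : Equiv.Perm (Fin n),
    (χ σ : ℤ) • (List.ofFn fun i => C.up (Obj.lift (x i) (y (σ i))) p).prod = 0

/-- The self-correspondence `p` of degree zero of `X` is an idempotent which acts on the cohomology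
of `X` as the projector to the even part. -/
structure IsEvenProj (H : WeilTheoryData.{u, v, w} C K) (X : 𝒱.Obj) (p : C.A (X.prod X)) :
    Prop where
  deg : C.Deg X.dim p
  idem : C.comp p p = p
  act : ∀ (i : ℤ) (a : H.A X), H.Deg i a → H.act (H.cl p) a = if Even i then a else 0

end Pool.Agent.D0H75.CM
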