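import Pool.Agent.D0H75.CM.Kun

/-!
# The endomorphism rings of the objects of the category of correspondences
-/

set_option autoImplicit false
set_option linter.unusedSectionVars false
set_option linter.unusedVariables false

open CategoryTheory AlgebraicGeometry MonoidalCategory Idempotents Limits Polynomial

universe u v w

namespace Pool.Agent.D0H75.CM

open Pool.Agent.H914 Pool.Agent.H914.VarClass Pool.Agent.H914.VarClass.Obj Pool.Agent.W492.BB
  Pool.Agent.W550.Corr Pool.Agent.TH133

variable {k : Type u} [Field k] {𝒱 : VarClass k} {C : TheoryData.{u, v, 0} 𝒱 ℚ}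
  [hC : IsChowProj C] {K : Type w} [Field K] (H : WeilTheoryData.{u, v, w} C K)
  [hH : IsWeilFin H]

/-- The realisation on the endomorphism ring. -/
noncomputable def rho (M : CObj C) : End M →+* Module.End K (H.A M.X) where
  toFun f := hMap H f
  map_one' := hMap_id H M
  map_mul' f g := hMap_comp H g f
  map_zero' := by
    have := hMap_smul H (0 : ℚ) (0 : M ⟶ M)
    rw [zero_smul] at this
    rw [show (0 : End M) = (0 : M ⟶ M) from rfl, this]
    simp
  map_add' f g := hMap_add H f g

lemma rho_apply {M : CObj C} (f : M ⟶ M) : rho H M f = hMap H f := rfl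

lemma rho_aeval [CharZero K] {M : CObj C} (f : End M) (s : ℚ[X]) :
    rho H M (aeval f s) = ev (rho H M f) s := by
  rw [ev_eq, aeval_eq_sum_range, map_sum]
  apply Finset.sum_congr rfl
  intro i _
  rw [← map_pow]
  exact hMap_smul H (s.coeff i) (f ^ i : End M)

/-- The Frobenius endomorphism of `(X, m)`, without a twist. -/
noncomputable def frC (Fr : ∀ X : 𝒱.Obj, X ⟶ X) (M : CObj C) : End M :=
  (CObj.mkH (C.cograph (Fr M.X)) (by rw [sub_self, add_zero]; exact cograph_mem _) : M ⟶ M)

lemma rho_frC (Fr : ∀ X : 𝒱.Obj, X ⟶ X) (M : CObj C) :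
    rho H M (frC Fr M) = frobEnd H (Fr M.X) := by
  apply LinearMap.ext
  intro a
  change H.act (H.cl (C.cograph (Fr M.X))) a = H.pull (Fr M.X) a
  have h1 : H.cl (C.cograph (Fr M.X)) = H.cograph (Fr M.X) := by
    rw [TheoryData.cograph, TheoryData.cograph, H.cl_push, map_one]
  rw [h1, H.act_cograph]

variable [Finite k] [hP : HasPoint 𝒱] {Fr : ∀ X : 𝒱.Obj, X ⟶ X}

section

variable (h : IsFrobFamily H Fr) (hab : IsAbelianCat (CHMot C))
include h hab

lemma finite_end (M : CObj C) : Module.Finite ℚ (End M) := by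
  obtain ⟨h1, -⟩ := chow_finite h hab (M.X.prod M.X) (M.X.dim + (M.m - M.m))
  let L : (M ⟶ M) →ₗ[ℚ] C.gr (M.X.prod M.X) (M.X.dim + (M.m - M.m)) :=
    { toFun := fun f => ⟨CObj.val f, CObj.mem_val f⟩
      map_add' := fun f g => rfl
      map_smul' := fun q f => rfl }
  have hL : Function.Injective L := by
    intro f g hfg
    exact CObj.hom_ext (congrArg Subtype.val hfg)
  exact Module.Finite.of_injective L hL

lemma reflects (M : CObj C) (f : End M) (hf : IsUnit (rho H M f)) : IsUnit f := by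
  let P : CHMot C := ⟨M, 𝟙 _, Category.comp_id _⟩
  let f' : P ⟶ P := ⟨f, by
    change 𝟙 M ≫ (f : M ⟶ M) ≫ 𝟙 M = f
    rw [Category.id_comp, Category.comp_id]⟩
  obtain ⟨g, hg⟩ := hf
  have h1 : ∀ a, rho H M f ((↑g⁻¹ : Module.End K (H.A M.X)) a) = a := by
    intro a
    rw [← hg]
    exact LinearMap.congr_fun g.mul_inv a
  have h2 : ∀ a, (↑g⁻¹ : Module.End K (H.A M.X)) (rho H M f a) = a := by
    intro a
    rw [← hg]
    exact LinearMap.congr_fun g.inv_mul a
  have hid : ∀ a, hMap H (𝟙 M) a = a := fun a => LinearMap.congr_fun (hMap_id H M) a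
  have h3 : Function.Bijective (rMap H f') := by
    constructor
    · rintro ⟨a, ha⟩ ⟨b, hb⟩ hab'
      have h4 : rho H M f a = rho H M f b := congrArg Subtype.val hab'
      have h5 : a = b := by rw [← h2 a, h4, h2 b]
      exact Subtype.ext h5
    · rintro ⟨b, hb⟩
      refine ⟨⟨(↑g⁻¹ : Module.End K (H.A M.X)) b, ⟨_, hid _⟩⟩, Subtype.ext ?_⟩
      exact h1 b
  have h4 : IsIso f' := isIso_of_bij H h hab f' h3
  have h5 := congrArg Karoubi.Hom.f (IsIso.hom_inv_id f')
  have h6 := congrArg Karoubi.Hom.f (IsIso.inv_hom_id f')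
  exact ⟨⟨f, (inv f').f, h6, h5⟩, rfl⟩

/-- Endomorphisms with nilpotent realisation are nilpotent. -/
theorem nil_of_rho (M : CObj C) (f : End M) (hf : IsNilpotent (rho H M f)) : IsNilpotent f := by
  have := finite_end H h hab M
  exact nil_of_reflects (K := ℚ) (rho H M) (reflects H h hab M) f hf

/-- A product of powers of polynomials annihilating the Frobenius on the cohomology annihilates
the Frobenius endomorphism. -/
lemma exists_tot [CharZero K] (M : CObj C) (P : ℕ → ℚ[X])
    (hP1 : ∀ (i : ℕ), ∀ a ∈ H.gr M.X i, ev (frobEnd H (Fr M.X)) (P i) a = 0) :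
    ∃ N : ℕ, ∀ N', N ≤ N' →
      aeval (frC Fr M) (∏ i ∈ Finset.range (2 * M.X.dim + 1), P i ^ N') = 0 := by
  have h1 : rho H M (aeval (frC Fr M) (∏ i ∈ Finset.range (2 * M.X.dim + 1), P i)) = 0 := by
    rw [rho_aeval, rho_frC]
    apply LinearMap.ext
    intro a
    rw [LinearMap.zero_apply, ← prL_sum H M.X a, map_sum]
    apply Finset.sum_eq_zero
    intro i hi
    exact ev_prod _ _ P _ i hi (hP1 i _ (prL_mem H M.X i a))
  obtain ⟨N, hN⟩ := nil_of_rho H h hab M
    (aeval (frC Fr M) (∏ i ∈ Finset.range (2 * M.X.dim + 1), P i)) (by rw [h1]; exact IsNilpotent.zero)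
  refine ⟨N, fun N' hN' => ?_⟩
  rw [Finset.prod_pow, map_pow, ← Nat.sub_add_cancel hN', pow_add, hN, mul_zero]

end

end Pool.Agent.D0H75.CM
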