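import Pool.Agent.D0H75.CM.Pr

/-!
# If the category of Chow motives over a finite field is abelian, the Chow groups are
finite-dimensional
-/

set_option autoImplicit false
set_option linter.unusedSectionVars false
set_option linter.unusedVariables false

open CategoryTheory AlgebraicGeometry MonoidalCategory Idempotents Polynomial Limits

universe u v w

namespace Pool.Agent.D0H75.CM

open Pool.Agent.H914 Pool.Agent.H914.VarClass Pool.Agent.H914.VarClass.Obj Pool.Agent.W492.BB
  Pool.Agent.W550.Corr Pool.Agent.TH133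

/-- The abelian category structure. -/
@[implicit_reducible]
noncomputable def IsAbelianCat.abelian {D : Type u} [Category.{v} D] [Preadditive D]
    (h : IsAbelianCat D) : Abelian D :=
  haveI := h.1
  haveI := h.2.choose
  haveI := h.2.choose_spec.choose
  haveI : ∀ {X Y : D} (f : X ⟶ Y), IsIso (Abelian.coimageImageComparison f) :=
    h.2.choose_spec.choose_spec
  Abelian.ofCoimageImageComparisonIsIso

variable {k : Type u} [Field k] {𝒱 : VarClass k}

variable {C : TheoryData.{u, v, 0} 𝒱 ℚ} {K : Type w} [Field K]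

section

variable [Finite k] [hC : IsChowProj C] {H : WeilTheoryData.{u, v, w} C K}
  [hH : IsWeilFin H] {Fr : ∀ X : 𝒱.Obj, X ⟶ X}

/-- A generalised eigenvector of the Frobenius with the eigenvalue `q ^ m` is homogeneous of
degree `2 m`. -/
lemma gen_mem (h : IsFrobFamily H Fr) {X : 𝒱.Obj} (m : ℤ) {a : H.A X}
    (ha : a ∈ Module.End.maxGenEigenspace (H.pull (Fr X)).toLinearMap ((Nat.card k : K) ^ m)) :
    a ∈ H.gr X (2 * m) := by
  have hK := hH.charZero
  have hq : 1 < Nat.card k := Finite.one_lt_card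
  rw [Module.End.mem_maxGenEigenspace] at ha
  obtain ⟨n, hn⟩ := ha
  set A : Module.End K (H.A X) := (H.pull (Fr X)).toLinearMap -
    ((Nat.card k : K) ^ m) • (1 : Module.End K (H.A X)) with hA
  have hmem : ∀ (j : ℤ) (w : H.A X), w ∈ H.gr X j → A w ∈ H.gr X j := by
    intro j w hw
    exact Submodule.sub_mem _ (H.pull_mem (Fr X) hw) (Submodule.smul_mem _ _ hw)
  apply mem_of_prL H
  intro j hj
  have h1 : ∀ (n : ℕ) (w : H.A X), w ∈ H.gr X j → (A ^ n) w = 0 → w = 0 := by
    intro n
    induction n with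
    | zero =>
      intro w _ h0
      simpa using h0
    | succ n ih =>
      intro w hw h0
      rw [pow_succ, Module.End.mul_apply] at h0
      have h2 := ih _ (hmem j w hw) h0
      by_contra hne
      apply hj
      apply pure_eig (H.pull (Fr X)).toLinearMap (H.gr X j) hq j m (h.weights X j) w hw hne
      have h3 : (H.pull (Fr X)).toLinearMap w - (Nat.card k : K) ^ m • w = 0 := h2
      exact sub_eq_zero.1 h3
  apply h1 n _ (prL_mem H X j a)
  have h2 : ∀ (n : ℕ) (w : H.A X), (A ^ n) (prL H X j w) = prL H X j ((A ^ n) w) := by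
    intro n
    induction n with
    | zero => intro w; simp
    | succ n ih =>
      intro w
      rw [pow_succ, Module.End.mul_apply, Module.End.mul_apply]
      have h3 := prL_comm H A 0 (fun i a ha => by rw [add_zero]; exact hmem i a ha) j w
      rw [add_zero] at h3
      rw [← h3, ih]
  rw [h2, hn, map_zero]

variable [hP : HasPoint 𝒱]

/-- The motive `h(X)(i) = (X, Δ_X, i)`. -/
noncomputable def hmot (C : TheoryData.{u, v, 0} 𝒱 ℚ) [IsChowProj C] (X : 𝒱.Obj) (i : ℤ) :
    CHMot C := ⟨⟨X, i⟩, 𝟙 _, Category.comp_id _⟩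

/-- The multiplicity of the eigenvalue one on the realisation of `(X, p, i)` is at most the order
of the pole of the zeta function of `X` at `i`. -/
lemma rk_le (h : IsFrobFamily H Fr) (P : CHMot C) :
    mult (K := K) ((realisation h).H.map ((realisation h).φ P)).hom ≤
      poleOrder H Fr P.X.X P.X.m := by
  have hK := hH.charZero
  have hf := hH.finite P.X.X
  have hq : (Nat.card k : K) ≠ 0 := by
    have : 0 < Nat.card k := Nat.card_pos
    exact_mod_cast this.ne'
  set B : Module.End K (rObj H P) := rMap H (phiK h P) with hB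
  have hBv : ∀ v : rObj H P, (B v).1 = (Nat.card k : K) ^ (-P.X.m) • H.pull (Fr P.X.X) v.1 := by
    intro v
    change hMap H (P.p ≫ phi0 C Fr P.X) v.1 = _
    rw [hMap_comp, LinearMap.comp_apply, rObj_fix H v.2, hMap_phi0]
  set A : Module.End K (H.A P.X.X) := (H.pull (Fr P.X.X)).toLinearMap -
    ((Nat.card k : K) ^ P.X.m) • (1 : Module.End K (H.A P.X.X)) with hA
  have hpow : ∀ (n : ℕ) (v : rObj H P),
      (((B - (1 : K) • 1) ^ n) v).1 = ((Nat.card k : K) ^ (-P.X.m)) ^ n • (A ^ n) v.1 := by
    intro n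
    induction n with
    | zero =>
      intro v
      rw [pow_zero, pow_zero, pow_zero, one_smul]
      rfl
    | succ n ih =>
      intro v
      have h1 : ((B - (1 : K) • 1) v).1 = (B v).1 - v.1 := by
        rw [one_smul]
        rfl
      have h2 : ((B - (1 : K) • 1) v).1 = (Nat.card k : K) ^ (-P.X.m) • A v.1 := by
        rw [h1, hBv]
        change _ = (Nat.card k : K) ^ (-P.X.m) •
          (H.pull (Fr P.X.X) v.1 - (Nat.card k : K) ^ P.X.m • v.1)
        rw [smul_sub, smul_smul, ← zpow_add₀ hq, neg_add_cancel, zpow_zero, one_smul]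
      rw [pow_succ, Module.End.mul_apply, ih, pow_succ A, Module.End.mul_apply,
        pow_succ ((Nat.card k : K) ^ (-P.X.m)), mul_smul, h2, map_smul]
  have hmem : ∀ v : rObj H P, v ∈ B.maxGenEigenspace 1 →
      v.1 ∈ Module.End.maxGenEigenspace (H.pull (Fr P.X.X)).toLinearMap
        ((Nat.card k : K) ^ P.X.m) := by
    intro v hv
    rw [Module.End.mem_maxGenEigenspace] at hv ⊢
    obtain ⟨n, hn⟩ := hv
    refine ⟨n, ?_⟩
    have h2 := hpow n v
    rw [hn] at h2
    have h3 : ((Nat.card k : K) ^ (-P.X.m)) ^ n ≠ 0 := pow_ne_zero _ (zpow_ne_zero _ hq)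
    rcases smul_eq_zero.1 h2.symm with h4 | h4
    · exact absurd h4 h3
    · exact h4
  let L : B.maxGenEigenspace 1 →ₗ[K] ↥(Module.End.maxGenEigenspace
      (H.pull (Fr P.X.X)).toLinearMap ((Nat.card k : K) ^ P.X.m)) :=
    LinearMap.codRestrict _ ((rObj H P).subtype ∘ₗ (B.maxGenEigenspace 1).subtype)
      (fun v => hmem v.1 v.2)
  have hL : Function.Injective L := by
    intro v v' hvv
    have h1 := congrArg Subtype.val hvv
    exact Subtype.ext (Subtype.ext h1)
  exact LinearMap.finrank_le_finrank_of_injective hL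

omit [Finite k] in
include H hH in
lemma scalarUnit_CHMot : ScalarUnit (CHMot C) := by
  constructor
  · intro h0
    have h1 : (𝟙 (𝟙_ (CHMot C)) : 𝟙_ (CHMot C) ⟶ 𝟙_ (CHMot C)).f = 0 := by rw [h0]; rfl
    have h2 : dg C (pt 𝒱) = 0 := congrArg CObj.val h1
    rw [dg_pt] at h2
    exact one_ne_zero_chow (H := H) _ h2
  · intro e
    have h1 : CObj.val e.f ∈ C.gr ((pt 𝒱).prod (pt 𝒱)) 0 := CObj.mem_val e.f
    obtain ⟨q, hq⟩ := hC.gr_zero _ _ h1
    refine ⟨q, ?_⟩
    apply Karoubi.hom_ext
    apply CObj.hom_ext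
    rw [hq]
    change _ = q • dg C (pt 𝒱)
    rw [dg_pt]

/-- The map `CH^i(X) → Hom(𝟙, h(X)(i))`. -/
noncomputable def toHom (X : 𝒱.Obj) (i : ℤ) : C.gr X i →ₗ[ℚ] (𝟙_ (CHMot C) ⟶ hmot C X i) where
  toFun a := ⟨CObj.mkH (M := tOne C) (N := ⟨X, i⟩) (C.pull (snd (pt 𝒱) X) a.1) (by
      have h1 := C.pull_mem (snd (pt 𝒱) X) a.2
      have e : ((tOne C).X.dim : ℤ) + (i - (tOne C).m) = i := by
        change ((0 : ℕ) : ℤ) + (i - 0) = i
        push_cast
        ring
      rw [e]
      exact h1), by
    exact (Category.id_comp _).trans (Category.comp_id _)⟩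
  map_add' a b := by
    apply Karoubi.hom_ext
    apply CObj.hom_ext
    change C.pull (snd (pt 𝒱) X) (a.1 + b.1) = C.pull (snd (pt 𝒱) X) a.1 +
      C.pull (snd (pt 𝒱) X) b.1
    rw [map_add]
  map_smul' q a := by
    apply Karoubi.hom_ext
    apply CObj.hom_ext
    change C.pull (snd (pt 𝒱) X) (q • a.1) = q • C.pull (snd (pt 𝒱) X) a.1
    rw [map_smul]

omit [Finite k] in
lemma toHom_injective (X : 𝒱.Obj) (i : ℤ) : Function.Injective (toHom (C := C) X i) := by
  intro a b hab
  have h1 : C.pull (snd (pt 𝒱) X) a.1 = C.pull (snd (pt 𝒱) X) b.1 :=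
    congrArg (fun z : 𝟙_ (CHMot C) ⟶ hmot C X i => CObj.val z.f) hab
  have h2 := congrArg (C.push (snd (pt 𝒱) X)) h1
  rw [push_pull_iso C _ _ (unitL1 X) (unitL2 X), push_pull_iso C _ _ (unitL1 X) (unitL2 X)] at h2
  exact Subtype.ext h2

/-- If the category of Chow motives over a finite field is abelian, the Chow groups are
finite-dimensional, and their dimension is at most the order of the pole of the zeta function. -/
theorem chow_finite (h : IsFrobFamily H Fr) (hab : IsAbelianCat (CHMot C)) (X : 𝒱.Obj) (i : ℤ) :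
    Module.Finite ℚ (C.gr X i) ∧ Module.finrank ℚ (C.gr X i) ≤ poleOrder H Fr X i := by
  have hK := hH.charZero
  let _ := hab.abelian
  obtain ⟨h1, h2⟩ := finite_hom (C := CHMot C) (realisation h) (scalarUnit_CHMot (H := H)) _
    (hmot C X i) rfl
  refine ⟨Module.Finite.of_injective _ (toHom_injective X i), ?_⟩
  exact (LinearMap.finrank_le_finrank_of_injective (toHom_injective X i)).trans
    (h2.trans (rk_le h (hmot C X i)))

/-- The dimension bound in terms of linearly independent families. -/
theorem dimLE (h : IsFrobFamily H Fr) (hab : IsAbelianCat (CHMot C)) (X : 𝒱.Obj) (i : ℤ) :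
    DimLE C X i (poleOrder H Fr X i) := by
  obtain ⟨h1, h2⟩ := chow_finite h hab X i
  intro r a ha hli
  let b : Fin r → C.gr X i := fun s => ⟨a s, ha s⟩
  have hb : LinearIndependent ℚ b := by
    apply LinearIndependent.of_comp (C.gr X i).subtype
    exact hli
  have h3 := hb.fintype_card_le_finrank
  rw [Fintype.card_fin] at h3
  exact h3.trans h2

/-- If in addition the strong form of the Tate conjecture holds for `CH^i(X)`, rational and
numerical equivalence agree. -/
theorem num_eq (h : IsFrobFamily H Fr) (hab : IsAbelianCat (CHMot C)) (X : 𝒱.Obj) (i : ℤ)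
    (hT : NumRankGE C X i (poleOrder H Fr X i)) (a : C.A X) (ha : NumTriv C X i a) : a = 0 := by
  by_contra hne
  obtain ⟨x, y, hx, hy, hxy⟩ := hT
  have h0 : (1 : C.A (pt 𝒱)) ≠ 0 := one_ne_zero_chow (H := H) _
  have h1 := dimLE h hab X i (poleOrder H Fr X i + 1) (Fin.cons a x) (by
    intro s
    refine Fin.cases ?_ ?_ s
    · exact ha.1
    · intro j
      exact hx j) (by
    rw [Fintype.linearIndependent_iff]
    intro g hg
    rw [Fin.sum_univ_succ] at hg
    simp only [Fin.cons_zero, Fin.cons_succ] at hg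
    have h2 : ∀ t, g (Fin.succ t) = 0 := by
      intro t
      have h3 := congrArg (fun z => C.push (toPt X) (z * y t)) hg
      simp only [add_mul, Finset.sum_mul, smul_mul_assoc, map_add, map_sum, map_smul, zero_mul,
        map_zero] at h3
      have h4 : C.push (toPt X) (a * y t) = 0 := ha.2 (y t) (hy t)
      have h5 : ∀ s, C.push (toPt X) (x s * y t) = if s = t then 1 else 0 := fun s => hxy s t
      rw [h4, smul_zero, zero_add] at h3
      simp only [h5, smul_ite, smul_zero, Finset.sum_ite_eq', Finset.mem_univ, if_true] at h3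
      rcases smul_eq_zero.1 h3 with h6 | h6
      · exact h6
      · exact absurd h6 h0
    have h7 : g 0 = 0 := by
      simp only [h2, zero_smul, Finset.sum_const_zero, add_zero] at hg
      rcases smul_eq_zero.1 hg with h6 | h6
      · exact h6
      · exact absurd h6 hne
    intro s
    refine Fin.cases h7 h2 s)
  omega

end

end Pool.Agent.D0H75.CM
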