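import Pool.Agent.D0H75.CM.HFun

/-!
# The Frobenius endomorphism
-/

set_option autoImplicit false
set_option linter.unusedSectionVars false
set_option linter.unusedVariables false

open CategoryTheory AlgebraicGeometry MonoidalCategory Idempotents Polynomial

universe u v w

namespace Pool.Agent.D0H75.CM

open Pool.Agent.H914 Pool.Agent.H914.VarClass Pool.Agent.H914.VarClass.Obj Pool.Agent.W492.BB
  Pool.Agent.W550.Corr Pool.Agent.TH133

variable {k : Type u} [Field k]

/-- The `q`-power map on a `k`-algebra, where `k` is the field with `q` elements. -/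
lemma exists_pow_hom [Finite k] {R : CommRingCat.{u}} (f : Spec R ⟶ Spec (.of k)) :
    ∃ φ : R →+* R, ∀ r, φ r = r ^ Nat.card k := by
  let g : k →+* R := (Spec.preimage f).hom
  let _ : Algebra k R := g.toAlgebra
  have := Fintype.ofFinite k
  refine ⟨(FiniteField.frobeniusAlgHom k R).toRingHom, fun r => ?_⟩
  rw [Nat.card_eq_fintype_card]
  rfl

/-- The Frobenius endomorphisms are natural. -/
lemma frob_natural [Finite k] {X Y : Scheme.{u}} (s : X ⟶ Spec (.of k)) {F : X ⟶ X} {G : Y ⟶ Y}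
    (hF : IsFrobenius (Nat.card k) F) (hG : IsFrobenius (Nat.card k) G) (f : X ⟶ Y) :
    f ≫ G = F ≫ f := by
  apply Scheme.Cover.hom_ext X.affineCover
  intro i
  obtain ⟨φ, hφ⟩ := exists_pow_hom (X.affineCover.f i ≫ s)
  have h1 := hF _ φ hφ (X.affineCover.f i)
  have h2 := hG _ φ hφ (X.affineCover.f i ≫ f)
  have h3 := congrArg (fun z => z ≫ f) h1
  exact (Category.assoc _ _ _).symm.trans (h2.trans ((Category.assoc _ _ _).symm.trans
    (h3.symm.trans (Category.assoc _ _ _))))

variable {𝒱 : VarClass k} {C : TheoryData.{u, v, 0} 𝒱 ℚ} {K : Type w} [Field K]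

variable {H : WeilTheoryData.{u, v, w} C K} {Fr : ∀ X : 𝒱.Obj, X ⟶ X}

lemma IsFrobFamily.natural [Finite k] (h : IsFrobFamily H Fr) {X Y : 𝒱.Obj} (f : X ⟶ Y) :
    f ≫ Fr Y = Fr X ≫ f :=
  SmVar.Hom.ext (frob_natural X.V.str (h.frob X) (h.frob Y) (SmVar.Hom.hom f))

lemma IsFrobFamily.prod [Finite k] (h : IsFrobFamily H Fr) (X Y : 𝒱.Obj) :
    Fr (X.prod Y) = prodMap (Fr X) (Fr Y) := by
  apply prod_ext
  · rw [prodMap_fst, h.natural]
  · rw [prodMap_snd, h.natural]

end Pool.Agent.D0H75.CM
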