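import Pool.Agent.D0H75.CM.Defs

/-!
# Graphs and transposed graphs of morphisms
-/

set_option autoImplicit false
set_option linter.unusedSectionVars false

open CategoryTheory AlgebraicGeometry

universe u v w

namespace Pool.Agent.D0H75.CM

open Pool.Agent.H914 Pool.Agent.H914.VarClass Pool.Agent.H914.VarClass.Obj Pool.Agent.W492.BB
  Pool.Agent.W550.Corr Pool.Agent.TH133

variable {k : Type u} [Field k] {𝒱 : VarClass k}

section maps

variable {X Y Z W V : 𝒱.Obj}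

lemma prodMap_id : prodMap (𝟙 X) (𝟙 Y) = 𝟙 (X.prod Y) := by
  apply prod_ext <;> simp

lemma lift_eq {f : W ⟶ X} {g : W ⟶ Y} {h : W ⟶ X.prod Y} (h1 : h ≫ fst X Y = f)
    (h2 : h ≫ snd X Y = g) : h = Obj.lift f g := by
  apply prod_ext
  · rw [h1, lift_fst]
  · rw [h2, lift_snd]

end maps

section

variable {F : Type w} [Field F] {δ : ℤ} (T : TheoryData.{u, v, w} 𝒱 F) [hT : IsTheory T δ]
  {X Y Z W V : 𝒱.Obj}

include hT

/-- Composition with the graph on the left. -/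
lemma graph_comp (f : X ⟶ Y) (Δ : T.A (Y.prod Z)) :
    T.comp (T.graph f) Δ = T.pull (prodMap f (𝟙 Z)) Δ := by
  rw [TheoryData.comp, TheoryData.graph, T.base_fst, ← T.proj_left, ← T.push_comp, map_one,
    mul_one, ← T.pull_comp]
  have e1 : prodMap (Obj.lift (𝟙 X) f) (𝟙 Z) ≫ t13 X Y Z = 𝟙 _ := by
    apply prod_ext <;> simp [t13, prodMap]
  have e2 : prodMap (Obj.lift (𝟙 X) f) (𝟙 Z) ≫ t23 X Y Z = prodMap f (𝟙 Z) := by
    apply prod_ext <;> simp [t23, prodMap]
  rw [e1, e2, T.push_id]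

/-- Composition with the transposed graph on the left. -/
lemma cograph_comp (f : X ⟶ Y) (Δ : T.A (X.prod Z)) :
    T.comp (T.cograph f) Δ = T.push (prodMap f (𝟙 Z)) Δ := by
  rw [TheoryData.comp, TheoryData.cograph, T.base_fst, ← T.proj_left, ← T.push_comp, map_one,
    mul_one, ← T.pull_comp]
  have e1 : prodMap (Obj.lift f (𝟙 X)) (𝟙 Z) ≫ t13 Y X Z = prodMap f (𝟙 Z) := by
    apply prod_ext <;> simp [t13, prodMap]
  have e2 : prodMap (Obj.lift f (𝟙 X)) (𝟙 Z) ≫ t23 Y X Z = 𝟙 _ := by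
    apply prod_ext <;> simp [t23, prodMap]
  rw [e1, e2, T.pull_id]

variable [hI : HasIso T]

include hI

/-- Composition with the graph on the right. -/
lemma comp_graph (Γ : T.A (X.prod Y)) (f : Y ⟶ Z) :
    T.comp Γ (T.graph f) = T.push (prodMap (𝟙 X) f) Γ := by
  rw [comp_eq_extR, extR_graph]

/-- Composition with the transposed graph on the right. -/
lemma comp_cograph (Γ : T.A (X.prod Y)) (f : Z ⟶ Y) :
    T.comp Γ (T.cograph f) = T.pull (prodMap (𝟙 X) f) Γ := by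
  rw [comp_eq_extR, TheoryData.extR, TheoryData.cograph, T.base_snd, ← T.proj_right,
    ← T.push_comp, map_one, one_mul, ← T.pull_comp]
  have e1 : prodMap (𝟙 X) (Obj.lift f (𝟙 Z)) ≫ u12 X Y Z = prodMap (𝟙 X) f := by
    apply prod_ext <;> simp [u12, prodMap]
  have e2 : prodMap (𝟙 X) (Obj.lift f (𝟙 Z)) ≫ u13 X Y Z = 𝟙 _ := by
    apply prod_ext <;> simp [u13, prodMap]
  rw [e1, e2, T.push_id]

lemma graph_graph (f : X ⟶ Y) (g : Y ⟶ Z) :
    T.comp (T.graph f) (T.graph g) = T.graph (f ≫ g) := by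
  rw [comp_graph, TheoryData.graph, TheoryData.graph, ← T.push_comp]
  congr 1
  have e1 : Obj.lift (𝟙 X) f ≫ prodMap (𝟙 X) g = Obj.lift (𝟙 X) (f ≫ g) := by
    apply prod_ext <;> simp [prodMap, comp_lift]
  rw [e1]

lemma cograph_cograph (f : X ⟶ Y) (g : Y ⟶ Z) :
    T.comp (T.cograph g) (T.cograph f) = T.cograph (f ≫ g) := by
  rw [cograph_comp, TheoryData.cograph, TheoryData.cograph, ← T.push_comp]
  congr 1
  have e1 : Obj.lift f (𝟙 X) ≫ prodMap g (𝟙 X) = Obj.lift (f ≫ g) (𝟙 X) := by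
    apply prod_ext <;> simp [prodMap, comp_lift]
  rw [e1]

/-- The transposed graph is the pull-back of the diagonal. -/
lemma cograph_eq (f : X ⟶ Y) : T.cograph f = T.pull (prodMap (𝟙 Y) f) (dg T Y) := by
  rw [← comp_cograph, dg_comp]

lemma graph_eq (f : X ⟶ Y) : T.graph f = T.pull (prodMap f (𝟙 Y)) (dg T Y) := by
  rw [← graph_comp, comp_dg]

lemma graph_id (X : 𝒱.Obj) : T.graph (𝟙 X) = dg T X := rfl

lemma cograph_id (X : 𝒱.Obj) : T.cograph (𝟙 X) = dg T X := rfl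

/-- For isomorphisms the transposed graph is the graph of the inverse. -/
lemma cograph_iso (f : X ⟶ Y) (g : Y ⟶ X) (h1 : f ≫ g = 𝟙 X) (h2 : g ≫ f = 𝟙 Y) :
    T.cograph f = T.graph g := by
  have e1 : Obj.lift f (𝟙 X) = f ≫ Obj.lift (𝟙 Y) g := by
    rw [comp_lift, h1, Category.comp_id]
  have e2 : T.push f 1 = 1 := hI.push_one f g h1 h2
  rw [TheoryData.cograph, e1, T.push_comp, e2, TheoryData.graph]

lemma tens_graph (f : X ⟶ Y) (g : Z ⟶ W) :
    tens T (T.graph f) (T.graph g) = T.graph (prodMap f g) := by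
  rw [graph_eq, graph_eq, graph_eq T (prodMap f g), ← tens_dg, tens, tens, map_mul,
    ← T.pull_comp, ← T.pull_comp, ← T.pull_comp, ← T.pull_comp]
  have e1 : prodMap (fst X Z) (fst Y W) ≫ prodMap f (𝟙 Y) =
      prodMap (prodMap f g) (𝟙 (Y.prod W)) ≫ prodMap (fst Y W) (fst Y W) := by
    apply prod_ext <;> simp [prodMap]
  have e2 : prodMap (snd X Z) (snd Y W) ≫ prodMap g (𝟙 W) =
      prodMap (prodMap f g) (𝟙 (Y.prod W)) ≫ prodMap (snd Y W) (snd Y W) := by
    apply prod_ext <;> simp [prodMap]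
  rw [e1, e2]

lemma tens_cograph (f : X ⟶ Y) (g : Z ⟶ W) :
    tens T (T.cograph f) (T.cograph g) = T.cograph (prodMap f g) := by
  rw [cograph_eq, cograph_eq, cograph_eq T (prodMap f g), ← tens_dg, tens, tens, map_mul,
    ← T.pull_comp, ← T.pull_comp, ← T.pull_comp, ← T.pull_comp]
  have e1 : prodMap (fst Y W) (fst X Z) ≫ prodMap (𝟙 Y) f =
      prodMap (𝟙 (Y.prod W)) (prodMap f g) ≫ prodMap (fst Y W) (fst Y W) := by
    apply prod_ext <;> simp [prodMap]
  have e2 : prodMap (snd Y W) (snd X Z) ≫ prodMap (𝟙 W) g =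
      prodMap (𝟙 (Y.prod W)) (prodMap f g) ≫ prodMap (snd Y W) (snd Y W) := by
    apply prod_ext <;> simp [prodMap]
  rw [e1, e2]

end

end Pool.Agent.D0H75.CM
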