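import Pool.Agent.D0H75.CM.TrC

/-!
# The realisation functor
-/

set_option autoImplicit false
set_option linter.unusedSectionVars false
set_option linter.unusedVariables false

open CategoryTheory AlgebraicGeometry MonoidalCategory Idempotents

universe u v w

namespace Pool.Agent.D0H75.CM

open Pool.Agent.H914 Pool.Agent.H914.VarClass Pool.Agent.H914.VarClass.Obj Pool.Agent.W492.BB
  Pool.Agent.W550.Corr Pool.Agent.TH133

variable {k : Type u} [Field k] {𝒱 : VarClass k} {C : TheoryData.{u, v, 0} 𝒱 ℚ}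
  [hC : IsChowProj C] {K : Type w} [Field K] (H : WeilTheoryData.{u, v, w} C K)
  [hH : IsWeilFin H]

/-- The action of a correspondence on the cohomology. -/
noncomputable def hMap {M N : CObj C} (f : M ⟶ N) : H.A M.X →ₗ[K] H.A N.X :=
  H.actL (H.cl (CObj.val f))

lemma hMap_id (M : CObj C) : hMap H (𝟙 M) = LinearMap.id := by
  ext a
  exact actH_dg H a

lemma hMap_comp {M N P : CObj C} (f : M ⟶ N) (g : N ⟶ P) :
    hMap H (f ≫ g) = hMap H g ∘ₗ hMap H f := by
  ext a
  exact actH_comp H (CObj.val f) (CObj.val g) a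

lemma hMap_add {M N : CObj C} (f g : M ⟶ N) : hMap H (f + g) = hMap H f + hMap H g := by
  ext a
  change H.act (H.cl (CObj.val f + CObj.val g)) a = _
  rw [map_add, H.act_add]
  rfl

lemma hMap_smul {M N : CObj C} (q : ℚ) (f : M ⟶ N) : hMap H (q • f) = (q : K) • hMap H f := by
  ext a
  change H.act (H.cl (q • CObj.val f)) a = _
  rw [cl_smul', ← actB_apply, map_smul, LinearMap.smul_apply]
  rfl

lemma hMap_mem {M N : CObj C} (f : M ⟶ N) {i : ℤ} {a : H.A M.X} (ha : a ∈ H.gr M.X i) :
    hMap H f a ∈ H.gr N.X (i + 2 * (N.m - M.m)) :=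
  actH_mem H (CObj.mem_val f) ha

lemma hMap_par {M N : CObj C} (f : M ⟶ N) (a : H.A M.X) :
    parL H N.X (hMap H f a) = hMap H f (parL H M.X a) :=
  parL_comm H (hMap H f) (N.m - M.m) (fun i a ha => hMap_mem H f ha) a

/-- The realisation of the object `(X, p, m)`: the image of `p` on the cohomology of `X`. -/
noncomputable def rObj (P : Karoubi (CObj C)) : Submodule K (H.A P.X.X) :=
  LinearMap.range (hMap H P.p)

lemma rObj_fix {P : Karoubi (CObj C)} {x : H.A P.X.X} (hx : x ∈ rObj H P) :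
    hMap H P.p x = x := by
  obtain ⟨y, rfl⟩ := hx
  rw [← LinearMap.comp_apply, ← hMap_comp, P.idem]

lemma rMap_mem {P Q : Karoubi (CObj C)} (f : P ⟶ Q) (x : H.A P.X.X) :
    hMap H f.f x ∈ rObj H Q := by
  refine ⟨hMap H f.f x, ?_⟩
  rw [← LinearMap.comp_apply, ← hMap_comp, Karoubi.comp_p]

/-- The realisation of a morphism. -/
noncomputable def rMap {P Q : Karoubi (CObj C)} (f : P ⟶ Q) : rObj H P →ₗ[K] rObj H Q :=
  (hMap H f.f).restrict (fun x _ => rMap_mem H f x)

lemma par_mem {P : Karoubi (CObj C)} {x : H.A P.X.X} (hx : x ∈ rObj H P) :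
    parL H P.X.X x ∈ rObj H P := by
  refine ⟨parL H P.X.X x, ?_⟩
  rw [← hMap_par, rObj_fix H hx]

/-- The parity operator on the realisation. -/
noncomputable def rPar (P : Karoubi (CObj C)) : rObj H P →ₗ[K] rObj H P :=
  (parL H P.X.X).restrict (fun x hx => par_mem H hx)

/-- The realisation functor. -/
noncomputable def rFun : Karoubi (CObj C) ⥤ ModuleCat.{v} K where
  obj P := ModuleCat.of K (rObj H P)
  map f := ModuleCat.ofHom (rMap H f)
  map_id P := by
    apply ModuleCat.hom_ext
    apply LinearMap.ext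
    intro x
    exact Subtype.ext (rObj_fix H x.2)
  map_comp f g := by
    apply ModuleCat.hom_ext
    apply LinearMap.ext
    intro x
    apply Subtype.ext
    change hMap H (f.f ≫ g.f) x.1 = hMap H g.f (hMap H f.f x.1)
    rw [hMap_comp]
    rfl

lemma rFun_additive : (rFun H).Additive where
  map_add {P Q f g} := by
    apply ModuleCat.hom_ext
    apply LinearMap.ext
    intro x
    apply Subtype.ext
    change hMap H (f.f + g.f) x.1 = hMap H f.f x.1 + hMap H g.f x.1
    rw [hMap_add]
    rfl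

variable [hP : HasPoint 𝒱]

lemma rFun_trace (P : Karoubi (CObj C)) (a : P ⟶ P) (q : ℚ) (h : tr a = q • 𝟙 _) :
    LinearMap.trace K (rObj H P) (rPar H P ∘ₗ rMap H a) = (q : K) := by
  have hf := hH.finite P.X.X
  have h1 : tr a.f = q • 𝟙 (𝟙_ (CObj C)) := by
    rw [← kar_tr, h]
    rfl
  rw [← trace_corr H a.f q h1]
  have h2 : ∀ x, (parL H P.X.X ∘ₗ hMap H a.f) x ∈ rObj H P := fun x =>
    par_mem H (rMap_mem H a x)
  exact LinearMap.trace_restrict_eq_of_forall_mem (rObj H P) (parL H P.X.X ∘ₗ hMap H a.f) h2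

end Pool.Agent.D0H75.CM
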