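import Pool.Agent.D0H75.CM.KarRig

/-!
# Linear structures on the Karoubi envelope
-/

set_option autoImplicit false
set_option linter.unusedSectionVars false

open CategoryTheory MonoidalCategory Idempotents

namespace Pool.Agent.D0H75.CM

universe v u

section

variable {D : Type u} [Category.{v} D] [Preadditive D] [Linear ℚ D]

instance karSMul {P Q : Karoubi D} : SMul ℚ (P ⟶ Q) where
  smul q f := ⟨q • f.f, by rw [Linear.smul_comp, Linear.comp_smul, f.comm]⟩

lemma kar_smul_f {P Q : Karoubi D} (q : ℚ) (f : P ⟶ Q) : (q • f).f = q • f.f := rfl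
lemma kar_add_f {P Q : Karoubi D} (f g : P ⟶ Q) : (f + g).f = f.f + g.f := rfl
lemma kar_zero_f {P Q : Karoubi D} : (0 : P ⟶ Q).f = 0 := rfl

instance karModule {P Q : Karoubi D} : Module ℚ (P ⟶ Q) where
  one_smul f := by apply Karoubi.hom_ext; exact one_smul ℚ f.f
  mul_smul q r f := by apply Karoubi.hom_ext; exact mul_smul q r f.f
  smul_zero q := by apply Karoubi.hom_ext; exact smul_zero q
  smul_add q f g := by apply Karoubi.hom_ext; exact smul_add q f.f g.f
  add_smul q r f := by apply Karoubi.hom_ext; exact add_smul q r f.f
  zero_smul f := by apply Karoubi.hom_ext; exact zero_smul ℚ f.f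

instance karLinear : Linear ℚ (Karoubi D) where
  homModule P Q := karModule
  smul_comp P Q R r f g := by apply Karoubi.hom_ext; exact Linear.smul_comp _ _ _ _ _ _
  comp_smul P Q R f r g := by apply Karoubi.hom_ext; exact Linear.comp_smul _ _ _ _ _ _

end

section

variable {D : Type u} [Category.{v} D] [MonoidalCategory D] [Preadditive D]
  [MonoidalPreadditive D]

instance karMonPre : MonoidalPreadditive (Karoubi D) where
  whiskerLeft_zero := by
    intro X Y Z
    apply Karoubi.hom_ext
    exact MonoidalPreadditive.tensor_zero X.p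
  zero_whiskerRight := by
    intro X Y Z
    apply Karoubi.hom_ext
    exact MonoidalPreadditive.zero_tensor X.p
  whiskerLeft_add := by
    intro X Y Z f g
    apply Karoubi.hom_ext
    exact MonoidalPreadditive.tensor_add X.p f.f g.f
  add_whiskerRight := by
    intro X Y Z f g
    apply Karoubi.hom_ext
    exact MonoidalPreadditive.add_tensor f.f g.f X.p

end

end Pool.Agent.D0H75.CM
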