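import Mathlib

/-!
# The monoidal structure on the Karoubi envelope
-/

set_option autoImplicit false
set_option linter.unusedSectionVars false

open CategoryTheory MonoidalCategory Idempotents

namespace Pool.Agent.D0H75.CM

universe v u

section

variable {D : Type u} [Category.{v} D] [MonoidalCategory D]

lemma kt_comm {X X' Y Y' : D} {p : X ⟶ X} {p' : X' ⟶ X'} {q : Y ⟶ Y} {q' : Y' ⟶ Y'}
    {f : X ⟶ Y} {f' : X' ⟶ Y'} (h : p ≫ f ≫ q = f) (h' : p' ≫ f' ≫ q' = f') :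
    (p ⊗ₘ p') ≫ (f ⊗ₘ f') ≫ (q ⊗ₘ q') = f ⊗ₘ f' := by
  rw [tensorHom_comp_tensorHom, tensorHom_comp_tensorHom, h, h']

/-- The tensor product of objects of the Karoubi envelope. -/
def kTen (P Q : Karoubi D) : Karoubi D :=
  ⟨P.X ⊗ Q.X, P.p ⊗ₘ Q.p, by rw [tensorHom_comp_tensorHom, P.idem, Q.idem]⟩

/-- The tensor product of morphisms of the Karoubi envelope. -/
def kHom {P Q R S : Karoubi D} (f : P ⟶ Q) (g : R ⟶ S) : kTen P R ⟶ kTen Q S :=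
  ⟨f.f ⊗ₘ g.f, kt_comm f.comm g.comm⟩

/-- The unit of the Karoubi envelope. -/
def kOne : Karoubi D := ⟨𝟙_ D, 𝟙 _, by simp⟩

/-- The associator of the Karoubi envelope. -/
def kAssoc (P Q R : Karoubi D) : kTen (kTen P Q) R ≅ kTen P (kTen Q R) where
  hom := ⟨((P.p ⊗ₘ Q.p) ⊗ₘ R.p) ≫ (α_ P.X Q.X R.X).hom, by
    change ((P.p ⊗ₘ Q.p) ⊗ₘ R.p) ≫ (((P.p ⊗ₘ Q.p) ⊗ₘ R.p) ≫ (α_ P.X Q.X R.X).hom) ≫
      (P.p ⊗ₘ (Q.p ⊗ₘ R.p)) = ((P.p ⊗ₘ Q.p) ⊗ₘ R.p) ≫ (α_ P.X Q.X R.X).hom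
    rw [Category.assoc, ← associator_naturality]
    simp only [tensorHom_comp_tensorHom_assoc, tensorHom_comp_tensorHom, P.idem, Q.idem,
      R.idem]⟩
  inv := ⟨(P.p ⊗ₘ (Q.p ⊗ₘ R.p)) ≫ (α_ P.X Q.X R.X).inv, by
    change (P.p ⊗ₘ (Q.p ⊗ₘ R.p)) ≫ ((P.p ⊗ₘ (Q.p ⊗ₘ R.p)) ≫ (α_ P.X Q.X R.X).inv) ≫
      ((P.p ⊗ₘ Q.p) ⊗ₘ R.p) = (P.p ⊗ₘ (Q.p ⊗ₘ R.p)) ≫ (α_ P.X Q.X R.X).inv
    rw [Category.assoc, ← associator_inv_naturality]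
    simp only [tensorHom_comp_tensorHom_assoc, tensorHom_comp_tensorHom, P.idem, Q.idem,
      R.idem]⟩
  hom_inv_id := by
    apply Karoubi.hom_ext
    change (((P.p ⊗ₘ Q.p) ⊗ₘ R.p) ≫ (α_ P.X Q.X R.X).hom) ≫ (P.p ⊗ₘ (Q.p ⊗ₘ R.p)) ≫
      (α_ P.X Q.X R.X).inv = (P.p ⊗ₘ Q.p) ⊗ₘ R.p
    rw [Category.assoc, ← associator_naturality_assoc, Iso.hom_inv_id, Category.comp_id]
    simp only [tensorHom_comp_tensorHom, P.idem, Q.idem, R.idem]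
  inv_hom_id := by
    apply Karoubi.hom_ext
    change ((P.p ⊗ₘ (Q.p ⊗ₘ R.p)) ≫ (α_ P.X Q.X R.X).inv) ≫ ((P.p ⊗ₘ Q.p) ⊗ₘ R.p) ≫
      (α_ P.X Q.X R.X).hom = P.p ⊗ₘ (Q.p ⊗ₘ R.p)
    rw [Category.assoc, ← associator_inv_naturality_assoc, Iso.inv_hom_id, Category.comp_id]
    simp only [tensorHom_comp_tensorHom, P.idem, Q.idem, R.idem]

/-- The left unitor of the Karoubi envelope. -/
def kLeft (P : Karoubi D) : kTen kOne P ≅ P where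
  hom := ⟨(λ_ P.X).hom ≫ P.p, by
    change (𝟙 (𝟙_ D) ⊗ₘ P.p) ≫ ((λ_ P.X).hom ≫ P.p) ≫ P.p = (λ_ P.X).hom ≫ P.p
    simp⟩
  inv := ⟨P.p ≫ (λ_ P.X).inv, by
    change P.p ≫ (P.p ≫ (λ_ P.X).inv) ≫ (𝟙 (𝟙_ D) ⊗ₘ P.p) = P.p ≫ (λ_ P.X).inv
    simp⟩
  hom_inv_id := by
    apply Karoubi.hom_ext
    change ((λ_ P.X).hom ≫ P.p) ≫ P.p ≫ (λ_ P.X).inv = 𝟙 (𝟙_ D) ⊗ₘ P.p
    simp
  inv_hom_id := by
    apply Karoubi.hom_ext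
    change (P.p ≫ (λ_ P.X).inv) ≫ ((λ_ P.X).hom ≫ P.p) = P.p
    simp

/-- The right unitor of the Karoubi envelope. -/
def kRight (P : Karoubi D) : kTen P kOne ≅ P where
  hom := ⟨(ρ_ P.X).hom ≫ P.p, by
    change (P.p ⊗ₘ 𝟙 (𝟙_ D)) ≫ ((ρ_ P.X).hom ≫ P.p) ≫ P.p = (ρ_ P.X).hom ≫ P.p
    simp⟩
  inv := ⟨P.p ≫ (ρ_ P.X).inv, by
    change P.p ≫ (P.p ≫ (ρ_ P.X).inv) ≫ (P.p ⊗ₘ 𝟙 (𝟙_ D)) = P.p ≫ (ρ_ P.X).inv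
    simp⟩
  hom_inv_id := by
    apply Karoubi.hom_ext
    change ((ρ_ P.X).hom ≫ P.p) ≫ P.p ≫ (ρ_ P.X).inv = P.p ⊗ₘ 𝟙 (𝟙_ D)
    simp
  inv_hom_id := by
    apply Karoubi.hom_ext
    change (P.p ≫ (ρ_ P.X).inv) ≫ ((ρ_ P.X).hom ≫ P.p) = P.p
    simp

instance karStruct : MonoidalCategoryStruct (Karoubi D) where
  tensorObj := kTen
  whiskerLeft P _ _ f := kHom (𝟙 P) f
  whiskerRight f P := kHom f (𝟙 P)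
  tensorHom f g := kHom f g
  tensorUnit := kOne
  associator := kAssoc
  leftUnitor := kLeft
  rightUnitor := kRight

instance karMon : MonoidalCategory (Karoubi D) :=
  MonoidalCategory.ofTensorHom
    (id_tensorHom_id := fun P Q => rfl)
    (id_tensorHom := fun P _ _ f => rfl)
    (tensorHom_id := fun f P => rfl)
    (tensorHom_comp_tensorHom := fun f g h k => by
      apply Karoubi.hom_ext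
      change (f.f ⊗ₘ g.f) ≫ (h.f ⊗ₘ k.f) = (f.f ≫ h.f) ⊗ₘ (g.f ≫ k.f)
      rw [tensorHom_comp_tensorHom])
    (associator_naturality := fun {X₁ X₂ X₃ Y₁ Y₂ Y₃} f g h => by
      apply Karoubi.hom_ext
      change ((f.f ⊗ₘ g.f) ⊗ₘ h.f) ≫ ((Y₁.p ⊗ₘ Y₂.p) ⊗ₘ Y₃.p) ≫ (α_ Y₁.X Y₂.X Y₃.X).hom =
        (((X₁.p ⊗ₘ X₂.p) ⊗ₘ X₃.p) ≫ (α_ X₁.X X₂.X X₃.X).hom) ≫ (f.f ⊗ₘ (g.f ⊗ₘ h.f))
      rw [Category.assoc, ← associator_naturality]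
      simp only [tensorHom_comp_tensorHom_assoc, tensorHom_comp_tensorHom, Karoubi.comp_p,
        Karoubi.p_comp])
    (leftUnitor_naturality := fun {X Y} f => by
      apply Karoubi.hom_ext
      change (𝟙 (𝟙_ D) ⊗ₘ f.f) ≫ (λ_ Y.X).hom ≫ Y.p = ((λ_ X.X).hom ≫ X.p) ≫ f.f
      simp)
    (rightUnitor_naturality := fun {X Y} f => by
      apply Karoubi.hom_ext
      change (f.f ⊗ₘ 𝟙 (𝟙_ D)) ≫ (ρ_ Y.X).hom ≫ Y.p = ((ρ_ X.X).hom ≫ X.p) ≫ f.f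
      simp)
    (pentagon := fun W X Y Z => by
      apply Karoubi.hom_ext
      change ((((W.p ⊗ₘ X.p) ⊗ₘ Y.p) ≫ (α_ W.X X.X Y.X).hom) ⊗ₘ Z.p) ≫
        (((W.p ⊗ₘ (X.p ⊗ₘ Y.p)) ⊗ₘ Z.p) ≫ (α_ W.X (X.X ⊗ Y.X) Z.X).hom) ≫
        (W.p ⊗ₘ (((X.p ⊗ₘ Y.p) ⊗ₘ Z.p) ≫ (α_ X.X Y.X Z.X).hom)) =
        ((((W.p ⊗ₘ X.p) ⊗ₘ Y.p) ⊗ₘ Z.p) ≫ (α_ (W.X ⊗ X.X) Y.X Z.X).hom) ≫
        (((W.p ⊗ₘ X.p) ⊗ₘ (Y.p ⊗ₘ Z.p)) ≫ (α_ W.X X.X (Y.X ⊗ Z.X)).hom)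
      have e1 : ((((W.p ⊗ₘ X.p) ⊗ₘ Y.p) ≫ (α_ W.X X.X Y.X).hom) ⊗ₘ Z.p) =
          (((W.p ⊗ₘ X.p) ⊗ₘ Y.p) ⊗ₘ Z.p) ≫ ((α_ W.X X.X Y.X).hom ▷ Z.X) := by
        rw [← tensorHom_id, tensorHom_comp_tensorHom, Category.comp_id]
      have e2 : (W.p ⊗ₘ (((X.p ⊗ₘ Y.p) ⊗ₘ Z.p) ≫ (α_ X.X Y.X Z.X).hom)) =
          (W.p ⊗ₘ ((X.p ⊗ₘ Y.p) ⊗ₘ Z.p)) ≫ (W.X ◁ (α_ X.X Y.X Z.X).hom) := by
        rw [← id_tensorHom, tensorHom_comp_tensorHom, Category.comp_id]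
      have e3 : ((α_ W.X X.X Y.X).hom ▷ Z.X) ≫ ((W.p ⊗ₘ (X.p ⊗ₘ Y.p)) ⊗ₘ Z.p) =
          (((W.p ⊗ₘ X.p) ⊗ₘ Y.p) ⊗ₘ Z.p) ≫ ((α_ W.X X.X Y.X).hom ▷ Z.X) := by
        rw [← tensorHom_id, tensorHom_comp_tensorHom, tensorHom_comp_tensorHom,
          associator_naturality, Category.comp_id, Category.id_comp]
      have i1 : (((W.p ⊗ₘ X.p) ⊗ₘ Y.p) ⊗ₘ Z.p) ≫ (((W.p ⊗ₘ X.p) ⊗ₘ Y.p) ⊗ₘ Z.p) =
          (((W.p ⊗ₘ X.p) ⊗ₘ Y.p) ⊗ₘ Z.p) := by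
        simp only [tensorHom_comp_tensorHom, Karoubi.idem]
      rw [e1, e2]
      simp only [Category.assoc]
      rw [← associator_naturality_assoc, ← associator_naturality_assoc, reassoc_of% e3,
        reassoc_of% e3, pentagon, reassoc_of% i1, reassoc_of% i1])
    (triangle := fun X Y => by
      apply Karoubi.hom_ext
      change (((X.p ⊗ₘ 𝟙 (𝟙_ D)) ⊗ₘ Y.p) ≫ (α_ X.X (𝟙_ D) Y.X).hom) ≫
        (X.p ⊗ₘ ((λ_ Y.X).hom ≫ Y.p)) = ((ρ_ X.X).hom ≫ X.p) ⊗ₘ Y.p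
      have e1 : (X.p ⊗ₘ ((λ_ Y.X).hom ≫ Y.p)) = (X.X ◁ (λ_ Y.X).hom) ≫ (X.p ⊗ₘ Y.p) := by
        rw [← id_tensorHom, tensorHom_comp_tensorHom, Category.id_comp]
      have e2 : ((ρ_ X.X).hom ≫ X.p) ⊗ₘ Y.p = ((ρ_ X.X).hom ▷ Y.X) ≫ (X.p ⊗ₘ Y.p) := by
        rw [← tensorHom_id, tensorHom_comp_tensorHom, Category.id_comp]
      have e3 : ((X.p ⊗ₘ 𝟙 (𝟙_ D)) ⊗ₘ Y.p) ≫ ((ρ_ X.X).hom ▷ Y.X) =
          ((ρ_ X.X).hom ▷ Y.X) ≫ (X.p ⊗ₘ Y.p) := by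
        rw [← tensorHom_id, tensorHom_comp_tensorHom, tensorHom_comp_tensorHom,
          Category.comp_id, Category.id_comp]
        simp
      rw [e1, e2, Category.assoc, triangle_assoc, reassoc_of% e3, tensorHom_comp_tensorHom,
        X.idem, Y.idem])

lemma kar_tensorHom_f {P Q R S : Karoubi D} (f : P ⟶ Q) (g : R ⟶ S) :
    (f ⊗ₘ g).f = f.f ⊗ₘ g.f := rfl
lemma kar_whiskerLeft_f (P : Karoubi D) {R S : Karoubi D} (g : R ⟶ S) :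
    (P ◁ g).f = P.p ⊗ₘ g.f := rfl
lemma kar_whiskerRight_f {P Q : Karoubi D} (f : P ⟶ Q) (R : Karoubi D) :
    (f ▷ R).f = f.f ⊗ₘ R.p := rfl
lemma kar_assoc_hom (P Q R : Karoubi D) :
    (α_ P Q R).hom.f = ((P.p ⊗ₘ Q.p) ⊗ₘ R.p) ≫ (α_ P.X Q.X R.X).hom := rfl
lemma kar_assoc_inv (P Q R : Karoubi D) :
    (α_ P Q R).inv.f = (P.p ⊗ₘ (Q.p ⊗ₘ R.p)) ≫ (α_ P.X Q.X R.X).inv := rfl
lemma kar_left_hom (P : Karoubi D) : (λ_ P).hom.f = (λ_ P.X).hom ≫ P.p := rfl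
lemma kar_left_inv (P : Karoubi D) : (λ_ P).inv.f = P.p ≫ (λ_ P.X).inv := rfl
lemma kar_right_hom (P : Karoubi D) : (ρ_ P).hom.f = (ρ_ P.X).hom ≫ P.p := rfl
lemma kar_right_inv (P : Karoubi D) : (ρ_ P).inv.f = P.p ≫ (ρ_ P.X).inv := rfl

end

section

variable {D : Type u} [Category.{v} D] [MonoidalCategory D] [SymmetricCategory D]

/-- The braiding of the Karoubi envelope. -/
def kBraid (P Q : Karoubi D) : P ⊗ Q ≅ Q ⊗ P where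
  hom := ⟨(P.p ⊗ₘ Q.p) ≫ (β_ P.X Q.X).hom, by
    change (P.p ⊗ₘ Q.p) ≫ ((P.p ⊗ₘ Q.p) ≫ (β_ P.X Q.X).hom) ≫ (Q.p ⊗ₘ P.p) =
      (P.p ⊗ₘ Q.p) ≫ (β_ P.X Q.X).hom
    rw [Category.assoc, ← BraidedCategory.braiding_naturality]
    simp only [tensorHom_comp_tensorHom_assoc, P.idem, Q.idem]⟩
  inv := ⟨(Q.p ⊗ₘ P.p) ≫ (β_ Q.X P.X).hom, by
    change (Q.p ⊗ₘ P.p) ≫ ((Q.p ⊗ₘ P.p) ≫ (β_ Q.X P.X).hom) ≫ (P.p ⊗ₘ Q.p) =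
      (Q.p ⊗ₘ P.p) ≫ (β_ Q.X P.X).hom
    rw [Category.assoc, ← BraidedCategory.braiding_naturality]
    simp only [tensorHom_comp_tensorHom_assoc, P.idem, Q.idem]⟩
  hom_inv_id := by
    apply Karoubi.hom_ext
    change ((P.p ⊗ₘ Q.p) ≫ (β_ P.X Q.X).hom) ≫ (Q.p ⊗ₘ P.p) ≫ (β_ Q.X P.X).hom = P.p ⊗ₘ Q.p
    rw [Category.assoc, ← BraidedCategory.braiding_naturality_assoc, SymmetricCategory.symmetry,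
      Category.comp_id]
    simp only [tensorHom_comp_tensorHom, P.idem, Q.idem]
  inv_hom_id := by
    apply Karoubi.hom_ext
    change ((Q.p ⊗ₘ P.p) ≫ (β_ Q.X P.X).hom) ≫ (P.p ⊗ₘ Q.p) ≫ (β_ P.X Q.X).hom = Q.p ⊗ₘ P.p
    rw [Category.assoc, ← BraidedCategory.braiding_naturality_assoc, SymmetricCategory.symmetry,
      Category.comp_id]
    simp only [tensorHom_comp_tensorHom, P.idem, Q.idem]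

lemma whisker_tensor {X Y X' Y' : D} (f : X ⟶ X') (g : Y ⟶ Y') {Z : D} (h : Z ⟶ X) :
    (h ▷ Y) ≫ (f ⊗ₘ g) = (h ≫ f) ⊗ₘ g := by
  rw [← tensorHom_id, tensorHom_comp_tensorHom, Category.id_comp]

instance karSymm : SymmetricCategory (Karoubi D) where
  braiding := kBraid
  braiding_naturality_right X Y Z f := by
    apply Karoubi.hom_ext
    change (X.p ⊗ₘ f.f) ≫ (X.p ⊗ₘ Z.p) ≫ (β_ X.X Z.X).hom =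
      ((X.p ⊗ₘ Y.p) ≫ (β_ X.X Y.X).hom) ≫ (f.f ⊗ₘ X.p)
    rw [Category.assoc, ← BraidedCategory.braiding_naturality]
    simp only [tensorHom_comp_tensorHom_assoc, X.idem, Karoubi.comp_p, Karoubi.p_comp]
  braiding_naturality_left {X Y} f Z := by
    apply Karoubi.hom_ext
    change (f.f ⊗ₘ Z.p) ≫ (Y.p ⊗ₘ Z.p) ≫ (β_ Y.X Z.X).hom =
      ((X.p ⊗ₘ Z.p) ≫ (β_ X.X Z.X).hom) ≫ (Z.p ⊗ₘ f.f)
    rw [Category.assoc, ← BraidedCategory.braiding_naturality]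
    simp only [tensorHom_comp_tensorHom_assoc, Z.idem, Karoubi.comp_p, Karoubi.p_comp]
  hexagon_forward X Y Z := by
    apply Karoubi.hom_ext
    change (((X.p ⊗ₘ Y.p) ⊗ₘ Z.p) ≫ (α_ X.X Y.X Z.X).hom) ≫
      ((X.p ⊗ₘ (Y.p ⊗ₘ Z.p)) ≫ (β_ X.X (Y.X ⊗ Z.X)).hom) ≫
      (((Y.p ⊗ₘ Z.p) ⊗ₘ X.p) ≫ (α_ Y.X Z.X X.X).hom) =
      (((X.p ⊗ₘ Y.p) ≫ (β_ X.X Y.X).hom) ⊗ₘ Z.p) ≫
      (((Y.p ⊗ₘ X.p) ⊗ₘ Z.p) ≫ (α_ Y.X X.X Z.X).hom) ≫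
      (Y.p ⊗ₘ ((X.p ⊗ₘ Z.p) ≫ (β_ X.X Z.X).hom))
    have e1 : (((X.p ⊗ₘ Y.p) ≫ (β_ X.X Y.X).hom) ⊗ₘ Z.p) =
        ((X.p ⊗ₘ Y.p) ⊗ₘ Z.p) ≫ ((β_ X.X Y.X).hom ▷ Z.X) := by
      rw [← tensorHom_id, tensorHom_comp_tensorHom, Category.comp_id]
    have e2 : (Y.p ⊗ₘ ((X.p ⊗ₘ Z.p) ≫ (β_ X.X Z.X).hom)) =
        (Y.p ⊗ₘ (X.p ⊗ₘ Z.p)) ≫ (Y.X ◁ (β_ X.X Z.X).hom) := by
      rw [← id_tensorHom, tensorHom_comp_tensorHom, Category.comp_id]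
    have e3 : ((β_ X.X Y.X).hom ▷ Z.X) ≫ ((Y.p ⊗ₘ X.p) ⊗ₘ Z.p) =
        ((X.p ⊗ₘ Y.p) ⊗ₘ Z.p) ≫ ((β_ X.X Y.X).hom ▷ Z.X) := by
      rw [← tensorHom_id, tensorHom_comp_tensorHom, tensorHom_comp_tensorHom,
        BraidedCategory.braiding_naturality, Category.comp_id, Category.id_comp]
    have i1 : ((X.p ⊗ₘ Y.p) ⊗ₘ Z.p) ≫ ((X.p ⊗ₘ Y.p) ⊗ₘ Z.p) = ((X.p ⊗ₘ Y.p) ⊗ₘ Z.p) := by
      simp only [tensorHom_comp_tensorHom, Karoubi.idem]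
    rw [e1, e2]
    simp only [Category.assoc]
    rw [← BraidedCategory.braiding_naturality_assoc, ← associator_naturality_assoc,
      ← associator_naturality_assoc, ← associator_naturality_assoc, reassoc_of% e3,
      reassoc_of% e3, BraidedCategory.hexagon_forward, reassoc_of% i1, reassoc_of% i1]
  hexagon_reverse X Y Z := by
    apply Karoubi.hom_ext
    change ((X.p ⊗ₘ (Y.p ⊗ₘ Z.p)) ≫ (α_ X.X Y.X Z.X).inv) ≫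
      (((X.p ⊗ₘ Y.p) ⊗ₘ Z.p) ≫ (β_ (X.X ⊗ Y.X) Z.X).hom) ≫
      ((Z.p ⊗ₘ (X.p ⊗ₘ Y.p)) ≫ (α_ Z.X X.X Y.X).inv) =
      (X.p ⊗ₘ ((Y.p ⊗ₘ Z.p) ≫ (β_ Y.X Z.X).hom)) ≫
      ((X.p ⊗ₘ (Z.p ⊗ₘ Y.p)) ≫ (α_ X.X Z.X Y.X).inv) ≫
      (((X.p ⊗ₘ Z.p) ≫ (β_ X.X Z.X).hom) ⊗ₘ Y.p)
    have e1 : (((X.p ⊗ₘ Z.p) ≫ (β_ X.X Z.X).hom) ⊗ₘ Y.p) =
        ((X.p ⊗ₘ Z.p) ⊗ₘ Y.p) ≫ ((β_ X.X Z.X).hom ▷ Y.X) := by
      rw [← tensorHom_id, tensorHom_comp_tensorHom, Category.comp_id]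
    have e2 : (X.p ⊗ₘ ((Y.p ⊗ₘ Z.p) ≫ (β_ Y.X Z.X).hom)) =
        (X.p ⊗ₘ (Y.p ⊗ₘ Z.p)) ≫ (X.X ◁ (β_ Y.X Z.X).hom) := by
      rw [← id_tensorHom, tensorHom_comp_tensorHom, Category.comp_id]
    have e3 : (X.X ◁ (β_ Y.X Z.X).hom) ≫ (X.p ⊗ₘ (Z.p ⊗ₘ Y.p)) =
        (X.p ⊗ₘ (Y.p ⊗ₘ Z.p)) ≫ (X.X ◁ (β_ Y.X Z.X).hom) := by
      rw [← id_tensorHom, tensorHom_comp_tensorHom, tensorHom_comp_tensorHom,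
        BraidedCategory.braiding_naturality, Category.comp_id, Category.id_comp]
    have i1 : (X.p ⊗ₘ (Y.p ⊗ₘ Z.p)) ≫ (X.p ⊗ₘ (Y.p ⊗ₘ Z.p)) = (X.p ⊗ₘ (Y.p ⊗ₘ Z.p)) := by
      simp only [tensorHom_comp_tensorHom, Karoubi.idem]
    rw [e1, e2]
    simp only [Category.assoc]
    rw [← BraidedCategory.braiding_naturality_assoc, ← associator_inv_naturality_assoc,
      ← associator_inv_naturality_assoc, ← associator_inv_naturality_assoc, reassoc_of% e3,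
      reassoc_of% e3, BraidedCategory.hexagon_reverse, reassoc_of% i1, reassoc_of% i1]
  symmetry X Y := (kBraid X Y).hom_inv_id

lemma kar_braid_hom (P Q : Karoubi D) :
    (β_ P Q).hom.f = (P.p ⊗ₘ Q.p) ≫ (β_ P.X Q.X).hom := rfl

end

end Pool.Agent.D0H75.CM
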