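import Pool.Agent.D0H75.CM.KarMon

/-!
# Duals in the Karoubi envelope
-/

set_option autoImplicit false
set_option linter.unusedSectionVars false

open CategoryTheory MonoidalCategory Idempotents

namespace Pool.Agent.D0H75.CM

universe v u

section

variable {D : Type u} [Category.{v} D] [MonoidalCategory D] [RightRigidCategory D]

/-- The dual in the Karoubi envelope. -/
def kDual (P : Karoubi D) : Karoubi D :=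
  ⟨(P.X)ᘁ, rightAdjointMate P.p, by rw [← comp_rightAdjointMate, P.idem]⟩

lemma coev_mate {X : D} (p : X ⟶ X) (hp : p ≫ p = p) :
    η_ X Xᘁ ≫ (p ⊗ₘ rightAdjointMate p) = η_ X Xᘁ ≫ p ▷ Xᘁ := by
  have h := coevaluation_comp_rightAdjointMate p
  rw [MonoidalCategory.tensorHom_def', reassoc_of% h, ← comp_whiskerRight, hp]

lemma mate_ev {X : D} (p : X ⟶ X) (hp : p ≫ p = p) :
    (rightAdjointMate p ⊗ₘ p) ≫ ε_ X Xᘁ = Xᘁ ◁ p ≫ ε_ X Xᘁ := by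
  have h := rightAdjointMate_comp_evaluation p
  rw [MonoidalCategory.tensorHom_def', Category.assoc, h, ← MonoidalCategory.whiskerLeft_comp_assoc,
    hp]

/-- The duality pairing in the Karoubi envelope. -/
@[instance_reducible]
def kPair (P : Karoubi D) : ExactPairing P (kDual P) where
  coevaluation' := ⟨η_ P.X (P.X)ᘁ ≫ (P.p ⊗ₘ rightAdjointMate P.p), by
    change 𝟙 (𝟙_ D) ≫ (η_ P.X (P.X)ᘁ ≫ (P.p ⊗ₘ rightAdjointMate P.p)) ≫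
      (P.p ⊗ₘ rightAdjointMate P.p) = η_ P.X (P.X)ᘁ ≫ (P.p ⊗ₘ rightAdjointMate P.p)
    rw [Category.id_comp, Category.assoc, tensorHom_comp_tensorHom, P.idem,
      ← comp_rightAdjointMate, P.idem]⟩
  evaluation' := ⟨(rightAdjointMate P.p ⊗ₘ P.p) ≫ ε_ P.X (P.X)ᘁ, by
    change (rightAdjointMate P.p ⊗ₘ P.p) ≫ ((rightAdjointMate P.p ⊗ₘ P.p) ≫ ε_ P.X (P.X)ᘁ) ≫
      𝟙 (𝟙_ D) = (rightAdjointMate P.p ⊗ₘ P.p) ≫ ε_ P.X (P.X)ᘁ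
    rw [Category.comp_id, tensorHom_comp_tensorHom_assoc, P.idem,
      ← comp_rightAdjointMate, P.idem]⟩
  coevaluation_evaluation' := by
    apply Karoubi.hom_ext
    set p := P.p with hp
    set q := rightAdjointMate P.p with hq
    change (q ⊗ₘ (η_ P.X (P.X)ᘁ ≫ (p ⊗ₘ q))) ≫
      ((q ⊗ₘ (p ⊗ₘ q)) ≫ (α_ (P.X)ᘁ P.X (P.X)ᘁ).inv) ≫ (((q ⊗ₘ p) ≫ ε_ P.X (P.X)ᘁ) ⊗ₘ q) =
      ((ρ_ (P.X)ᘁ).hom ≫ q) ≫ (q ≫ (λ_ (P.X)ᘁ).inv)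
    have hqq : q ≫ q = q := by rw [hq, ← comp_rightAdjointMate, P.idem]
    have e1 : (q ⊗ₘ (η_ P.X (P.X)ᘁ ≫ (p ⊗ₘ q))) =
        ((P.X)ᘁ ◁ η_ P.X (P.X)ᘁ) ≫ (q ⊗ₘ (p ⊗ₘ q)) := by
      rw [← id_tensorHom, tensorHom_comp_tensorHom, Category.id_comp]
    have e2 : (((q ⊗ₘ p) ≫ ε_ P.X (P.X)ᘁ) ⊗ₘ q) =
        ((q ⊗ₘ p) ⊗ₘ q) ≫ (ε_ P.X (P.X)ᘁ ▷ (P.X)ᘁ) := by
      rw [← tensorHom_id, tensorHom_comp_tensorHom, Category.comp_id]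
    have i1 : (q ⊗ₘ (p ⊗ₘ q)) ≫ (q ⊗ₘ (p ⊗ₘ q)) = (q ⊗ₘ (p ⊗ₘ q)) := by
      simp only [tensorHom_comp_tensorHom, hqq, hp, P.idem]
    rw [e1, e2]
    simp only [Category.assoc]
    rw [← associator_inv_naturality_assoc, reassoc_of% i1, reassoc_of% i1,
      associator_inv_naturality_assoc, ← e2, mate_ev P.p P.idem]
    have e3 : ((P.X)ᘁ ◁ P.p ≫ ε_ P.X (P.X)ᘁ) ⊗ₘ q =
        (((P.X)ᘁ ◁ P.p) ▷ (P.X)ᘁ) ≫ (ε_ P.X (P.X)ᘁ ▷ (P.X)ᘁ) ≫ (𝟙_ D ◁ q) := by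
      rw [MonoidalCategory.tensorHom_def, comp_whiskerRight, Category.assoc]
    have e4 : ((P.X)ᘁ ◁ η_ P.X (P.X)ᘁ) ≫ (α_ (P.X)ᘁ P.X (P.X)ᘁ).inv ≫
        (((P.X)ᘁ ◁ P.p) ▷ (P.X)ᘁ) = ((P.X)ᘁ ◁ η_ P.X (P.X)ᘁ) ≫
        (α_ (P.X)ᘁ P.X (P.X)ᘁ).inv ≫ ((P.X)ᘁ ⊗ P.X) ◁ q := by
      have h := coevaluation_comp_rightAdjointMate P.p
      rw [← associator_inv_naturality_middle, ← MonoidalCategory.whiskerLeft_comp_assoc, ← h,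
        ← associator_inv_naturality_right, ← MonoidalCategory.whiskerLeft_comp_assoc]
    have h5 : (P.X)ᘁ ◁ η_ P.X (P.X)ᘁ ≫ (α_ _ _ _).inv ≫ ε_ P.X (P.X)ᘁ ▷ (P.X)ᘁ =
      (ρ_ (P.X)ᘁ).hom ≫ (λ_ (P.X)ᘁ).inv := ExactPairing.coevaluation_evaluation P.X (P.X)ᘁ
    rw [e3, reassoc_of% e4, whisker_exchange_assoc, reassoc_of% h5, id_whiskerLeft]
    simp only [Category.assoc, Iso.inv_hom_id_assoc]
  evaluation_coevaluation' := by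
    apply Karoubi.hom_ext
    set p := P.p with hp
    set q := rightAdjointMate P.p with hq
    change ((η_ P.X (P.X)ᘁ ≫ (p ⊗ₘ q)) ⊗ₘ p) ≫
      (((p ⊗ₘ q) ⊗ₘ p) ≫ (α_ P.X (P.X)ᘁ P.X).hom) ≫ (p ⊗ₘ ((q ⊗ₘ p) ≫ ε_ P.X (P.X)ᘁ)) =
      ((λ_ P.X).hom ≫ p) ≫ (p ≫ (ρ_ P.X).inv)
    have hqq : q ≫ q = q := by rw [hq, ← comp_rightAdjointMate, P.idem]
    have hpp : p ≫ p = p := P.idem
    have e1 : ((η_ P.X (P.X)ᘁ ≫ (p ⊗ₘ q)) ⊗ₘ p) =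
        (η_ P.X (P.X)ᘁ ▷ P.X) ≫ ((p ⊗ₘ q) ⊗ₘ p) := by
      rw [← tensorHom_id, tensorHom_comp_tensorHom, Category.id_comp]
    have e2 : (p ⊗ₘ ((q ⊗ₘ p) ≫ ε_ P.X (P.X)ᘁ)) =
        (p ⊗ₘ (q ⊗ₘ p)) ≫ (P.X ◁ ε_ P.X (P.X)ᘁ) := by
      rw [← id_tensorHom, tensorHom_comp_tensorHom, Category.comp_id]
    have i1 : ((p ⊗ₘ q) ⊗ₘ p) ≫ ((p ⊗ₘ q) ⊗ₘ p) = ((p ⊗ₘ q) ⊗ₘ p) := by
      simp only [tensorHom_comp_tensorHom, hqq, hpp]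
    rw [e1, e2]
    simp only [Category.assoc]
    rw [← associator_naturality_assoc, reassoc_of% i1, reassoc_of% i1,
      associator_naturality_assoc, ← e2, mate_ev P.p P.idem]
    have e3 : p ⊗ₘ ((P.X)ᘁ ◁ P.p ≫ ε_ P.X (P.X)ᘁ) =
        (P.X ◁ ((P.X)ᘁ ◁ P.p)) ≫ (P.X ◁ ε_ P.X (P.X)ᘁ) ≫ (p ▷ 𝟙_ D) := by
      rw [MonoidalCategory.tensorHom_def', MonoidalCategory.whiskerLeft_comp, Category.assoc]
    have h5 := ExactPairing.evaluation_coevaluation P.X (P.X)ᘁ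
    rw [e3, ← associator_naturality_right_assoc, ← whisker_exchange_assoc, reassoc_of% h5,
      MonoidalCategory.whiskerRight_id, id_whiskerLeft]
    simp only [Category.assoc, Iso.inv_hom_id_assoc]
    rfl

instance karRig : RightRigidCategory (Karoubi D) where
  rightDual P := { rightDual := kDual P, exact := kPair P }

end

end Pool.Agent.D0H75.CM
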