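import Pool.Agent.D0H75.CM.Bij

/-!
# Parity and the decomposition of classes
-/

set_option autoImplicit false
set_option linter.unusedSectionVars false
set_option linter.unusedVariables false

open CategoryTheory AlgebraicGeometry MonoidalCategory

universe u v w

namespace Pool.Agent.D0H75.CM

open Pool.Agent.H914 Pool.Agent.H914.VarClass Pool.Agent.H914.VarClass.Obj Pool.Agent.W492.BB
  Pool.Agent.W550.Corr Pool.Agent.TH133

/-! ### The combinatorial lemma -/

section comb

open Equiv

lemma comb_zero {R : Type*} [CommRing R] {ι : Type*} [Fintype ι] [DecidableEq ι] {n : ℕ}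
    (hn : Fintype.card ι < n) (χ : Perm (Fin n) →* ℤˣ) (w : ι → Fin n → Fin n → R)
    (hw : ∀ s i i' j j', i ≠ i' → w s i j * w s i' j' +
      ((χ (swap i i') : ℤˣ) : ℤ) • (w s i j' * w s i' j) = 0) :
    ∑ σ : Perm (Fin n), ((χ σ : ℤˣ) : ℤ) • ∏ i, ∑ s, w s i (σ i) = 0 := by
  have h1 : ∀ σ : Perm (Fin n), ∏ i, ∑ s, w s i (σ i) =
      ∑ f : Fin n → ι, ∏ i, w (f i) i (σ i) := by
    intro σ
    rw [Finset.prod_univ_sum, Fintype.piFinset_univ]
  simp_rw [h1, Finset.smul_sum]
  rw [Finset.sum_comm]
  apply Finset.sum_eq_zero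
  intro f _
  obtain ⟨a, b, hab, hf⟩ := Fintype.exists_ne_map_eq_of_card_lt f (by
    rw [Fintype.card_fin]; exact hn)
  have key : ∀ τ : Perm (Fin n), ∏ i, w (f i) i (τ i) =
      (w (f a) a (τ a) * w (f b) b (τ b)) *
        ∏ i ∈ (Finset.univ.erase a).erase b, w (f i) i (τ i) := by
    intro τ
    rw [← Finset.mul_prod_erase Finset.univ _ (Finset.mem_univ a),
      ← Finset.mul_prod_erase (Finset.univ.erase a) _
        (Finset.mem_erase.2 ⟨hab.symm, Finset.mem_univ b⟩), mul_assoc]
  refine Finset.sum_involution (fun σ _ => σ * swap a b) ?_ ?_ ?_ ?_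
  · intro σ _
    have h3 : ∏ i ∈ (Finset.univ.erase a).erase b, w (f i) i ((σ * swap a b) i) =
        ∏ i ∈ (Finset.univ.erase a).erase b, w (f i) i (σ i) := by
      apply Finset.prod_congr rfl
      intro i hi
      have hib : i ≠ b := Finset.ne_of_mem_erase hi
      have hia : i ≠ a := Finset.ne_of_mem_erase (Finset.mem_of_mem_erase hi)
      rw [Perm.mul_apply, swap_apply_of_ne_of_ne hia hib]
    have e1 : (σ * swap a b) a = σ b := by rw [Perm.mul_apply, swap_apply_left]
    have e2 : (σ * swap a b) b = σ a := by rw [Perm.mul_apply, swap_apply_right]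
    rw [key σ, key (σ * swap a b), h3, e1, e2, map_mul, Units.val_mul, mul_smul, ← smul_add]
    rw [← smul_mul_assoc, ← add_mul, ← hf]
    rw [hw (f a) a b (σ a) (σ b) hab, zero_mul, smul_zero]
  · intro σ _ _ h
    apply hab
    have h4 : swap a b = 1 := by
      have := mul_left_cancel (a := σ) (b := swap a b) (c := 1) (by rw [h, mul_one])
      exact this
    have h5 := congrArg (fun τ : Perm (Fin n) => τ a) h4
    simp only [swap_apply_left, Perm.one_apply] at h5
    exact h5.symm
  · intro σ _
    exact Finset.mem_univ _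
  · intro σ _
    rw [mul_assoc, swap_mul_self, mul_one]

end comb

variable {k : Type u} [Field k] {𝒱 : VarClass k} {C : TheoryData.{u, v, 0} 𝒱 ℚ}
  [hC : IsChowProj C] {K : Type w} [Field K] (H : WeilTheoryData.{u, v, w} C K)
  [hH : IsWeilFin H]

include hC hH

/-! ### Even and odd classes -/

lemma two_mul_comm (X : 𝒱.Obj) (a b : H.A X) : (2 : K) • (a * b) =
    b * a + parL H X b * a + b * parL H X a - parL H X b * parL H X a := by
  have h1 : ∀ j, ∀ b ∈ H.gr X j, ∀ a : H.A X, (2 : K) • (a * b) =
      b * a + parL H X b * a + b * parL H X a - parL H X b * parL H X a := by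
    intro j b hb a
    have h2 : (2 : K) • LinearMap.mulRight K b =
        LinearMap.mulLeft K b + LinearMap.mulLeft K (parL H X b) +
          LinearMap.mulLeft K b ∘ₗ parL H X - LinearMap.mulLeft K (parL H X b) ∘ₗ parL H X := by
      apply ext_gr H
      intro i a ha
      simp only [LinearMap.smul_apply, LinearMap.mulRight_apply, LinearMap.sub_apply,
        LinearMap.add_apply, LinearMap.mulLeft_apply, LinearMap.comp_apply]
      rw [parL_apply H ha, parL_apply H hb, hH.comm ha hb, smul_smul, smul_mul_assoc,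
        mul_smul_comm, mul_smul_comm, smul_mul_assoc, smul_smul]
      have h3 : (2 : K) * (-1) ^ (i * j) = 1 + (-1) ^ j + (-1) ^ i - (-1) ^ i * (-1) ^ j := by
        rcases Int.even_or_odd i with hi | hi <;> rcases Int.even_or_odd j with hj | hj
        · rw [(hi.mul_right j).neg_one_zpow, hi.neg_one_zpow, hj.neg_one_zpow]; ring
        · rw [(hi.mul_right j).neg_one_zpow, hi.neg_one_zpow, hj.neg_one_zpow]; ring
        · rw [(hj.mul_left i).neg_one_zpow, hi.neg_one_zpow, hj.neg_one_zpow]; ring
        · rw [(hi.mul hj).neg_one_zpow, hi.neg_one_zpow, hj.neg_one_zpow]; ring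
      rw [h3, sub_smul, add_smul, add_smul, one_smul]
    exact LinearMap.congr_fun h2 a
  have h4 : (2 : K) • LinearMap.mulLeft K a =
      LinearMap.mulRight K a + LinearMap.mulRight K a ∘ₗ parL H X +
        LinearMap.mulRight K (parL H X a) -
          LinearMap.mulRight K (parL H X a) ∘ₗ parL H X := by
    apply ext_gr H
    intro j b hb
    simp only [LinearMap.smul_apply, LinearMap.mulRight_apply, LinearMap.sub_apply,
      LinearMap.add_apply, LinearMap.mulLeft_apply, LinearMap.comp_apply]
    exact h1 j b hb a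
  exact LinearMap.congr_fun h4 b

lemma two_ne : (2 : K) ≠ 0 := by
  have := hH.charZero
  exact two_ne_zero

/-- Even classes are central. -/
lemma even_comm {X : 𝒱.Obj} {a : H.A X} (ha : parL H X a = a) (b : H.A X) : a * b = b * a := by
  have h := two_mul_comm H X a b
  rw [ha] at h
  have h2 : (2 : K) • (a * b) = (2 : K) • (b * a) := by
    rw [h, two_smul]; abel
  exact smul_right_injective _ (two_ne H) h2

/-- Odd classes anticommute. -/
lemma odd_comm {X : 𝒱.Obj} {a b : H.A X} (ha : parL H X a = -a) (hb : parL H X b = -b) :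
    a * b = -(b * a) := by
  have h := two_mul_comm H X a b
  rw [ha, hb] at h
  have h2 : (2 : K) • (a * b) = (2 : K) • (-(b * a)) := by
    rw [h, two_smul]
    simp only [neg_mul, mul_neg, neg_neg]
    abel
  exact smul_right_injective _ (two_ne H) h2

lemma parL_mul (X : 𝒱.Obj) (a b : H.A X) : parL H X (a * b) = parL H X a * parL H X b := by
  have h1 : ∀ i, ∀ a ∈ H.gr X i, ∀ b : H.A X, parL H X (a * b) = parL H X a * parL H X b := by
    intro i a ha b
    have h2 : parL H X ∘ₗ LinearMap.mulLeft K a = LinearMap.mulLeft K (parL H X a) ∘ₗ parL H X := by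
      apply ext_gr H
      intro j b hb
      simp only [LinearMap.comp_apply, LinearMap.mulLeft_apply]
      rw [parL_apply H ha, parL_apply H hb, parL_apply H (H.mul_mem ha hb),
        zpow_add₀ (by norm_num), smul_mul_smul_comm]
    exact LinearMap.congr_fun h2 b
  have h3 : parL H X ∘ₗ LinearMap.mulRight K b =
      LinearMap.mulRight K (parL H X b) ∘ₗ parL H X := by
    apply ext_gr H
    intro i a ha
    simp only [LinearMap.comp_apply, LinearMap.mulRight_apply]
    exact h1 i a ha b
  exact LinearMap.congr_fun h3 a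

lemma parL_pull {X Y : 𝒱.Obj} (f : X ⟶ Y) (a : H.A Y) :
    parL H X (H.pull f a) = H.pull f (parL H Y a) := by
  have := parL_comm H (X := Y) (Y := X) (H.pull f).toLinearMap 0 (by
    intro i a ha
    rw [mul_zero, add_zero]
    exact H.pull_mem f ha) a
  exact this

lemma tr_par (X : 𝒱.Obj) (a : H.A X) : H.tr X (parL H X a) = H.tr X a := by
  have h : H.tr X ∘ₗ parL H X = H.tr X := by
    apply ext_gr H
    intro i a ha
    rw [LinearMap.comp_apply, parL_apply H ha, map_smul]
    by_cases hi : i = 2 * X.dim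
    · have he : Even i := by rw [hi]; exact even_two_mul _
      rw [he.neg_one_zpow, one_smul]
    · rw [tr_zero H ha hi, smul_zero]
  exact LinearMap.congr_fun h a

/-- The class of a projector to a part of the cohomology of parity `e = ± 1`. -/
lemma exists_dec [hP : HasPoint 𝒱] {X : 𝒱.Obj} (c : H.A (X.prod X)) (V : Submodule K (H.A X))
    (e : K) (he : e * e = 1)
    (hV : ∀ x, H.act c x ∈ V) (hVe : ∀ x ∈ V, parL H X x = e • x)
    (hc : ∀ x, parL H X x = -(e • x) → H.act c x = 0) :
    ∃ a b : Fin (Module.finrank K V) → H.A X, (∀ s, parL H X (a s) = e • a s) ∧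
      (∀ s, parL H X (b s) = e • b s) ∧
      c = ∑ s, H.pull (snd X X) (b s) * H.pull (fst X X) (a s) := by
  have hf := hH.finite X
  let B : Module.Basis (Fin (Module.finrank K V)) K V := Module.finBasis K V
  let A : H.A X →ₗ[K] V := (H.actL c).codRestrict V hV
  let φ : Fin (Module.finrank K V) → (H.A X →ₗ[K] K) := fun s => B.coord s ∘ₗ A
  choose a0 ha0 using fun s => exists_form H (φ s)
  have ht := tr_pt_ne_zero H
  have hpar : ∀ s, parL H X (a0 s) = e • a0 s := by
    intro s
    rw [← sub_eq_zero]
    apply H.nondeg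
    intro x
    rw [sub_mul, map_sub, smul_mul_assoc, map_smul]
    have h1 : H.tr X (parL H X (a0 s) * x) = H.tr X (a0 s * parL H X x) := by
      rw [← tr_par H X (parL H X (a0 s) * x), parL_mul, parL_sq]
    rw [h1, ← ha0, ← ha0, ← map_smul, ← map_sub]
    have h2 : A (parL H X x - e • x) = 0 := by
      apply Subtype.ext
      apply hc
      rw [map_sub, parL_sq, map_smul, smul_sub, smul_smul, he, one_smul]
      abel
    change B.coord s (A _) = 0
    rw [h2, map_zero]
  refine ⟨fun s => H.tr (pt 𝒱) (1 : H.A (pt 𝒱)) • a0 s, fun s => (B s : H.A X), ?_, ?_, ?_⟩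
  · intro s
    rw [map_smul, hpar, smul_comm]
  · intro s
    exact hVe _ (B s).2
  · rw [← sub_eq_zero]
    apply eq_zero_of_act
    intro x
    rw [H.act_sub]
    have h3 : H.act (∑ s, H.pull (snd X X) (B s : H.A X) *
        H.pull (fst X X) (H.tr (pt 𝒱) (1 : H.A (pt 𝒱)) • a0 s)) x =
        ∑ s, φ s x • (B s : H.A X) := by
      rw [act_sum]
      apply Finset.sum_congr rfl
      intro s _
      rw [act_dec, ha0, eps, LinearMap.smul_apply, smul_mul_assoc, map_smul, smul_eq_mul,
        smul_eq_mul, ← mul_assoc, inv_mul_cancel₀ ht, one_mul]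
    rw [h3, sub_eq_zero]
    have h4 : (A x : H.A X) = ((∑ s, B.coord s (A x) • B s : V) : H.A X) := by
      congr 1
      exact (B.sum_repr (A x)).symm
    have h5 : H.act c x = (A x : H.A X) := rfl
    rw [h5, h4, Submodule.coe_sum]
    rfl

end Pool.Agent.D0H75.CM
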