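import Pool.Agent.D0H75.CM.Kim1

/-!
# Vanishing of exterior and symmetric powers in cohomology
-/

set_option autoImplicit false
set_option linter.unusedSectionVars false
set_option linter.unusedVariables false

open CategoryTheory AlgebraicGeometry MonoidalCategory Equiv

universe u v w

namespace Pool.Agent.D0H75.CM

open Pool.Agent.H914 Pool.Agent.H914.VarClass Pool.Agent.H914.VarClass.Obj Pool.Agent.W492.BB
  Pool.Agent.W550.Corr Pool.Agent.TH133

variable {k : Type u} [Field k] {𝒱 : VarClass k}

/-- The sum of the products of the classes `(x_i, y_σ(i))^* p` over the permutations `σ`, with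
the character `χ`. -/
noncomputable def chiSum {F : Type w} [Field F] (T : TheoryData.{u, v, w} 𝒱 F) {n : ℕ}
    (χ : Perm (Fin n) →* ℤˣ) {X W : 𝒱.Obj} (p : T.A (X.prod X)) (x y : Fin n → (W ⟶ X)) : T.A W :=
  ∑ σ : Perm (Fin n), ((χ σ : ℤˣ) : ℤ) • (List.ofFn fun i =>
    T.up (Obj.lift (x i) (y (σ i))) p).prod

variable {C : TheoryData.{u, v, 0} 𝒱 ℚ}
  [hC : IsChowProj C] {K : Type w} [Field K] (H : WeilTheoryData.{u, v, w} C K)
  [hH : IsWeilFin H]

include hC hH

lemma par_comm {X : 𝒱.Obj} {e : K} (he : e = 1 ∨ e = -1) {a b : H.A X}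
    (ha : parL H X a = e • a) (hb : parL H X b = e • b) : a * b = e • (b * a) := by
  rcases he with rfl | rfl
  · rw [one_smul] at *
    exact even_comm H ha b
  · rw [neg_smul, one_smul] at *
    exact odd_comm H ha hb

lemma chiSum_coh [hP : HasPoint 𝒱] {X : 𝒱.Obj} (c : H.A (X.prod X)) (V : Submodule K (H.A X))
    (e : K) (he : e = 1 ∨ e = -1)
    (hV : ∀ x, H.act c x ∈ V) (hVe : ∀ x ∈ V, parL H X x = e • x)
    (hc : ∀ x, parL H X x = -(e • x) → H.act c x = 0) {n : ℕ} (hn : Module.finrank K V < n)
    (χ : Perm (Fin n) →* ℤˣ)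
    (hχ : ∀ i i' : Fin n, i ≠ i' → (((χ (swap i i') : ℤˣ) : ℤ) : K) = -e)
    {W : 𝒱.Obj} (x y : Fin n → (W ⟶ X)) : chiSum H.toTheoryData χ c x y = 0 := by
  have hee : e * e = 1 := by rcases he with rfl | rfl <;> ring
  obtain ⟨a, b, ha, hb, hab⟩ := exists_dec H c V e hee hV hVe hc
  have hpa : ∀ s i, parL H W (H.pull (x i) (a s)) = e • H.pull (x i) (a s) := by
    intro s i
    rw [parL_pull, ha, map_smul]
  have hpb : ∀ s i, parL H W (H.pull (y i) (b s)) = e • H.pull (y i) (b s) := by
    intro s i
    rw [parL_pull, hb, map_smul]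
  have hcen : ∀ s i j, H.pull (y j) (b s) * H.pull (x i) (a s) ∈ Subring.center (H.A W) := by
    intro s i j
    rw [Subring.mem_center_iff]
    intro g
    symm
    apply even_comm H
    rw [parL_mul, hpa, hpb, smul_mul_smul_comm, hee, one_smul]
  let w : Fin (Module.finrank K V) → Fin n → Fin n → Subring.center (H.A W) :=
    fun s i j => ⟨_, hcen s i j⟩
  have hw : ∀ s i i' j j', i ≠ i' → w s i j * w s i' j' +
      ((χ (swap i i') : ℤˣ) : ℤ) • (w s i j' * w s i' j) = 0 := by
    intro s i i' j j' hii
    apply Subtype.ext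
    change H.pull (y j) (b s) * H.pull (x i) (a s) * (H.pull (y j') (b s) * H.pull (x i') (a s)) +
      ((χ (swap i i') : ℤˣ) : ℤ) • (H.pull (y j') (b s) * H.pull (x i) (a s) *
        (H.pull (y j) (b s) * H.pull (x i') (a s))) = 0
    rw [← Int.cast_smul_eq_zsmul K, hχ i i' hii]
    have h1 : H.pull (y j) (b s) * H.pull (x i) (a s) *
        (H.pull (y j') (b s) * H.pull (x i') (a s)) =
        e • (H.pull (y j') (b s) * H.pull (x i) (a s) *
        (H.pull (y j) (b s) * H.pull (x i') (a s))) := by
      have c1 := par_comm H he (hpa s i) (hpb s j')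
      have c2 := par_comm H he (hpb s j) (hpb s j')
      have c3 := par_comm H he (hpb s j) (hpa s i)
      calc _ = H.pull (y j) (b s) * (H.pull (x i) (a s) * H.pull (y j') (b s)) *
            H.pull (x i') (a s) := by simp only [mul_assoc]
        _ = e • (H.pull (y j) (b s) * H.pull (y j') (b s) * H.pull (x i) (a s) *
            H.pull (x i') (a s)) := by
              rw [c1, mul_smul_comm, smul_mul_assoc]
              simp only [mul_assoc]
        _ = H.pull (y j') (b s) * (H.pull (y j) (b s) * H.pull (x i) (a s)) *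
            H.pull (x i') (a s) := by
              rw [c2, smul_mul_assoc, smul_mul_assoc, smul_smul, hee, one_smul]
              simp only [mul_assoc]
        _ = _ := by
              rw [c3, mul_smul_comm, smul_mul_assoc]
              simp only [mul_assoc]
    rw [h1, neg_smul, add_neg_cancel]
  have h2 := comb_zero (by rw [Fintype.card_fin]; exact hn) χ w hw
  have h3 := congrArg (Subring.subtype (Subring.center (H.A W))) h2
  rw [map_sum, map_zero] at h3
  rw [← h3, chiSum]
  apply Finset.sum_congr rfl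
  intro σ _
  rw [map_zsmul]
  congr 1
  have h4 : ∀ i, H.up (Obj.lift (x i) (y (σ i))) c =
      Subring.subtype (Subring.center (H.A W)) (∑ s, w s i (σ i)) := by
    intro i
    rw [hab, TheoryData.up, map_sum, map_sum]
    apply Finset.sum_congr rfl
    intro s _
    rw [map_mul, ← H.pull_comp, ← H.pull_comp, lift_fst, lift_snd]
    rfl
  simp_rw [h4]
  rw [← List.prod_ofFn, map_list_prod, List.map_ofFn]
  rfl

end Pool.Agent.D0H75.CM
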