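import Pool.Agent.D0H75.CM.Kim2
import Pool.Agent.D0H75.CM.EndR

/-!
# Powers of a variety and quasi-idempotents
-/

set_option autoImplicit false
set_option linter.unusedSectionVars false
set_option linter.unusedVariables false

open CategoryTheory AlgebraicGeometry MonoidalCategory Equiv

universe u v w

namespace Pool.Agent.D0H75.CM

open Pool.Agent.H914 Pool.Agent.H914.VarClass Pool.Agent.H914.VarClass.Obj Pool.Agent.W492.BB
  Pool.Agent.W550.Corr Pool.Agent.TH133

variable {k : Type u} [Field k] {𝒱 : VarClass k}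

/-- The Chow groups are commutative rings. -/
@[reducible] noncomputable def commA (C : TheoryData.{u, v, 0} 𝒱 ℚ) [hC : IsChowProj C]
    (X : 𝒱.Obj) : CommRing (C.A X) :=
  { C.ring X with mul_comm := ch_comm C }

section prodC

variable {C : TheoryData.{u, v, 0} 𝒱 ℚ}

/-- The product of the classes `(x_i, y_i)^* p`. -/
noncomputable def prodC {n : ℕ} {X W : 𝒱.Obj} (p : C.A (X.prod X)) (x y : Fin n → (W ⟶ X)) :
    C.A W := (List.ofFn fun i => C.pull (Obj.lift (x i) (y i)) p).prod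

variable [hC : IsChowProj C]

lemma prodC_eq {n : ℕ} {X W : 𝒱.Obj} (p : C.A (X.prod X)) (x y : Fin n → (W ⟶ X)) :
    prodC p x y = letI := commA C W; ∏ i, C.pull (Obj.lift (x i) (y i)) p := by
  let _ := commA C W
  exact List.prod_ofFn

lemma prodC_reindex {n : ℕ} {X W : 𝒱.Obj} (p : C.A (X.prod X)) (x y : Fin n → (W ⟶ X))
    (σ : Perm (Fin n)) : prodC p (fun i => x (σ i)) (fun i => y (σ i)) = prodC p x y := by
  rw [prodC_eq, prodC_eq]
  let _ := commA C W
  exact Equiv.prod_comp σ (fun i => C.pull (Obj.lift (x i) (y i)) p)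

lemma pull_prodC {n : ℕ} {X W V : 𝒱.Obj} (f : V ⟶ W) (p : C.A (X.prod X))
    (x y : Fin n → (W ⟶ X)) :
    C.pull f (prodC p x y) = prodC p (fun i => f ≫ x i) (fun i => f ≫ y i) := by
  rw [prodC, map_list_prod, List.map_ofFn, prodC]
  congr 2
  funext i
  rw [Function.comp_apply, ← C.pull_comp, comp_lift]

lemma prodC_succ {n : ℕ} {X W : 𝒱.Obj} (p : C.A (X.prod X)) (x y : Fin (n + 1) → (W ⟶ X)) :
    prodC p x y = prodC p (fun i => x i.castSucc) (fun i => y i.castSucc) *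
      C.pull (Obj.lift (x (Fin.last n)) (y (Fin.last n))) p := by
  rw [prodC_eq, prodC_eq]
  let _ := commA C W
  exact Fin.prod_univ_castSucc _

end prodC

/-! ### Powers -/

/-- The external power of a correspondence. -/
noncomputable def pwC {C : TheoryData.{u, v, 0} 𝒱 ℚ} {X Y : 𝒱.Obj} {n : ℕ}
    (q : Fin n → (Y ⟶ X)) (p : C.A (X.prod X)) : C.A (Y.prod Y) :=
  prodC p (fun i => fst Y Y ≫ q i) (fun i => snd Y Y ≫ q i)

/-- A model of the power `X^n`. -/
structure Pow (C : TheoryData.{u, v, 0} 𝒱 ℚ) [hC : IsChowProj C] (X : 𝒱.Obj) (n : ℕ) where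
  /-- the variety -/
  Y : 𝒱.Obj
  /-- the projections -/
  q : Fin n → (Y ⟶ X)
  /-- the morphism to the power -/
  lift : ∀ {W : 𝒱.Obj}, (Fin n → (W ⟶ X)) → (W ⟶ Y)
  lift_q : ∀ {W : 𝒱.Obj} (x : Fin n → (W ⟶ X)) (i : Fin n), lift x ≫ q i = x i
  ext : ∀ {W : 𝒱.Obj} {f g : W ⟶ Y}, (∀ i, f ≫ q i = g ≫ q i) → f = g
  idem : ∀ p : C.A (X.prod X), C.comp p p = p → C.comp (pwC q p) (pwC q p) = pwC q p
  mem : ∀ p : C.A (X.prod X), p ∈ C.gr (X.prod X) X.dim → pwC q p ∈ C.gr (Y.prod Y) Y.dim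

variable {C : TheoryData.{u, v, 0} 𝒱 ℚ} [hC : IsChowProj C]

lemma pwC_one {X : 𝒱.Obj} (p : C.A (X.prod X)) : pwC (n := 1) (fun _ => 𝟙 X) p = p := by
  have e : Obj.lift (fst X X ≫ 𝟙 X) (snd X X ≫ 𝟙 X) = 𝟙 (X.prod X) := by
    apply prod_ext <;> simp
  rw [pwC, prodC]
  simp only [List.ofFn_succ, List.ofFn_zero, List.prod_cons, List.prod_nil, mul_one]
  rw [e]
  exact C.pull_id p

/-- The projections of the next power. -/
noncomputable def nextQ {X Y : 𝒱.Obj} {n : ℕ} (q : Fin n → (Y ⟶ X)) (i : Fin (n + 1)) :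
    Y.prod X ⟶ X :=
  Fin.lastCases (motive := fun _ => Y.prod X ⟶ X) (snd Y X) (fun j => fst Y X ≫ q j) i

lemma nextQ_last {X Y : 𝒱.Obj} {n : ℕ} (q : Fin n → (Y ⟶ X)) :
    nextQ q (Fin.last n) = snd Y X := by
  rw [nextQ, Fin.lastCases_last]

lemma nextQ_castSucc {X Y : 𝒱.Obj} {n : ℕ} (q : Fin n → (Y ⟶ X)) (i : Fin n) :
    nextQ q i.castSucc = fst Y X ≫ q i := by
  rw [nextQ, Fin.lastCases_castSucc]

lemma pwC_next {X Y : 𝒱.Obj} {n : ℕ} (q : Fin n → (Y ⟶ X)) (p : C.A (X.prod X)) :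
    pwC (nextQ q) p = tens C (pwC q p) p := by
  rw [pwC, prodC_succ, tens]
  congr 1
  · rw [pwC, pull_prodC]
    congr 1
    · funext i
      rw [nextQ_castSucc, ← Category.assoc, ← Category.assoc, prodMap_fst]
    · funext i
      rw [nextQ_castSucc, ← Category.assoc, ← Category.assoc, prodMap_snd]
  · rw [nextQ_last]
    rfl

variable (C) in
lemma exists_pow (X : 𝒱.Obj) (n : ℕ) : Nonempty (Pow C X (n + 1)) := by
  induction n with
  | zero =>
    refine ⟨⟨X, fun _ => 𝟙 X, fun x => x 0, ?_, ?_, ?_, ?_⟩⟩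
    · intro W x i
      rw [Category.comp_id, Fin.eq_zero i]
    · intro W f g h
      have := h 0
      rwa [Category.comp_id, Category.comp_id] at this
    · intro p hp
      rw [pwC_one]
      exact hp
    · intro p hp
      rw [pwC_one]
      exact hp
  | succ n ih =>
    obtain ⟨P⟩ := ih
    refine ⟨⟨P.Y.prod X, nextQ P.q, fun x => Obj.lift (P.lift (fun j => x j.castSucc))
      (x (Fin.last _)), ?_, ?_, ?_, ?_⟩⟩
    · intro W x i
      induction i using Fin.lastCases with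
      | last => rw [nextQ_last, lift_snd]
      | cast j => rw [nextQ_castSucc, lift_fst_assoc, P.lift_q]
    · intro W f g h
      apply prod_ext
      · apply P.ext
        intro i
        have := h i.castSucc
        rw [nextQ_castSucc] at this
        rw [Category.assoc, Category.assoc]
        exact this
      · have := h (Fin.last _)
        rwa [nextQ_last] at this
    · intro p hp
      rw [pwC_next, tens_comp', P.idem p hp, hp]
    · intro p hp
      rw [pwC_next]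
      exact tens_mem C (P.mem p hp) hp

namespace Pow

variable {X : 𝒱.Obj} {n : ℕ} (P : Pow C X n)

/-- The action of the permutations on the power. -/
noncomputable def perm (σ : Perm (Fin n)) : P.Y ⟶ P.Y := P.lift (fun i => P.q (σ i))

lemma perm_q (σ : Perm (Fin n)) (i : Fin n) : P.perm σ ≫ P.q i = P.q (σ i) := P.lift_q _ i

lemma perm_mul (σ τ : Perm (Fin n)) : P.perm σ ≫ P.perm τ = P.perm (σ * τ) := by
  apply P.ext
  intro i
  rw [Category.assoc, perm_q, perm_q, perm_q]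
  rfl

lemma perm_one : P.perm 1 = 𝟙 _ := by
  apply P.ext
  intro i
  rw [perm_q, Category.id_comp]
  rfl

/-! ### The quasi-idempotents -/

/-- The class of the action of a permutation. -/
noncomputable def gC (σ : Perm (Fin n)) : Cor C P.Y := C.cograph (P.perm σ)

/-- The class of the power of `p`. -/
noncomputable def pC (p : C.A (X.prod X)) : Cor C P.Y := pwC P.q p

/-- The alternating or symmetric sum. -/
noncomputable def aC (χ : Perm (Fin n) →* ℤˣ) (p : C.A (X.prod X)) : Cor C P.Y :=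
  chiSum C χ p (fun i => fst P.Y P.Y ≫ P.q i) (fun i => snd P.Y P.Y ≫ P.q i)

lemma gC_mul (σ τ : Perm (Fin n)) : P.gC σ * P.gC τ = P.gC (σ * τ) := by
  rw [cor_mul, gC, gC, gC, cograph_cograph, perm_mul]

lemma gC_mul_pC (p : C.A (X.prod X)) (σ : Perm (Fin n)) : P.gC σ * P.pC p =
      prodC p (fun i => fst P.Y P.Y ≫ P.q i) (fun i => snd P.Y P.Y ≫ P.q (σ i)) := by
  change C.comp (pwC P.q p) (C.cograph (P.perm σ)) = _
  rw [comp_cograph, pwC, pull_prodC]
  congr 1
  · funext i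
    rw [← Category.assoc, prodMap_fst, Category.comp_id]
  · funext i
    rw [← Category.assoc, prodMap_snd, Category.assoc, perm_q]

lemma pC_mul_gC (p : C.A (X.prod X)) (σ : Perm (Fin n)) : P.pC p * P.gC σ =
      prodC p (fun i => fst P.Y P.Y ≫ P.q i) (fun i => snd P.Y P.Y ≫ P.q (σ i)) := by
  have h1 : P.perm σ ≫ P.perm σ⁻¹ = 𝟙 _ := by rw [perm_mul, mul_inv_cancel, perm_one]
  have h2 : P.perm σ⁻¹ ≫ P.perm σ = 𝟙 _ := by rw [perm_mul, inv_mul_cancel, perm_one]
  change C.comp (C.cograph (P.perm σ)) (pwC P.q p) = _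
  rw [cograph_iso C _ _ h1 h2, graph_comp, pwC, pull_prodC, ← prodC_reindex p _ _ σ]
  congr 1
  · funext i
    rw [← Category.assoc, prodMap_fst, Category.assoc, perm_q, ← Perm.mul_apply,
      inv_mul_cancel, Perm.one_apply]
  · funext i
    rw [← Category.assoc, prodMap_snd, Category.comp_id]

/-- The sum of the permutations with the character `χ`. -/
noncomputable def eC (χ : Perm (Fin n) →* ℤˣ) : Cor C P.Y :=
  ∑ σ, ((χ σ : ℤˣ) : ℤ) • P.gC σ

lemma eC_mul_self (χ : Perm (Fin n) →* ℤˣ) :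
    P.eC χ * P.eC χ = (Fintype.card (Perm (Fin n))) • P.eC χ := by
  have h1 : ∀ σ : Perm (Fin n),
      (((χ σ : ℤˣ) : ℤ) • P.gC σ) * P.eC χ = P.eC χ := by
    intro σ
    nth_rewrite 1 [eC]
    rw [Finset.mul_sum, eC, ← Equiv.sum_comp (Equiv.mulLeft σ)
      (fun τ => ((χ τ : ℤˣ) : ℤ) • P.gC τ)]
    apply Finset.sum_congr rfl
    intro τ _
    rw [Equiv.coe_mulLeft, smul_mul_smul_comm, gC_mul, map_mul, Units.val_mul]
  nth_rewrite 1 [eC]
  rw [Finset.sum_mul, Finset.sum_congr rfl (fun σ _ => h1 σ), Finset.sum_const, Finset.card_univ]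

lemma eC_mul_pC (p : C.A (X.prod X)) (χ : Perm (Fin n) →* ℤˣ) :
    P.eC χ * P.pC p = P.aC χ p := by
  rw [eC, Finset.sum_mul]
  apply Finset.sum_congr rfl
  intro σ _
  rw [smul_mul_assoc, gC_mul_pC]
  rfl

lemma pC_mul_eC (p : C.A (X.prod X)) (χ : Perm (Fin n) →* ℤˣ) :
    P.pC p * P.eC χ = P.aC χ p := by
  rw [eC, Finset.mul_sum]
  apply Finset.sum_congr rfl
  intro σ _
  rw [mul_smul_comm, pC_mul_gC]
  rfl

lemma aC_mul_self {p : C.A (X.prod X)} (hp : C.comp p p = p) (χ : Perm (Fin n) →* ℤˣ) :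
    P.aC χ p * P.aC χ p = (Fintype.card (Perm (Fin n))) • P.aC χ p := by
  have h1 : P.pC p * P.pC p = P.pC p := P.idem p hp
  calc P.aC χ p * P.aC χ p = P.eC χ * P.pC p * (P.pC p * P.eC χ) := by
        rw [eC_mul_pC, pC_mul_eC]
    _ = P.eC χ * (P.pC p * P.pC p * P.eC χ) := by simp only [mul_assoc]
    _ = P.eC χ * (P.eC χ * P.pC p) := by rw [h1, pC_mul_eC, eC_mul_pC]
    _ = _ := by rw [← mul_assoc, eC_mul_self, smul_mul_assoc, eC_mul_pC]

lemma aC_mem {p : C.A (X.prod X)} (hp : p ∈ C.gr (X.prod X) X.dim) (χ : Perm (Fin n) →* ℤˣ) :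
    P.aC χ p ∈ cor0 C P.Y := by
  rw [← eC_mul_pC]
  apply Subalgebra.mul_mem
  · rw [eC]
    apply Subalgebra.sum_mem
    intro σ _
    have h : P.gC σ ∈ cor0 C P.Y := cograph_mem (P.perm σ)
    rcases Int.units_eq_one_or (χ σ) with h1 | h1
    · rw [h1, Units.val_one, one_smul]
      exact h
    · rw [h1, Units.val_neg, Units.val_one, neg_smul, one_smul]
      exact Subalgebra.neg_mem _ h
  · exact P.mem p hp

lemma pull_aC (p : C.A (X.prod X)) (χ : Perm (Fin n) →* ℤˣ) {W : 𝒱.Obj}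
    (x y : Fin n → (W ⟶ X)) :
    C.pull (Obj.lift (P.lift x) (P.lift y)) (P.aC χ p : C.A (P.Y.prod P.Y)) =
      chiSum C χ p x y := by
  rw [aC, chiSum, map_sum, chiSum]
  apply Finset.sum_congr rfl
  intro σ _
  rw [map_zsmul]
  congr 1
  have h := pull_prodC (Obj.lift (P.lift x) (P.lift y)) p (fun i => fst P.Y P.Y ≫ P.q i)
    (fun i => snd P.Y P.Y ≫ P.q (σ i))
  refine h.trans ?_
  have e1 : ∀ i, Obj.lift (P.lift x) (P.lift y) ≫ fst P.Y P.Y ≫ P.q i = x i := by
    intro i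
    rw [lift_fst_assoc, P.lift_q]
  have e2 : ∀ i, Obj.lift (P.lift x) (P.lift y) ≫ snd P.Y P.Y ≫ P.q (σ i) = y (σ i) := by
    intro i
    rw [lift_snd_assoc, P.lift_q]
  simp_rw [e1, e2]
  rfl

end Pow

end Pool.Agent.D0H75.CM
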