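import Pool.Agent.D0H75.CM.Lef2
import Pool.Agent.D0H75.CM.Defs3

/-!
# Hard Lefschetz for Chow motives
-/

set_option autoImplicit false
set_option linter.unusedSectionVars false
set_option linter.unusedVariables false

open CategoryTheory AlgebraicGeometry MonoidalCategory Idempotents Limits Polynomial

universe u v w

namespace Pool.Agent.D0H75.CM

open Pool.Agent.H914 Pool.Agent.H914.VarClass Pool.Agent.H914.VarClass.Obj Pool.Agent.W492.BB
  Pool.Agent.W550.Corr Pool.Agent.TH133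

variable {k : Type u} [Field k] [Finite k] {𝒱 : VarClass k} [hP : HasPoint 𝒱]
  {C : TheoryData.{u, v, 0} 𝒱 ℚ} [hC : IsChowProj C] {K : Type w} [Field K]
  (H : WeilTheoryData.{u, v, w} C K) [hH : IsWeilFin H] {Fr : ∀ X : 𝒱.Obj, X ⟶ X}

/-- The Kunneth polynomials for `X`. -/
theorem exists_kunData (h : IsFrobFamily H Fr) (hab : IsAbelianCat (CHMot C)) (X : 𝒱.Obj) :
    ∃ D : KunPoly (2 * X.dim + 1),
      (∀ m : ℤ, aeval (frC (C := C) Fr ⟨X, m⟩) D.tot = 0) ∧
      (∀ (m : ℤ) (i : ℕ), rho H (⟨X, m⟩ : CObj C) (aeval (frC (C := C) Fr ⟨X, m⟩) (D.t i)) =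
        prL H X i) ∧
      (∀ (i : ℕ) (z : ℂ), aeval z (D.P i) = 0 → ‖z‖ ^ 2 = (Nat.card k : ℝ) ^ i) := by
  have hK := hH.charZero
  obtain ⟨P, hP1, hP2, hP3⟩ := exists_weil_polys H h X
  obtain ⟨N, hN⟩ := exists_tot H h hab (⟨X, 0⟩ : CObj C) P hP2
  obtain ⟨D, hD1, hD2⟩ := exists_kunPoly P hP1 (2 * X.dim + 1) (N + 1) (Nat.succ_pos _)
  refine ⟨D, ?_, ?_, ?_⟩
  · intro m
    apply CObj.hom_ext
    have h1 := val_aeval' (C := C) Fr X m D.tot
    refine h1.trans ?_
    rw [polC, KunPoly.tot, hD1, hD2, hN (N + 1) (Nat.le_succ _)]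
    rfl
  · intro m i
    rw [rho_aeval, rho_frC]
    rw [← hD1] at hP2
    exact ev_kun H D (frobEnd H (Fr X)) hP2 i (fun j a ha => H.pull_mem (Fr X) ha)
  · rw [hD1]
    exact hP3

variable {H}

/-- The Chow-Kunneth decomposition given by polynomials in the Frobenius. -/
noncomputable def ckProj (Fr : ∀ X : 𝒱.Obj, X ⟶ X) (X : 𝒱.Obj) (D : KunPoly (2 * X.dim + 1))
    (i : ℕ) : C.A (X.prod X) := if i ≤ 2 * X.dim then polC Fr X (D.t i) else 0

lemma hMap_val {M N : CObj C} (f : M ⟶ N) (a : H.A M.X) :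
    H.act (H.cl (CObj.val f)) a = hMap H f a := rfl

section

variable {X : 𝒱.Obj} (D : KunPoly (2 * X.dim + 1))
  (hD1 : ∀ m : ℤ, aeval (frC (C := C) Fr ⟨X, m⟩) D.tot = 0)
  (hD2 : ∀ (m : ℤ) (i : ℕ), rho H (⟨X, m⟩ : CObj C) (aeval (frC (C := C) Fr ⟨X, m⟩) (D.t i)) =
    prL H X i)

include hD1 hD2

omit hP [Finite k] in
lemma actH_polC (i : ℕ) (a : H.A X) :
    H.act (H.cl (polC (C := C) Fr X (D.t i))) a = prL H X i a :=
  LinearMap.congr_fun (hD2 0 i) a

omit hP [Finite k] in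
/-- It is a Chow-Kunneth decomposition. -/
theorem isCK_ckProj : IsCK H X (ckProj (C := C) Fr X D) where
  deg i := by
    unfold ckProj
    split_ifs
    · exact polC_mem Fr X _
    · exact Submodule.zero_mem _
  out i hi := by
    unfold ckProj
    rw [if_neg (by omega)]
  idem i := by
    unfold ckProj
    split_ifs with hi
    · exact congrArg CObj.val (D.idem _ (hD1 0) (Nat.lt_succ_of_le hi))
    · exact zero_comp C _
  orth i j hij := by
    unfold ckProj
    split_ifs with hi hj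
    · exact congrArg CObj.val (D.orth _ (hD1 0) (Nat.lt_succ_of_le hj) hij.symm)
    · exact Pool.Agent.W550.Corr.comp_zero C _
    · exact zero_comp C _
    · exact zero_comp C _
  sum := by
    have h1 := congrArg (valL (⟨X, 0⟩ : CObj C)) (D.sum_eq _ (hD1 0))
    rw [map_sum] at h1
    refine Eq.trans (Finset.sum_congr rfl fun i hi => ?_) h1
    unfold ckProj
    rw [if_pos (by rw [Finset.mem_range] at hi; omega)]
    rfl
  act_self i a ha := by
    unfold ckProj
    split_ifs with hi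
    · rw [actH_polC D hD1 hD2, prL_same H ha]
    · have h0 : a = 0 := by
        have : a ∈ H.gr X i := ha
        rw [gr_top H (by omega)] at this
        exact (Submodule.mem_bot _).1 this
      rw [h0, TheoryData.act_map_zero]
  act_ne i m a hm ha := by
    unfold ckProj
    split_ifs with hi
    · rw [actH_polC D hD1 hD2, prL_ne H ha hm]
    · rw [map_zero, H.act_zero]

omit hP [Finite k] hD1 hD2 in
lemma mulCorr_mem {l : C.A X} (hl : l ∈ C.gr X 1) (n : ℕ) :
    C.mulCorr (l ^ n) ∈ C.gr (X.prod X) (X.dim + n) := by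
  have h1 : l ^ n ∈ C.gr X n := by
    induction n with
    | zero =>
      rw [pow_zero, Nat.cast_zero]
      exact C.one_mem X
    | succ n ih =>
      rw [pow_succ]
      push_cast
      exact C.mul_mem ih hl
  have h2 := C.push_mem (Obj.lift (𝟙 X) (𝟙 X)) h1
  have e : (n : ℤ) + 1 * (((X.prod X).dim : ℤ) - X.dim) = X.dim + n := by
    rw [dim_prod]; push_cast; ring
  rw [e] at h2
  exact h2

omit hP [Finite k] hD1 hD2 in
lemma actH_mulCorr (c : C.A X) (a : H.A X) : H.act (H.cl (C.mulCorr c)) a = H.cl c * a := by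
  have h1 : H.cl (C.mulCorr c) = H.mulCorr (H.cl c) := by
    rw [TheoryData.mulCorr, TheoryData.mulCorr, H.cl_push]
  rw [h1, H.act_mulCorr]

/-- The isomorphism of Chow motives given by the hard Lefschetz theorem. -/
theorem lef_iso (h : IsFrobFamily H Fr) (hab : IsAbelianCat (CHMot C)) {l : C.A X}
    (hl : IsLef H X l) {i : ℕ} (hi : i ≤ X.dim) : ∃ Λ : C.A (X.prod X), C.Deg i Λ ∧
      InvIso C (polC (C := C) Fr X (D.t i)) (polC (C := C) Fr X (D.t (2 * X.dim - i)))
        (C.comp (C.comp (polC (C := C) Fr X (D.t i)) (C.mulCorr (l ^ (X.dim - i))))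
          (polC (C := C) Fr X (D.t (2 * X.dim - i)))) Λ := by
  let M : CObj C := ⟨X, 0⟩
  let N : CObj C := ⟨X, (X.dim : ℤ) - i⟩
  let e : M ⟶ M := aeval (frC (C := C) Fr ⟨X, 0⟩) (D.t i)
  let e' : N ⟶ N := aeval (frC (C := C) Fr ⟨X, (X.dim : ℤ) - i⟩) (D.t (2 * X.dim - i))
  have he : e ≫ e = e := D.idem (frC (C := C) Fr ⟨X, 0⟩) (hD1 0) (i := i) (by omega)
  have he' : e' ≫ e' = e' :=
    D.idem (frC (C := C) Fr ⟨X, (X.dim : ℤ) - i⟩) (hD1 _) (i := 2 * X.dim - i) (by omega)
  let L : M ⟶ N := CObj.mkH (C.mulCorr (l ^ (X.dim - i))) (by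
    have h1 := mulCorr_mem (C := C) hl.deg (X.dim - i)
    have h2 : ((M.X.dim : ℤ) + (N.m - M.m)) = X.dim + ((X.dim - i : ℕ) : ℤ) := by
      change (X.dim : ℤ) + ((X.dim : ℤ) - i - 0) = _
      rw [Nat.cast_sub hi]
      ring
    rw [h2]
    exact h1)
  let P : CHMot C := ⟨M, e, he⟩
  let Q : CHMot C := ⟨N, e', he'⟩
  let g : P ⟶ Q := ⟨e ≫ L ≫ e', by
    change e ≫ (e ≫ L ≫ e') ≫ e' = e ≫ L ≫ e'
    rw [Category.assoc, Category.assoc, he', ← Category.assoc e e, he]⟩
  have hve : CObj.val e = polC Fr X (D.t i) := rfl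
  have hve' : CObj.val e' = polC Fr X (D.t (2 * X.dim - i)) := val_aeval' Fr X _ _
  have hvg : CObj.val g.f = C.comp (C.comp (polC (C := C) Fr X (D.t i))
      (C.mulCorr (l ^ (X.dim - i)))) (polC (C := C) Fr X (D.t (2 * X.dim - i))) := by
    rw [W550.Corr.comp_assoc, ← hve']
    rfl
  have hcast : ((2 * X.dim - i : ℕ) : ℤ) = 2 * (X.dim : ℤ) - i := by
    rw [Nat.cast_sub (by omega)]
    push_cast
    ring
  -- the Lefschetz operator on the cohomology
  have hLmem : ∀ a ∈ H.gr X i, H.cl (l ^ (X.dim - i)) * a ∈ H.gr X (2 * X.dim - i : ℕ) := by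
    intro a ha
    have h1 : l ^ (X.dim - i) ∈ C.gr X (X.dim - i : ℕ) := by
      have h2 : ∀ n : ℕ, l ^ n ∈ C.gr X n := by
        intro n
        induction n with
        | zero =>
          rw [pow_zero, Nat.cast_zero]
          exact C.one_mem X
        | succ n ih =>
          rw [pow_succ]
          push_cast
          exact C.mul_mem ih hl.deg
      exact h2 _
    have h2 := H.mul_mem (H.cl_mem h1) ha
    have e : (2 * ((X.dim - i : ℕ) : ℤ) + i) = ((2 * X.dim - i : ℕ) : ℤ) := by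
      rw [hcast, Nat.cast_sub hi]
      ring
    rw [e] at h2
    exact h2
  have hact : ∀ a ∈ H.gr X i, H.act (H.cl (CObj.val g.f)) a = H.cl (l ^ (X.dim - i)) * a := by
    intro a ha
    rw [hvg, actH_comp, actH_comp, actH_polC D hD1 hD2, actH_polC D hD1 hD2, actH_mulCorr,
      prL_same H ha]
    exact prL_same H (hLmem a ha)
  have hg : Function.Bijective (rMap H g) := by
    rw [bij_iff]
    constructor
    · intro a ha
      have h1 : H.act (H.cl (CObj.val P.p)) a ∈ H.gr X i := by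
        have : H.act (H.cl (CObj.val P.p)) a = prL H X i a := actH_polC D hD1 hD2 i a
        rw [this]
        exact prL_mem H X i a
      rw [hact _ h1] at ha
      exact hl.inj i hi _ h1 ha
    · intro b
      have h1 : H.act (H.cl (CObj.val Q.p)) b = prL H X (2 * X.dim - i : ℕ) b := by
        change H.act (H.cl (CObj.val e')) b = _
        rw [hve']
        exact actH_polC D hD1 hD2 _ b
      have h2 := prL_mem H X (2 * X.dim - i : ℕ) b
      rw [hcast] at h2
      obtain ⟨a, ha, hab'⟩ := hl.surj i hi _ h2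
      refine ⟨a, ?_⟩
      have h3 : H.act (H.cl (CObj.val P.p)) a = a := by
        have : H.act (H.cl (CObj.val P.p)) a = prL H X i a := actH_polC D hD1 hD2 i a
        rw [this]
        exact prL_same H ha
      rw [h1, h3, hact a ha, hcast]
      exact hab'
  have hiso : IsIso g := isIso_of_bij H h hab g hg
  refine ⟨CObj.val (inv g).f, ?_, ?_, ?_⟩
  · have h1 := CObj.mem_val (inv g).f
    have e : ((N.X.dim : ℤ) + (M.m - N.m)) = i := by
      change (X.dim : ℤ) + (0 - ((X.dim : ℤ) - i)) = i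
      ring
    rw [e] at h1
    exact h1
  · rw [← hvg, ← hve]
    exact congrArg (fun z : P ⟶ P => CObj.val z.f) (IsIso.hom_inv_id g)
  · rw [← hvg, ← hve']
    exact congrArg (fun z : Q ⟶ Q => CObj.val z.f) (IsIso.inv_hom_id g)

end

/-- The Chow groups are concentrated in the expected weights. -/
lemma act_ck_chow (h : IsFrobFamily H Fr) {X : 𝒱.Obj} (D : KunPoly (2 * X.dim + 1))
    (hD1 : ∀ m : ℤ, aeval (frC (C := C) Fr ⟨X, m⟩) D.tot = 0)
    (hD3 : ∀ (i : ℕ) (z : ℂ), aeval z (D.P i) = 0 → ‖z‖ ^ 2 = (Nat.card k : ℝ) ^ i)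
    (r : ℕ) (a : C.A X) (ha : a ∈ C.gr X r) :
    C.act (polC (C := C) Fr X (D.t (2 * r))) a = a := by
  by_cases h0 : a = 0
  · rw [h0, TheoryData.act_map_zero]
  have hq1 : (1 : ℝ) < Nat.card k := by exact_mod_cast Finite.one_lt_card (α := k)
  have h1 : C.pull (Fr X) a = ((Nat.card k : ℚ) ^ (r : ℤ)) • a := h.chow X r a ha
  have h2 := act_polC (C := C) Fr X D.tot a _ h1
  have h3 : polC (C := C) Fr X D.tot = 0 := congrArg CObj.val (hD1 0)
  rw [h3, C.act_zero] at h2
  have h4 : eval ((Nat.card k : ℚ) ^ (r : ℤ)) D.tot = 0 := by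
    rcases smul_eq_zero.1 h2.symm with h4 | h4
    · exact h4
    · exact absurd h4 h0
  rw [KunPoly.tot, eval_prod, Finset.prod_eq_zero_iff] at h4
  obtain ⟨j, -, h5⟩ := h4
  rw [eval_pow] at h5
  have h6 : eval ((Nat.card k : ℚ) ^ (r : ℤ)) (D.P j) = 0 := (pow_eq_zero_iff D.pos.ne').1 h5
  have h7 : aeval (((Nat.card k : ℚ) ^ (r : ℤ) : ℚ) : ℂ) (D.P j) = 0 := by
    have := aeval_algebraMap_apply ℂ ((Nat.card k : ℚ) ^ (r : ℤ)) (D.P j)
    rw [coe_aeval_eq_eval, h6, map_zero] at this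
    exact this
  have h8 := hD3 j _ h7
  have h9 : ‖(((Nat.card k : ℚ) ^ (r : ℤ) : ℚ) : ℂ)‖ = (Nat.card k : ℝ) ^ r := by
    push_cast
    rw [norm_zpow, Complex.norm_natCast, zpow_natCast]
  rw [h9, ← pow_mul] at h8
  have h10 : r * 2 = j := pow_right_injective₀ (by linarith) hq1.ne' h8
  have h11 : j = 2 * r := by omega
  rw [h11] at h6
  rw [act_polC (C := C) Fr X (D.t (2 * r)) a _ h1, D.h1, eval_add, eval_mul, eval_pow, h6,
    eval_one, zero_pow D.pos.ne', mul_zero, add_zero, one_smul]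

/-- **Hard Lefschetz for Chow groups and Chow motives.** -/
theorem hard_lefschetz (h : IsFrobFamily H Fr) (hab : IsAbelianCat (CHMot C)) {X : 𝒱.Obj}
    {l : C.A X} (hl : IsLef H X l) : ∃ π : ℕ → C.A (X.prod X), IsCK H X π ∧
      (∀ i ≤ X.dim, ∃ Λ : C.A (X.prod X), IsLefInv H l i Λ ∧
        InvIso C (π i) (π (2 * X.dim - i))
          (C.comp (C.comp (π i) (C.mulCorr (l ^ (X.dim - i)))) (π (2 * X.dim - i))) Λ) ∧
      ∀ i : ℕ, 2 * i ≤ X.dim → ∀ b : C.A X, C.Deg (X.dim - i) b →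
        ∃! a : C.A X, C.Deg i a ∧ C.mul (l ^ (X.dim - 2 * i)) a = b := by
  obtain ⟨D, hD1, hD2, hD3⟩ := exists_kunData H h hab X
  have hck := isCK_ckProj D hD1 hD2
  have hπ : ∀ i ≤ 2 * X.dim, ckProj (C := C) Fr X D i = polC Fr X (D.t i) := by
    intro i hi
    rw [ckProj, if_pos hi]
  refine ⟨ckProj Fr X D, hck, ?_, ?_⟩
  · intro i hi
    obtain ⟨Λ, hΛ1, hΛ2⟩ := lef_iso D hD1 hD2 h hab hl hi
    rw [← hπ i (by omega), ← hπ (2 * X.dim - i) (by omega)] at hΛ2
    refine ⟨Λ, ⟨hΛ1, ?_⟩, hΛ2⟩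
    intro a ha
    have h1 := congrArg (fun z => H.act (H.cl z) a) hΛ2.1
    simp only [actH_comp, actH_mulCorr] at h1
    rw [hck.act_self i a ha] at h1
    have hcast : ((2 * X.dim - i : ℕ) : ℤ) = 2 * (X.dim : ℤ) - i := by
      rw [Nat.cast_sub (by omega)]
      push_cast
      ring
    have h2 : H.cl (l ^ (X.dim - i)) * a ∈ H.gr X (2 * X.dim - i : ℕ) := by
      have h3 : ∀ n : ℕ, l ^ n ∈ C.gr X n := by
        intro n
        induction n with
        | zero =>
          rw [pow_zero, Nat.cast_zero]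
          exact C.one_mem X
        | succ n ih =>
          rw [pow_succ]
          push_cast
          exact C.mul_mem ih hl.deg
      have h4 := H.mul_mem (H.cl_mem (h3 (X.dim - i))) ha
      have e : (2 * ((X.dim - i : ℕ) : ℤ) + i) = ((2 * X.dim - i : ℕ) : ℤ) := by
        rw [hcast, Nat.cast_sub hi]
        ring
      rw [e] at h4
      exact h4
    rw [hck.act_self _ _ h2] at h1
    exact h1
  · intro i hi b hb
    have hi2 : 2 * i ≤ X.dim := hi
    obtain ⟨Λ, hΛ1, hΛ2, hΛ3⟩ := lef_iso D hD1 hD2 h hab hl hi2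
    have hl' : ∀ n : ℕ, l ^ n ∈ C.gr X n := by
      intro n
      induction n with
      | zero =>
        rw [pow_zero, Nat.cast_zero]
        exact C.one_mem X
      | succ n ih =>
        rw [pow_succ]
        push_cast
        exact C.mul_mem ih hl.deg
    have hLa : ∀ a ∈ C.gr X i, l ^ (X.dim - 2 * i) * a ∈ C.gr X (X.dim - i : ℕ) := by
      intro a ha
      have h4 := C.mul_mem (hl' (X.dim - 2 * i)) ha
      have e : (((X.dim - 2 * i : ℕ) : ℤ) + i) = ((X.dim - i : ℕ) : ℤ) := by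
        rw [Nat.cast_sub hi2, Nat.cast_sub (by omega)]
        push_cast
        ring
      rw [e] at h4
      exact h4
    have hcast : ((X.dim - i : ℕ) : ℤ) = (X.dim : ℤ) - i := by
      rw [Nat.cast_sub (by omega)]
    have hw1 : ∀ a ∈ C.gr X i, C.act (polC (C := C) Fr X (D.t (2 * i))) a = a :=
      fun a ha => act_ck_chow h D hD1 hD3 i a ha
    have hw2 : ∀ a ∈ C.gr X (X.dim - i : ℕ),
        C.act (polC (C := C) Fr X (D.t (2 * X.dim - 2 * i))) a = a := by
      intro a ha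
      have e : 2 * X.dim - 2 * i = 2 * (X.dim - i) := by omega
      rw [e]
      exact act_ck_chow h D hD1 hD3 (X.dim - i) a ha
    have key : ∀ a ∈ C.gr X i, C.act Λ (l ^ (X.dim - 2 * i) * a) = a := by
      intro a ha
      have h1 := congrArg (fun z => C.act z a) hΛ2
      simp only [C.act_comp, C.act_mulCorr] at h1
      rw [hw1 a ha, hw2 _ (hLa a ha)] at h1
      exact h1
    have hΛm : ∀ b ∈ C.gr X (X.dim - i : ℕ), C.act Λ b ∈ C.gr X i := by
      intro b hb
      have h1 : Λ ∈ C.gr (X.prod X) (X.dim + (2 * (i : ℤ) - X.dim)) := by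
        have : ((2 * i : ℕ) : ℤ) = X.dim + (2 * (i : ℤ) - X.dim) := by push_cast; ring
        rw [← this]
        exact hΛ1
      have h2 := act_mem' C h1 hb
      have e : (((X.dim - i : ℕ) : ℤ) + (2 * (i : ℤ) - X.dim)) = i := by
        rw [hcast]; ring
      rw [e] at h2
      exact h2
    have key2 : ∀ b ∈ C.gr X (X.dim - i : ℕ), l ^ (X.dim - 2 * i) * C.act Λ b = b := by
      intro b hb
      have h1 := congrArg (fun z => C.act z b) hΛ3
      simp only [C.act_comp, C.act_mulCorr] at h1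
      rw [hw2 b hb, hw1 _ (hΛm b hb), hw2 _ (hLa _ (hΛm b hb))] at h1
      exact h1
    have hb' : b ∈ C.gr X (X.dim - i : ℕ) := by
      rw [hcast]
      exact hb
    refine ⟨C.act Λ b, ⟨hΛm b hb', key2 b hb'⟩, ?_⟩
    rintro a ⟨ha1, ha2⟩
    rw [← key a ha1]
    congr 1

end Pool.Agent.D0H75.CM
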