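import Pool.Agent.D0H75.CM.Kim3
import Pool.Agent.D0H75.CM.Lef3
import Pool.Agent.D0H75.CM.DefsK

/-!
# Kimura finite-dimensionality from abelianness
-/

set_option autoImplicit false
set_option linter.unusedSectionVars false
set_option linter.unusedVariables false

open CategoryTheory AlgebraicGeometry MonoidalCategory Equiv Idempotents Polynomial

universe u v w

namespace Pool.Agent.D0H75.CM

open Pool.Agent.H914 Pool.Agent.H914.VarClass Pool.Agent.H914.VarClass.Obj Pool.Agent.W492.BB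
  Pool.Agent.W550.Corr Pool.Agent.TH133

lemma zero_of_quasi {E : Type*} [Ring E] [Algebra ℚ E] (f : E) (c : ℕ) (hc : c ≠ 0)
    (h : f * f = c • f) (hn : IsNilpotent f) : f = 0 := by
  obtain ⟨m, hm⟩ := hn
  have h1 : ∀ n : ℕ, f ^ (n + 1) = (c ^ n) • f := by
    intro n
    induction n with
    | zero => rw [zero_add, pow_one, pow_zero, one_smul]
    | succ n ih => rw [pow_succ, ih, smul_mul_assoc, h, smul_smul, pow_succ]
  have h2 : (c ^ m) • f = 0 := by rw [← h1 m, pow_succ, hm, zero_mul]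
  have h3 : ((c ^ m : ℕ) : ℚ) • f = 0 := by
    rw [Nat.cast_smul_eq_nsmul]
    exact h2
  have h4 : ((c ^ m : ℕ) : ℚ) ≠ 0 := by exact_mod_cast pow_ne_zero m hc
  have h5 : f = ((c ^ m : ℕ) : ℚ)⁻¹ • (((c ^ m : ℕ) : ℚ) • f) := by
    rw [smul_smul, inv_mul_cancel₀ h4, one_smul]
  rw [h5, h3, smul_zero]

variable {k : Type u} [Field k] {𝒱 : VarClass k} {C : TheoryData.{u, v, 0} 𝒱 ℚ}
  [hC : IsChowProj C] {K : Type w} [Field K] (H : WeilTheoryData.{u, v, w} C K)
  [hH : IsWeilFin H]

lemma cl_chiSum {n : ℕ} (χ : Perm (Fin n) →* ℤˣ) {X W : 𝒱.Obj} (p : C.A (X.prod X))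
    (x y : Fin n → (W ⟶ X)) :
    H.cl (chiSum C χ p x y) = chiSum H.toTheoryData χ (H.cl p) x y := by
  rw [chiSum, map_sum, chiSum]
  apply Finset.sum_congr rfl
  intro σ _
  rw [map_zsmul, map_list_prod, List.map_ofFn]
  congr 3
  funext i
  exact H.cl_pull _ _

variable [Finite k] [hP : HasPoint 𝒱] {Fr : ∀ X : 𝒱.Obj, X ⟶ X}

theorem chiSum_zero (h : IsFrobFamily H Fr) (hab : IsAbelianCat (CHMot C)) {X : 𝒱.Obj}
    {p : C.A (X.prod X)} (hp : C.comp p p = p) (hd : p ∈ C.gr (X.prod X) X.dim) {n : ℕ}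
    (χ : Perm (Fin (n + 1)) →* ℤˣ)
    (hcoh : ∀ (W : 𝒱.Obj) (x y : Fin (n + 1) → (W ⟶ X)),
      chiSum H.toTheoryData χ (H.cl p) x y = 0) {W : 𝒱.Obj} (x y : Fin (n + 1) → (W ⟶ X)) :
    chiSum C χ p x y = 0 := by
  obtain ⟨P⟩ := exists_pow C X n
  rw [← P.pull_aC]
  have hmem : (P.aC χ p : C.A (P.Y.prod P.Y)) ∈ C.gr (P.Y.prod P.Y) P.Y.dim := P.aC_mem hd χ
  let M : CObj C := ⟨P.Y, 0⟩
  let f : End M := (CObj.mkH (M := M) (N := M) (P.aC χ p) (by
    rw [sub_self, add_zero]; exact hmem) : M ⟶ M)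
  have hcl : H.cl (X := P.Y.prod P.Y) (P.aC χ p) = 0 := by
    rw [Pow.aC, cl_chiSum]
    exact hcoh _ _ _
  have hrho : rho H M f = 0 := by
    apply LinearMap.ext
    intro a
    change H.act (H.cl (X := P.Y.prod P.Y) (P.aC χ p)) a = 0
    rw [hcl, H.act_zero]
  have hnil := nil_of_rho H h hab M f (by rw [hrho]; exact IsNilpotent.zero)
  have hff : f * f = (Fintype.card (Perm (Fin (n + 1)))) • f := by
    apply CObj.hom_ext
    have h1 := P.aC_mul_self hp χ
    have h2 : CObj.val ((Fintype.card (Perm (Fin (n + 1)))) • f : M ⟶ M) =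
        (Fintype.card (Perm (Fin (n + 1)))) • CObj.val (f : M ⟶ M) :=
      map_nsmul (valL M) _ _
    exact Eq.trans h1 h2.symm
  have hf : f = 0 := zero_of_quasi f _ Fintype.card_ne_zero hff hnil
  have h3 : (P.aC χ p : C.A (P.Y.prod P.Y)) = 0 := congrArg CObj.val (show (f : M ⟶ M) = 0 from hf)
  exact (congrArg (C.pull (Obj.lift (P.lift x) (P.lift y))) h3).trans (map_zero _)

section sums

omit [Finite k] hP

/-- The sum of the Chow-Kunneth projectors of a given parity. -/
noncomputable def parSum (C : TheoryData.{u, v, 0} 𝒱 ℚ) {X : 𝒱.Obj} (π : ℕ → C.A (X.prod X))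
    (P : ℕ → Prop) [DecidablePred P] : C.A (X.prod X) :=
  ∑ i ∈ (Finset.range (2 * X.dim + 1)).filter P, π i

variable {H} {X : 𝒱.Obj} {π : ℕ → C.A (X.prod X)} (hπ : IsCK H X π)

include hπ

lemma parSum_comp (P Q : ℕ → Prop) [DecidablePred P] [DecidablePred Q] :
    C.comp (parSum C π P) (parSum C π Q) = parSum C π (fun i => P i ∧ Q i) := by
  rw [parSum, parSum, Pool.Agent.W550.Corr.sum_comp]
  have h1 : ∀ i ∈ (Finset.range (2 * X.dim + 1)).filter P,
      C.comp (π i) (∑ j ∈ (Finset.range (2 * X.dim + 1)).filter Q, π j) =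
      if Q i then π i else 0 := by
    intro i hi
    rw [comp_sum]
    rw [Finset.sum_congr rfl (fun j _ => hπ.comp_eq i j), Finset.sum_ite_eq]
    have hi' := (Finset.mem_filter.1 hi).1
    simp only [Finset.mem_filter, hi', true_and]
  rw [Finset.sum_congr rfl h1, parSum, ← Finset.sum_filter, Finset.filter_filter]

lemma parSum_mem (P : ℕ → Prop) [DecidablePred P] :
    parSum C π P ∈ C.gr (X.prod X) X.dim := Submodule.sum_mem _ fun i _ => hπ.deg i

lemma act_parSum (P : ℕ → Prop) [DecidablePred P] {m : ℤ} {a : H.A X} (ha : a ∈ H.gr X m) :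
    H.act (H.cl (parSum C π P)) a =
      ∑ i ∈ (Finset.range (2 * X.dim + 1)).filter P, if m = i then a else 0 := by
  rw [parSum, map_sum, act_sum]
  exact Finset.sum_congr rfl fun i _ => hπ.actH_eq i m ha

lemma act_parSum_of (P : ℕ → Prop) [DecidablePred P] {m : ℕ} {a : H.A X} (ha : a ∈ H.gr X m) :
    H.act (H.cl (parSum C π P)) a = if P m then a else 0 := by
  rw [act_parSum hπ P ha]
  by_cases h0 : a = 0
  · subst h0
    simp
  have hm : m ≤ 2 * X.dim := by
    by_contra h2
    rw [gr_top H (by omega)] at ha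
    exact h0 ((Submodule.mem_bot _).1 ha)
  split_ifs with h1
  · rw [Finset.sum_eq_single m]
    · rw [if_pos rfl]
    · intro b _ hb
      rw [if_neg (by exact_mod_cast hb.symm)]
    · intro h2
      exact absurd (Finset.mem_filter.2 ⟨Finset.mem_range.2 (by omega), h1⟩) h2
  · apply Finset.sum_eq_zero
    intro i hi
    rw [if_neg]
    intro h2
    have h3 : m = i := by exact_mod_cast h2
    subst h3
    exact h1 (Finset.mem_filter.1 hi).2

lemma two_smul_act (P : ℕ → Prop) [DecidablePred P] (e : K) (hP1 : ∀ m, P m → (-1 : K) ^ m = e)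
    (hP2 : ∀ m, ¬ P m → (-1 : K) ^ m = -e) (he : e * e = 1) (x : H.A X) :
    (2 : K) • H.act (H.cl (parSum C π P)) x = x + e • parL H X x := by
  have h1 : (2 : K) • H.actL (H.cl (parSum C π P)) = LinearMap.id + e • parL H X := by
    apply ext_gr H
    intro i a ha
    by_cases h0 : a = 0
    · rw [h0, map_zero, map_zero]
    obtain ⟨m, rfl⟩ := Int.eq_ofNat_of_zero_le (nonneg_of_mem H ha h0)
    simp only [LinearMap.smul_apply, LinearMap.add_apply, LinearMap.id_apply]
    rw [parL_apply H ha, H.actL_apply, act_parSum_of hπ P ha, zpow_natCast]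
    split_ifs with h2
    · rw [hP1 m h2, smul_smul, he, one_smul, two_smul]
    · rw [hP2 m h2, smul_smul, mul_neg, he, neg_smul, one_smul, smul_zero, add_neg_cancel]
  exact LinearMap.congr_fun h1 x

lemma act_parSum_mem (P : ℕ → Prop) [DecidablePred P] (V : Submodule K (H.A X))
    (hV : ∀ m : ℕ, P m → H.gr X m ≤ V) (x : H.A X) : H.act (H.cl (parSum C π P)) x ∈ V := by
  have h1 : ⨆ i, H.gr X i ≤ V.comap (H.actL (H.cl (parSum C π P))) := by
    apply iSup_le
    intro i a ha
    rw [Submodule.mem_comap, H.actL_apply]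
    by_cases h0 : a = 0
    · rw [h0, H.act_map_zero]
      exact V.zero_mem
    obtain ⟨m, rfl⟩ := Int.eq_ofNat_of_zero_le (nonneg_of_mem H ha h0)
    rw [act_parSum_of hπ P ha]
    split_ifs with h2
    · exact hV m h2 ha
    · exact V.zero_mem
  exact h1 (span_gr H X x)

end sums

/-- The part of the cohomology in the degrees congruent to `e` modulo 2. -/
def parPart (H : WeilTheoryData.{u, v, w} C K) (X : 𝒱.Obj) (e : ℤ) : Submodule K (H.A X) :=
  Submodule.span K {a | ∃ i : ℤ, a ∈ H.gr X (2 * i + e)}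

lemma finrank_parPart {X : 𝒱.Obj} {e : ℤ} {n : ℕ} (h : ParDimLT H X e n) :
    Module.finrank K (parPart H X e) < n := by
  have hf := hH.finite X
  obtain ⟨f, hf1, -, hf2⟩ := Submodule.exists_fun_fin_finrank_span_eq K
    {a : H.A X | ∃ i : ℤ, a ∈ H.gr X (2 * i + e)}
  by_contra hn
  rw [not_lt] at hn
  exact h (fun s => f (Fin.castLE hn s)) (fun s => hf1 _)
    (hf2.comp _ (Fin.castLE_injective hn))

lemma par_parPart {X : 𝒱.Obj} (e : ℤ) (c : K) (hf : (-1 : K) ^ e = c) (x : H.A X)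
    (hx : x ∈ parPart H X e) : parL H X x = c • x := by
  have h1 : parPart H X e ≤ LinearMap.eqLocus (parL H X) (c • LinearMap.id) := by
    apply Submodule.span_le.2
    rintro a ⟨i, ha⟩
    change parL H X a = c • a
    rw [parL_apply H ha, zpow_add₀ (by norm_num), hf, zpow_mul]
    simp
  exact h1 hx

lemma parSum_coh {X : 𝒱.Obj} {π : ℕ → C.A (X.prod X)} (hπ : IsCK H X π) (P : ℕ → Prop)
    [DecidablePred P] (e : ℤ) (hPe : ∀ m : ℕ, P m ↔ ∃ i : ℤ, (m : ℤ) = 2 * i + e) {n : ℕ}
    (χ : Perm (Fin n) →* ℤˣ) (hn : ParDimLT H X e n)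
    (hχ : ∀ i i' : Fin n, i ≠ i' → (((χ (swap i i') : ℤˣ) : ℤ) : K) = -((-1) ^ e))
    {W : 𝒱.Obj} (x y : Fin n → (W ⟶ X)) :
    chiSum H.toTheoryData χ (H.cl (parSum C π P)) x y = 0 := by
  have h2 := two_ne H
  have hc : ((-1 : K) ^ e = 1 ∨ (-1 : K) ^ e = -1) := by
    rcases Int.even_or_odd e with h | h
    · exact Or.inl h.neg_one_zpow
    · exact Or.inr h.neg_one_zpow
  have hcc : (-1 : K) ^ e * (-1) ^ e = 1 := by rcases hc with h | h <;> rw [h] <;> ring
  have hP1 : ∀ m, P m → (-1 : K) ^ m = (-1) ^ e := by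
    intro m hm
    obtain ⟨i, hi⟩ := (hPe m).1 hm
    rw [← zpow_natCast, hi, zpow_add₀ (by norm_num), zpow_mul]
    simp
  have hP2 : ∀ m, ¬ P m → (-1 : K) ^ m = -((-1) ^ e) := by
    intro m hm
    have h3 : ∃ i : ℤ, (m : ℤ) = 2 * i + e + 1 := by
      by_contra h4
      apply hm
      rw [hPe]
      by_contra h5
      push Not at h4 h5
      have h6 := h4 (((m : ℤ) - e) / 2)
      have h7 := h5 (((m : ℤ) - e) / 2)
      omega
    obtain ⟨i, hi⟩ := h3
    rw [← zpow_natCast, hi, zpow_add₀ (by norm_num), zpow_add₀ (by norm_num), zpow_mul]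
    simp
  refine chiSum_coh H (H.cl (parSum C π P)) (parPart H X e) ((-1) ^ e) hc
    ?_ ?_ ?_ (finrank_parPart H hn) χ hχ x y
  · apply act_parSum_mem hπ
    intro m hm a ha
    obtain ⟨i, hi⟩ := (hPe m).1 hm
    rw [hi] at ha
    exact Submodule.subset_span ⟨i, ha⟩
  · exact par_parPart H e _ rfl
  · intro x hx
    have h3 := two_smul_act hπ P ((-1) ^ e) hP1 hP2 hcc x
    rw [hx, smul_neg, smul_smul, hcc, one_smul, add_neg_cancel] at h3
    exact (smul_eq_zero.1 h3).resolve_left h2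

/-- **Kimura finite-dimensionality.** -/
theorem kimura (h : IsFrobFamily H Fr) (hab : IsAbelianCat (CHMot C)) (X : 𝒱.Obj) :
    ∃ p : C.A (X.prod X), IsEvenProj H X p ∧ ∀ n : ℕ,
      (ParDimLT H X 0 n → PowZero C p (n := n) Perm.sign) ∧
      (ParDimLT H X 1 n → PowZero C (dg C X - p) (n := n) 1) := by
  obtain ⟨D, hD1, hD2, -⟩ := exists_kunData H h hab X
  have hπ := isCK_ckProj (Fr := Fr) D hD1 hD2
  generalize ckProj (C := C) Fr X D = π at hπ
  have hcop : dg C X - parSum C π Even = parSum C π (fun i => ¬ Even i) := by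
    rw [sub_eq_iff_eq_add, parSum, parSum, add_comm, Finset.sum_filter_add_sum_filter_not]
    exact hπ.sum.symm
  refine ⟨parSum C π Even, ⟨parSum_mem hπ _, ?_, ?_⟩, ?_⟩
  · rw [parSum_comp hπ]
    simp only [and_self]
  · intro i a ha
    by_cases h0 : a = 0
    · rw [h0, H.act_map_zero, ite_self]
    obtain ⟨m, rfl⟩ := Int.eq_ofNat_of_zero_le (nonneg_of_mem H ha h0)
    rw [act_parSum_of hπ _ ha]
    simp only [Int.even_coe_nat]
  · intro n
    constructor
    · intro hn W x y
      obtain _ | n := n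
      · exact absurd (linearIndependent_empty_type) (hn (fun _ => 0) (fun s => s.elim0))
      have hcoh : ∀ (W : 𝒱.Obj) (x y : Fin (n + 1) → (W ⟶ X)),
          chiSum H.toTheoryData Perm.sign (H.cl (parSum C π Even)) x y = 0 := by
        intro W x y
        refine parSum_coh H hπ Even 0 ?_ Perm.sign hn ?_ x y
        · intro m
          constructor
          · rintro ⟨r, hr⟩
            exact ⟨r, by omega⟩
          · rintro ⟨r, hr⟩
            exact ⟨r.toNat, by omega⟩
        · intro i i' hii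
          rw [Perm.sign_swap hii]
          simp
      exact chiSum_zero H h hab (by rw [parSum_comp hπ]; simp only [and_self])
        (parSum_mem hπ Even) Perm.sign hcoh x y
    · intro hn W x y
      obtain _ | n := n
      · exact absurd (linearIndependent_empty_type) (hn (fun _ => 0) (fun s => s.elim0))
      rw [hcop]
      have hcoh : ∀ (W : 𝒱.Obj) (x y : Fin (n + 1) → (W ⟶ X)),
          chiSum H.toTheoryData 1 (H.cl (parSum C π (fun i => ¬ Even i))) x y = 0 := by
        intro W x y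
        refine parSum_coh H hπ (fun i => ¬ Even i) 1 ?_ 1 hn ?_ x y
        · intro m
          rw [Nat.not_even_iff_odd]
          constructor
          · rintro ⟨r, hr⟩
            exact ⟨r, by omega⟩
          · rintro ⟨r, hr⟩
            exact ⟨r.toNat, by omega⟩
        · intro i i' hii
          simp
      exact chiSum_zero H h hab (by rw [parSum_comp hπ]; simp only [and_self])
        (parSum_mem hπ (fun i => ¬ Even i)) 1 hcoh x y

end Pool.Agent.D0H75.CM
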