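import Mathlib

/-!
# Nilpotence
-/

set_option autoImplicit false
set_option linter.unusedSectionVars false

open Polynomial Module

namespace Pool.Agent.D0H75.CM

section

variable {K : Type*} [Field K]

/-- Splitting off the powers of `X`. -/
lemma exists_split (P : K[X]) (hP : P ≠ 0) (m : ℕ) : ∃ (r : ℕ) (Q u w : K[X]),
    P = X ^ r * Q ∧ u * X ^ m + w * Q = 1 := by
  obtain ⟨Q, h1, h2⟩ := Polynomial.exists_eq_pow_rootMultiplicity_mul_and_not_dvd P hP 0
  rw [map_zero, sub_zero] at h1 h2
  have h3 : IsCoprime (X ^ m) Q := ((irreducible_X.coprime_iff_not_dvd).2 h2).pow_left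
  obtain ⟨u, w, h⟩ := h3
  exact ⟨_, Q, u, w, h1, h⟩

/-- An operator all of whose positive powers have trace zero is nilpotent. -/
theorem nil_of_trace [CharZero K] {V : Type*} [AddCommGroup V] [Module K V] [Module.Finite K V]
    (A : Module.End K V) (h : ∀ n : ℕ, LinearMap.trace K V (A ^ (n + 1)) = 0) :
    IsNilpotent A := by
  have hP : minpoly K A ≠ 0 := minpoly.ne_zero (Algebra.IsIntegral.isIntegral A)
  obtain ⟨r, Q, u, w, h1, -⟩ := exists_split (minpoly K A) hP 0
  obtain ⟨r, Q, -, -, h1, -⟩ : ∃ (r : ℕ) (Q u w : K[X]), minpoly K A = X ^ r * Q ∧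
    u * X ^ 0 + w * Q = 1 := exists_split (minpoly K A) hP 0
  clear h1 Q r u w
  obtain ⟨Q, h1, h2⟩ := Polynomial.exists_eq_pow_rootMultiplicity_mul_and_not_dvd _ hP 0
  rw [map_zero, sub_zero] at h1 h2
  set r := rootMultiplicity 0 (minpoly K A) with hr
  have h3 : IsCoprime (X ^ (r + 1)) Q := ((irreducible_X.coprime_iff_not_dvd).2 h2).pow_left
  obtain ⟨u, w, h4⟩ := h3
  have h5 : aeval A (X ^ r * Q) = 0 := by rw [← h1, minpoly.aeval]
  set e : Module.End K V := aeval A (u * X ^ (r + 1)) with he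
  have h6 : e + aeval A (w * Q) = 1 := by rw [he, ← map_add, h4, map_one]
  have h7 : e * aeval A (w * Q) = 0 := by
    rw [he, ← map_mul]
    have : u * X ^ (r + 1) * (w * Q) = (u * X * w) * (X ^ r * Q) := by ring
    rw [this, map_mul, h5, mul_zero]
  have h8 : e * e = e := by
    have : e * e = e * (1 - aeval A (w * Q)) := by rw [← h6]; simp
    rw [this, mul_sub, h7, mul_one, sub_zero]
  have h9 : ∀ s : K[X], LinearMap.trace K V (aeval A (s * X)) = 0 := by
    intro s
    induction s using Polynomial.induction_on' with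
    | add p q hp hq => rw [add_mul, map_add, map_add, hp, hq, add_zero]
    | monomial n a =>
      have : (monomial n a : K[X]) * X = C a * X ^ (n + 1) := by
        rw [← C_mul_X_pow_eq_monomial, pow_succ, mul_assoc]
      rw [this, map_mul, aeval_C, map_pow, aeval_X, Algebra.algebraMap_eq_smul_one,
        smul_mul_assoc, one_mul, map_smul, h n, smul_zero]
  have h10 : LinearMap.trace K V e = 0 := by
    have : u * X ^ (r + 1) = (u * X ^ r) * X := by ring
    rw [he, this]
    exact h9 _
  have h11 : LinearMap.IsProj (LinearMap.range e) e :=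
    LinearMap.IsProj.mk (fun x => ⟨x, rfl⟩) (by
      rintro _ ⟨y, rfl⟩
      exact LinearMap.congr_fun h8 y)
  have h12 := h11.trace
  rw [h10] at h12
  have h13 : finrank K (LinearMap.range e) = 0 := by exact_mod_cast h12.symm
  have h14 : e = 0 := by
    rw [Submodule.finrank_eq_zero] at h13
    exact LinearMap.range_eq_bot.1 h13
  rw [h14, zero_add] at h6
  refine ⟨r, ?_⟩
  have : A ^ r = A ^ r * (aeval A (w * Q)) := by rw [h6, mul_one]
  rw [this]
  have e2 : A ^ r * aeval A (w * Q) = aeval A (w * (X ^ r * Q)) := by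
    have : w * (X ^ r * Q) = X ^ r * (w * Q) := by ring
    rw [this, map_mul (aeval A) (X ^ r), map_pow, aeval_X]
  rw [e2, map_mul, h5, mul_zero]

/-- If a ring homomorphism from a finite-dimensional algebra reflects units, it reflects
nilpotent elements. -/
theorem nil_of_reflects {E R : Type*} [Ring E] [Algebra K E] [Module.Finite K E] [Ring R]
    (ρ : E →+* R) (hρ : ∀ x, IsUnit (ρ x) → IsUnit x) (f : E) (hf : IsNilpotent (ρ f)) :
    IsNilpotent f := by
  obtain ⟨N, hN⟩ := hf
  have hP : minpoly K f ≠ 0 := minpoly.ne_zero (Algebra.IsIntegral.isIntegral f)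
  obtain ⟨r, Q, u, w, h1, h4⟩ := exists_split (minpoly K f) hP N
  have h5 : aeval f (X ^ r * Q) = 0 := by rw [← h1, minpoly.aeval]
  have h6 : aeval f u * f ^ N + aeval f w * aeval f Q = 1 := by
    rw [← map_mul, ← aeval_X (R := K) f, ← map_pow, aeval_X, ← map_mul, ← map_add, h4, map_one]
  have h7 : ρ (aeval f w) * ρ (aeval f Q) = 1 := by
    have := congrArg ρ h6
    rw [map_add, map_mul, map_mul, map_pow, hN, mul_zero, zero_add, map_one] at this
    exact this
  have h8 : ρ (aeval f Q) * ρ (aeval f w) = 1 := by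
    rw [← map_mul, ← map_mul, mul_comm Q w, map_mul, map_mul]
    exact h7
  have h9 : IsUnit (aeval f Q) := hρ _ ⟨⟨_, _, h8, h7⟩, rfl⟩
  refine ⟨r, ?_⟩
  rw [map_mul, map_pow, aeval_X] at h5
  obtain ⟨v, hv⟩ := h9
  rw [← hv] at h5
  have := congrArg (fun z => z * (↑v⁻¹ : E)) h5
  simpa using this

end

end Pool.Agent.D0H75.CM
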