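import Pool.Agent.D0H75.CM.Bij
import Pool.Agent.D0H75.CM.Nil

/-!
# Kunneth projectors as polynomials in the Frobenius (Katz-Messing)
-/

set_option autoImplicit false
set_option linter.unusedSectionVars false
set_option linter.unusedVariables false

open CategoryTheory AlgebraicGeometry MonoidalCategory Idempotents Limits Polynomial

universe u v w

namespace Pool.Agent.D0H75.CM

open Pool.Agent.H914 Pool.Agent.H914.VarClass Pool.Agent.H914.VarClass.Obj Pool.Agent.W492.BB
  Pool.Agent.W550.Corr Pool.Agent.TH133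

section crt

/-- Polynomials without common complex roots are coprime. -/
lemma coprime_of_pure {P Q : ℚ[X]} {a b : ℝ} (hab : a ≠ b)
    (hP : ∀ z : ℂ, aeval z P = 0 → ‖z‖ ^ 2 = a) (hQ : ∀ z : ℂ, aeval z Q = 0 → ‖z‖ ^ 2 = b) :
    IsCoprime P Q := by
  rw [Polynomial.isCoprime_iff_aeval_ne_zero_of_isAlgClosed ℚ ℂ]
  intro z
  by_contra hz
  push Not at hz
  exact hab ((hP z hz.1).symm.trans (hQ z hz.2))

/-- Solution of congruences modulo pairwise coprime polynomials. -/
lemma exists_crt {ι : Type*} [DecidableEq ι] (s : Finset ι) (P : ι → ℚ[X])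
    (hP : ∀ i j, i ≠ j → IsCoprime (P i) (P j)) (i : ι) :
    ∃ t a b : ℚ[X], t = 1 + a * P i ∧ t = b * ∏ j ∈ s.erase i, P j := by
  have h : IsCoprime (P i) (∏ j ∈ s.erase i, P j) := by
    apply IsCoprime.prod_right
    intro j hj
    exact hP i j (Finset.ne_of_mem_erase hj).symm
  obtain ⟨u, w, h1⟩ := h
  exact ⟨w * ∏ j ∈ s.erase i, P j, -u, w, by rw [← h1]; ring, rfl⟩

end crt

variable {k : Type u} [Field k] {𝒱 : VarClass k} {C : TheoryData.{u, v, 0} 𝒱 ℚ}
  [hC : IsChowProj C] {K : Type w} [Field K] (H : WeilTheoryData.{u, v, w} C K)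
  [hH : IsWeilFin H]

section eval

variable {V : Type*} [AddCommGroup V] [Module K V]

/-- The value of a rational polynomial at an operator. -/
noncomputable def ev [CharZero K] (B : Module.End K V) (s : ℚ[X]) : Module.End K V :=
  aeval B (s.map (algebraMap ℚ K))

lemma ev_mul [CharZero K] (B : Module.End K V) (s t : ℚ[X]) : ev B (s * t) = ev B s * ev B t := by
  rw [ev, Polynomial.map_mul, map_mul]; rfl

lemma ev_add [CharZero K] (B : Module.End K V) (s t : ℚ[X]) : ev B (s + t) = ev B s + ev B t := by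
  rw [ev, Polynomial.map_add, map_add]; rfl

lemma ev_one [CharZero K] (B : Module.End K V) : ev B 1 = 1 := by
  rw [ev, Polynomial.map_one, map_one]

lemma ev_eq [CharZero K] (B : Module.End K V) (s : ℚ[X]) :
    ev B s = ∑ i ∈ Finset.range (s.natDegree + 1), (s.coeff i : K) • B ^ i := by
  rw [ev, aeval_eq_sum_range, natDegree_map]
  apply Finset.sum_congr rfl
  intro i _
  rw [coeff_map]
  rfl

lemma ev_prod [CharZero K] (B : Module.End K V) {ι : Type*} (s : Finset ι) (P : ι → ℚ[X])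
    (v : V) (i : ι) (hi : i ∈ s) (h : ev B (P i) v = 0) : ev B (∏ j ∈ s, P j) v = 0 := by
  classical
  rw [← Finset.prod_erase_mul _ _ hi, ev_mul, Module.End.mul_apply, h, map_zero]

end eval

include hC in
/-- The range of the degrees of the cohomology. -/
lemma prL_sum (X : 𝒱.Obj) (a : H.A X) :
    ∑ i ∈ Finset.range (2 * X.dim + 1), prL H X i a = a := by
  have h : (∑ i ∈ Finset.range (2 * X.dim + 1), prL H X (i : ℤ)) = LinearMap.id := by
    apply ext_gr H
    intro j a ha
    rw [LinearMap.sum_apply, LinearMap.id_apply]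
    by_cases h0 : a = 0
    · rw [h0]
      simp
    · have h1 := nonneg_of_mem H ha h0
      have h2 : j ≤ 2 * X.dim := by
        by_contra h2
        rw [gr_top H (by omega)] at ha
        exact h0 ((Submodule.mem_bot _).1 ha)
      obtain ⟨n, rfl⟩ := Int.eq_ofNat_of_zero_le h1
      rw [Finset.sum_eq_single n]
      · exact prL_same H ha
      · intro b _ hb
        exact prL_ne H ha (by exact_mod_cast hb.symm)
      · intro hn
        exfalso
        apply hn
        rw [Finset.mem_range]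
        omega
  have h1 := LinearMap.congr_fun h a
  rwa [LinearMap.sum_apply] at h1

variable [Finite k] {Fr : ∀ X : 𝒱.Obj, X ⟶ X}

omit hC in
/-- The polynomials annihilating the Frobenius on `H^i(X)`. -/
lemma exists_weil_polys (h : IsFrobFamily H Fr) [CharZero K] (X : 𝒱.Obj) : ∃ P : ℕ → ℚ[X],
    (∀ i j, i ≠ j → IsCoprime (P i) (P j)) ∧
    (∀ (i : ℕ), ∀ a ∈ H.gr X i, ev (frobEnd H (Fr X)) (P i) a = 0) ∧
    (∀ (i : ℕ) (z : ℂ), aeval z (P i) = 0 → ‖z‖ ^ 2 = (Nat.card k : ℝ) ^ i) := by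
  have hq : (1 : ℝ) < Nat.card k := by exact_mod_cast Finite.one_lt_card (α := k)
  have h1 : ∀ i : ℕ, ∃ P : ℚ[X], P ≠ 0 ∧
      (∀ a ∈ H.gr X i, ∑ j ∈ Finset.range (P.natDegree + 1),
        (P.coeff j : K) • (frobEnd H (Fr X) ^ j) a = 0) ∧
      ∀ z : ℂ, aeval z P = 0 → ‖z‖ ^ 2 = (Nat.card k : ℝ) ^ (i : ℤ) := fun i => h.weights X i
  choose P hP0 hP1 hP2 using h1
  have hP3 : ∀ (i : ℕ) (z : ℂ), aeval z (P i) = 0 → ‖z‖ ^ 2 = (Nat.card k : ℝ) ^ i := by
    intro i z hz
    rw [hP2 i z hz, zpow_natCast]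
  refine ⟨P, ?_, ?_, hP3⟩
  · intro i j hij
    refine coprime_of_pure ?_ (hP3 i) (hP3 j)
    intro he
    exact hij (pow_right_injective₀ (by linarith) hq.ne' he)
  · intro i a ha
    rw [ev_eq, LinearMap.sum_apply]
    exact hP1 i a ha

end Pool.Agent.D0H75.CM
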