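import Pool.Agent.D0H75.CM.Rig

/-!
# The trace formula for Weil cohomology theories
-/

set_option autoImplicit false
set_option linter.unusedSectionVars false
set_option linter.unusedVariables false

open CategoryTheory AlgebraicGeometry MonoidalCategory

universe u v w

namespace Pool.Agent.D0H75.CM

open Pool.Agent.H914 Pool.Agent.H914.VarClass Pool.Agent.H914.VarClass.Obj Pool.Agent.W492.BB
  Pool.Agent.W550.Corr Pool.Agent.TH133

variable {k : Type u} [Field k] {𝒱 : VarClass k} {C : TheoryData.{u, v, 0} 𝒱 ℚ}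

variable [hC : IsChowProj C] {K : Type w} [Field K]
  (H : WeilTheoryData.{u, v, w} C K) [hH : IsWeilFin H]

section par

include hH

/-- The parity operator: `(-1) ^ i` on `H^i(X)`. -/
noncomputable def parL (X : 𝒱.Obj) : H.A X →ₗ[K] H.A X :=
  (DirectSum.toModule K ℤ (H.A X) (fun i => ((-1 : K) ^ i) • (H.gr X i).subtype)) ∘ₗ
    (LinearEquiv.ofBijective (DirectSum.coeLinearMap (H.gr X)) (H.isInternal X)).symm.toLinearMap

lemma parL_apply {X : 𝒱.Obj} {i : ℤ} {a : H.A X} (ha : a ∈ H.gr X i) :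
    parL H X a = (-1 : K) ^ i • a := by
  have h1 : (LinearEquiv.ofBijective (DirectSum.coeLinearMap (H.gr X)) (H.isInternal X)).symm a =
      DirectSum.lof K ℤ (fun i => H.gr X i) i ⟨a, ha⟩ := by
    rw [LinearEquiv.symm_apply_eq]
    change a = DirectSum.coeLinearMap (H.gr X) _
    rw [DirectSum.lof_eq_of, DirectSum.coeLinearMap_of]
  rw [parL, LinearMap.comp_apply, LinearEquiv.coe_coe, h1, DirectSum.toModule_lof]
  rfl

lemma parL_sq (X : 𝒱.Obj) (a : H.A X) : parL H X (parL H X a) = a := by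
  have h : parL H X ∘ₗ parL H X = LinearMap.id := by
    apply ext_gr H
    intro i a ha
    rw [LinearMap.comp_apply, parL_apply H ha, map_smul, parL_apply H ha, smul_smul,
      ← mul_zpow]
    simp
  exact LinearMap.congr_fun h a

/-- Homogeneous maps of even degree commute with the parity operator. -/
lemma parL_comm {X Y : 𝒱.Obj} (f : H.A X →ₗ[K] H.A Y) (e : ℤ)
    (hf : ∀ i, ∀ a ∈ H.gr X i, f a ∈ H.gr Y (i + 2 * e)) (a : H.A X) :
    parL H Y (f a) = f (parL H X a) := by
  have h : parL H Y ∘ₗ f = f ∘ₗ parL H X := by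
    apply ext_gr H
    intro i a ha
    rw [LinearMap.comp_apply, LinearMap.comp_apply, parL_apply H ha,
      parL_apply H (hf i a ha), map_smul, zpow_add₀ (by norm_num), zpow_mul]
    simp
  exact LinearMap.congr_fun h a

end par

section norm

variable [hP : HasPoint 𝒱]

include hC hH hP

lemma tr_pt_ne_zero : H.tr (pt 𝒱) (1 : H.A (pt 𝒱)) ≠ 0 := by
  intro h
  apply hH.one_ne_zero (pt 𝒱)
  apply H.nondeg
  have h2 : H.tr (pt 𝒱) ∘ₗ LinearMap.mulLeft K (1 : H.A (pt 𝒱)) = 0 := by
    apply ext_gr H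
    intro i a ha
    rw [LinearMap.comp_apply, LinearMap.mulLeft_apply, one_mul, LinearMap.zero_apply]
    by_cases hi : i = 0
    · subst hi
      obtain ⟨c, rfl⟩ := hH.gr_zero (pt 𝒱) a ha
      rw [map_smul, h, smul_zero]
    · exact hH.tr_eq_zero (pt 𝒱) i a ha (by rw [pt_dim]; simpa using hi)
  intro b
  exact LinearMap.congr_fun h2 b

/-- The normalised orientation. -/
noncomputable def eps (X : 𝒱.Obj) : H.A X →ₗ[K] K := (H.tr (pt 𝒱) (1 : H.A (pt 𝒱)))⁻¹ • H.tr X

lemma pt_scalar (y : H.A (pt 𝒱)) : y = (eps H (pt 𝒱) y) • (1 : H.A (pt 𝒱)) := by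
  have h : (LinearMap.id : H.A (pt 𝒱) →ₗ[K] H.A (pt 𝒱)) =
      (eps H (pt 𝒱)).smulRight (1 : H.A (pt 𝒱)) := by
    apply ext_gr H
    intro i a ha
    rw [LinearMap.id_apply, LinearMap.smulRight_apply]
    by_cases hi : i = 0
    · subst hi
      obtain ⟨c, rfl⟩ := hH.gr_zero (pt 𝒱) a ha
      rw [eps, LinearMap.smul_apply, map_smul, smul_eq_mul, smul_eq_mul, mul_comm c, ← mul_assoc,
        inv_mul_cancel₀ (tr_pt_ne_zero H), one_mul]
    · have h0 : a = 0 := by
        by_contra hne
        have h1 := nonneg_of_mem H ha hne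
        rw [gr_top H (by rw [pt_dim]; push_cast; omega)] at ha
        exact hne ((Submodule.mem_bot _).1 ha)
      rw [h0, map_zero, zero_smul]
  exact LinearMap.congr_fun h y

lemma push_toPt (X : 𝒱.Obj) (y : H.A X) : H.push (toPt X) y = eps H X y • (1 : H.A (pt 𝒱)) := by
  rw [pt_scalar H (H.push (toPt X) y), eps, eps, LinearMap.smul_apply, LinearMap.smul_apply,
    H.tr_push]

lemma push_snd_fst (X Y : 𝒱.Obj) (y : H.A X) :
    H.push (snd X Y) (H.pull (fst X Y) y) = eps H X y • (1 : H.A Y) := by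
  have h1 := H.base_fst (toPt X) Y y
  rw [push_toPt, map_smul, map_one (H.pull (fst (pt 𝒱) Y))] at h1
  have h2 := congrArg (H.push (snd (pt 𝒱) Y)) h1
  rw [← H.push_comp, prodMap_snd, Category.comp_id, map_smul] at h2
  rw [← h2]
  congr 1
  have h3 : H.push (snd (pt 𝒱) Y) 1 = 1 :=
    (inferInstance : HasIso H.toTheoryData).push_one _ _ (unitL1 Y) (unitL2 Y)
  exact h3

/-- The action of a decomposable class. -/
lemma act_dec {X Y : 𝒱.Obj} (a : H.A X) (b : H.A Y) (x : H.A X) :
    H.act (H.pull (snd X Y) b * H.pull (fst X Y) a) x = eps H X (a * x) • b := by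
  rw [TheoryData.act_apply, mul_assoc, ← map_mul, H.proj_left, push_snd_fst, mul_smul_comm,
    mul_one]

lemma eps_comm {X : 𝒱.Obj} {i j : ℤ} {a b : H.A X} (ha : a ∈ H.gr X i) (hb : b ∈ H.gr X j) :
    eps H X (b * a) = (-1 : K) ^ j * eps H X (a * b) := by
  have hc := hH.comm hb ha
  rw [hc, map_smul, smul_eq_mul]
  by_cases h : i + j = 2 * X.dim
  · congr 1
    have e : j * i = j + 2 * (j * X.dim) - j * (j + 1) := by
      have : i = 2 * X.dim - j := by linarith
      rw [this]; ring
    have h2 : Even (j * (j + 1)) := Int.even_mul_succ_self j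
    obtain ⟨r, hr⟩ := h2
    have h3 : j + 2 * (j * X.dim) - j * (j + 1) = j + 2 * (j * X.dim - r) := by rw [hr]; ring
    rw [e, h3, zpow_add₀ (by norm_num), zpow_mul]
    simp
  · have h0 : eps H X (a * b) = 0 := by
      rw [eps, LinearMap.smul_apply, hH.tr_eq_zero X (i + j) _ (H.mul_mem ha hb) h, smul_zero]
    rw [h0, mul_zero, mul_zero]

/-- The cohomology of a product is spanned by decomposable classes. -/
lemma kun_ind {X Y : 𝒱.Obj} {p : H.A (X.prod Y) → Prop} (hz : p 0)
    (hadd : ∀ a b, p a → p b → p (a + b)) (hsm : ∀ (c : K) a, p a → p (c • a))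
    (h : ∀ i j, ∀ a ∈ H.gr X i, ∀ b ∈ H.gr Y j, p (H.pull (snd X Y) b * H.pull (fst X Y) a))
    (c : H.A (X.prod Y)) : p c := by
  have h1 : c ∈ ⨆ i, H.gr (X.prod Y) i := span_gr H _ c
  have key : ∀ m, ∀ c ∈ H.gr (X.prod Y) m, p c := by
    intro m c hc
    have h2 := H.kunneth X Y m hc
    clear hc
    induction h2 using Submodule.span_induction with
    | mem x hx =>
      obtain ⟨l, a, b, ha, hb, rfl⟩ := hx
      rw [hH.comm (H.pull_mem (fst X Y) ha) (H.pull_mem (snd X Y) hb)]
      exact hsm _ _ (h _ _ a ha b hb)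
    | zero => exact hz
    | add x y hx hy hx' hy' => exact hadd _ _ hx' hy'
    | smul r x hx hx' => exact hsm _ _ hx'
  induction h1 using Submodule.iSup_induction' with
  | mem i x hx => exact key i x hx
  | zero => exact hz
  | add x y _ _ hx hy => exact hadd _ _ hx hy

lemma act_linear {X Y : 𝒱.Obj} (c : H.A (X.prod Y)) (x : H.A X) : H.act c x = H.actL c x := rfl

/-- **The trace formula.** -/
theorem trace_formula {X : 𝒱.Obj} (c : H.A (X.prod X)) :
    LinearMap.trace K (H.A X) (parL H X ∘ₗ H.actL c) = eps H X (H.pull (dia X) c) := by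
  have hf := hH.finite X
  have e1 : dia X ≫ snd X X = 𝟙 X := lift_snd _ _
  have e2 : dia X ≫ fst X X = 𝟙 X := lift_fst _ _
  refine kun_ind H (p := fun c => LinearMap.trace K (H.A X) (parL H X ∘ₗ H.actL c) =
    eps H X (H.pull (dia X) c)) ?_ ?_ ?_ ?_ c
  · have h0 : H.actL (0 : H.A (X.prod X)) = 0 := by
      ext x
      exact H.act_zero x
    rw [h0, LinearMap.comp_zero, map_zero, map_zero, map_zero]
  · intro a b ha hb
    have h0 : H.actL (a + b) = H.actL a + H.actL b := by
      ext x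
      exact H.act_add a b x
    rw [h0, LinearMap.comp_add, map_add, map_add, map_add, ha, hb]
  · intro r a ha
    have h0 : H.actL (r • a) = r • H.actL a := by
      ext x
      change H.act (r • a) x = r • H.act a x
      rw [← actB_apply, ← actB_apply, map_smul, LinearMap.smul_apply]
    rw [h0, LinearMap.comp_smul, map_smul, map_smul, map_smul, ha]
  · intro i j a ha b hb
    have h0 : parL H X ∘ₗ H.actL (H.pull (snd X X) b * H.pull (fst X X) a) =
        (eps H X ∘ₗ LinearMap.mulLeft K a).smulRight ((-1 : K) ^ j • b) := by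
      ext x
      rw [LinearMap.comp_apply]
      change parL H X (H.act _ x) = _
      rw [act_dec, map_smul, parL_apply H hb]
      rfl
    rw [h0, LinearMap.trace_smulRight, map_mul (H.pull (dia X)), ← H.pull_comp, ← H.pull_comp,
      e1, e2, H.pull_id, H.pull_id, map_smul, LinearMap.comp_apply, LinearMap.mulLeft_apply,
      eps_comm H ha hb, smul_eq_mul]

end norm

end Pool.Agent.D0H75.CM
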