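import Pool.Agent.D0H75.CM.Cons2

/-!
# Hard Lefschetz for Chow motives
-/

set_option autoImplicit false
set_option linter.unusedSectionVars false
set_option linter.unusedVariables false

open CategoryTheory AlgebraicGeometry MonoidalCategory Idempotents Limits Polynomial

universe u v w

namespace Pool.Agent.D0H75.CM

open Pool.Agent.H914 Pool.Agent.H914.VarClass Pool.Agent.H914.VarClass.Obj Pool.Agent.W492.BB
  Pool.Agent.W550.Corr Pool.Agent.TH133

variable {k : Type u} [Field k] {𝒱 : VarClass k} {C : TheoryData.{u, v, 0} 𝒱 ℚ}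
  [hC : IsChowProj C]

section poly

variable (Fr : ∀ X : 𝒱.Obj, X ⟶ X)

/-- The classes of the powers of the Frobenius. -/
lemma val_frC_pow (X : 𝒱.Obj) (m m' : ℤ) (n : ℕ) :
    CObj.val (frC (C := C) Fr ⟨X, m⟩ ^ n : End (⟨X, m⟩ : CObj C)) =
      CObj.val (frC (C := C) Fr ⟨X, m'⟩ ^ n : End (⟨X, m'⟩ : CObj C)) := by
  induction n with
  | zero => rfl
  | succ n ih =>
    rw [pow_succ, pow_succ]
    change C.comp (C.cograph (Fr X)) (CObj.val (frC (C := C) Fr ⟨X, m⟩ ^ n : End (⟨X, m⟩ : CObj C))) =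
      C.comp (C.cograph (Fr X)) (CObj.val (frC (C := C) Fr ⟨X, m'⟩ ^ n : End (⟨X, m'⟩ : CObj C)))
    rw [ih]

/-- The class underlying an endomorphism, as a linear map. -/
noncomputable def valL (M : CObj C) : End M →ₗ[ℚ] C.A (M.X.prod M.X) where
  toFun f := CObj.val f
  map_add' f g := rfl
  map_smul' q f := rfl

/-- The classes of the polynomials in the Frobenius. -/
lemma val_aeval (X : 𝒱.Obj) (m : ℤ) (s : ℚ[X]) :
    CObj.val (aeval (frC (C := C) Fr ⟨X, m⟩) s : End (⟨X, m⟩ : CObj C)) =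
      ∑ i ∈ Finset.range (s.natDegree + 1), s.coeff i •
        CObj.val (frC (C := C) Fr ⟨X, 0⟩ ^ i : End (⟨X, 0⟩ : CObj C)) := by
  have h1 : valL (⟨X, m⟩ : CObj C) (aeval (frC (C := C) Fr ⟨X, m⟩) s) =
      ∑ i ∈ Finset.range (s.natDegree + 1), s.coeff i •
        valL (⟨X, m⟩ : CObj C) (frC (C := C) Fr ⟨X, m⟩ ^ i) := by
    rw [aeval_eq_sum_range, map_sum]
    apply Finset.sum_congr rfl
    intro i _
    rw [map_smul]
  refine h1.trans (Finset.sum_congr rfl fun i _ => ?_)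
  congr 1
  exact val_frC_pow Fr X m 0 i

/-- The class of a polynomial in the Frobenius. -/
noncomputable def polC (X : 𝒱.Obj) (s : ℚ[X]) : C.A (X.prod X) :=
  CObj.val (aeval (frC (C := C) Fr ⟨X, 0⟩) s : End (⟨X, 0⟩ : CObj C))

lemma val_aeval' (X : 𝒱.Obj) (m : ℤ) (s : ℚ[X]) :
    CObj.val (aeval (frC (C := C) Fr ⟨X, m⟩) s : End (⟨X, m⟩ : CObj C)) = polC Fr X s := by
  rw [polC, val_aeval, val_aeval]

lemma polC_mem (X : 𝒱.Obj) (s : ℚ[X]) : polC (C := C) Fr X s ∈ C.gr (X.prod X) X.dim := by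
  have h := CObj.mem_val (aeval (frC (C := C) Fr ⟨X, 0⟩) s : (⟨X, 0⟩ : CObj C) ⟶ ⟨X, 0⟩)
  rwa [sub_self, add_zero] at h

/-- The action of a polynomial in the Frobenius on a class on which the Frobenius acts as a
scalar. -/
lemma act_polC (X : 𝒱.Obj) (s : ℚ[X]) (a : C.A X) (q : ℚ) (ha : C.pull (Fr X) a = q • a) :
    C.act (polC Fr X s) a = s.eval q • a := by
  have h1 : ∀ i : ℕ, C.act (X := X) (Y := X)
      (CObj.val (frC (C := C) Fr ⟨X, 0⟩ ^ i : End (⟨X, 0⟩ : CObj C))) a = q ^ i • a := by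
    intro i
    induction i with
    | zero =>
      rw [pow_zero, pow_zero, one_smul]
      exact act_dg C a
    | succ n ih =>
      rw [pow_succ, pow_succ]
      change C.act (C.comp (C.cograph (Fr X)) (CObj.val (frC (C := C) Fr ⟨X, 0⟩ ^ n : End
        (⟨X, 0⟩ : CObj C)))) a = _
      rw [C.act_comp, C.act_cograph, ha, act_map_smul, ih, smul_smul, mul_comm]
  rw [polC, val_aeval, ← actB_apply, map_sum, LinearMap.sum_apply, eval_eq_sum_range,
    Finset.sum_smul]
  apply Finset.sum_congr rfl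
  intro i _
  rw [map_smul, LinearMap.smul_apply, actB_apply, h1, smul_smul]

end poly

end Pool.Agent.D0H75.CM
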