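import Mathlib

/-!
# Linear algebra: multiplicities of the eigenvalue one from supertraces
-/

set_option autoImplicit false
set_option linter.unusedSectionVars false

open Polynomial Module

namespace Pool.Agent.D0H75.CM

section

variable {K : Type*} [Field K] [CharZero K] {V W : Type*} [AddCommGroup V] [Module K V]
  [Module.Finite K V] [AddCommGroup W] [Module K W] [Module.Finite K W]

/-- The multiplicity of `1` as an eigenvalue of the operator `A`. -/
noncomputable def mult (A : Module.End K V) : ℕ := finrank K (A.maxGenEigenspace 1)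

/-- On its generalised eigenspace for the eigenvalue one `ε` is the identity, if it is on the
eigenvectors. -/
lemma par_eq_of_mem {A ε : Module.End K V} (hc : Commute A ε) (h2 : ε * ε = 1)
    (h1 : ∀ v, A v = v → ε v = v) {v : V} (hv : v ∈ A.maxGenEigenspace 1) : ε v = v := by
  -- the vector `w = v - ε v` satisfies `ε w = - w`
  rw [Module.End.mem_maxGenEigenspace] at hv
  obtain ⟨n, hn⟩ := hv
  have key : ∀ n : ℕ, ∀ w : V, ε w = -w → ((A - (1 : K) • 1) ^ n) w = 0 → w = 0 := by
    intro n
    induction n with
    | zero =>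
      intro w _ h
      simpa using h
    | succ n ih =>
      intro w hw h
      have h3 : ε ((A - (1 : K) • 1) w) = -((A - (1 : K) • 1) w) := by
        have h4 : ε (A w) = A (ε w) := by
          have := LinearMap.congr_fun hc.eq w
          simpa using this.symm
        simp only [one_smul, LinearMap.sub_apply, Module.End.one_apply, map_sub, h4, hw, map_neg]
        abel
      have h5 : (A - (1 : K) • 1) w = 0 := by
        apply ih _ h3
        rw [pow_succ] at h
        exact h
      have h6 : A w = w := by
        simp only [one_smul, LinearMap.sub_apply, Module.End.one_apply] at h5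
        exact sub_eq_zero.1 h5
      have h7 := h1 w h6
      rw [hw] at h7
      have h8 : (2 : K) • w = 0 := by
        rw [two_smul]
        nth_rewrite 1 [← h7]
        simp
      rcases smul_eq_zero.1 h8 with h9 | h9
      · exact absurd h9 two_ne_zero
      · exact h9
  have h3 : v - ε v = 0 := by
    apply key n
    · rw [map_sub]
      have : ε (ε v) = v := by
        have := LinearMap.congr_fun h2 v
        simpa using this
      rw [this]; abel
    · have hc' : Commute ((A - (1 : K) • 1) ^ n) ε := by
        apply Commute.pow_left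
        apply Commute.sub_left hc
        rw [one_smul]
        exact Commute.one_left _
      have h4 : ((A - (1 : K) • 1) ^ n) (ε v) = ε (((A - (1 : K) • 1) ^ n) v) := by
        have := LinearMap.congr_fun hc'.eq v
        simpa using this
      rw [map_sub, h4, hn, map_zero, sub_zero]
  exact (sub_eq_zero.1 h3).symm

omit [CharZero K] in
lemma projector_aux (D : Module.End K V) (P g u v : K[X]) (a : ℕ)
    (hg : P = (X - C (1 : K)) ^ a * g) (hg' : ¬ (X - C (1 : K)) ∣ g)
    (huv : u * (X - C (1 : K)) ^ (a + 1) + v * g = 1) (hD : minpoly K D ∣ P) :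
    (∀ w ∈ D.maxGenEigenspace 1, aeval D (v * g) w = w) ∧
      (∀ w, aeval D (v * g) w ∈ D.maxGenEigenspace 1) := by
  have hPD : aeval D ((X - C (1 : K)) ^ a * g) = 0 := by
    rw [← hg]
    obtain ⟨r, hr⟩ := hD
    rw [hr, map_mul, minpoly.aeval, zero_mul]
  have hX : aeval D (X - C (1 : K)) = D - (1 : K) • 1 := by
    rw [map_sub, aeval_X, aeval_C, Algebra.algebraMap_eq_smul_one]
  constructor
  · intro w hw
    -- `(X - 1) ^ (a+1)` kills `w`
    have h1 : ((D - (1 : K) • 1) ^ (a + 1)) w = 0 := by
      rw [Module.End.mem_maxGenEigenspace] at hw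
      obtain ⟨n, hn⟩ := hw
      -- `w` is killed by the gcd of `(X-1)^n` and `(X-1)^a g`
      have hcop2 : IsCoprime ((X - C (1 : K)) ^ n) g := by
        apply IsCoprime.pow_left
        exact (Polynomial.irreducible_X_sub_C (1 : K)).coprime_iff_not_dvd.2 hg'
      obtain ⟨r, s, hrs⟩ := hcop2
      have e1 : (X - C (1 : K)) ^ (a + 1) = r * (X - C 1) ^ (a + 1) * (X - C (1 : K)) ^ n +
          s * (X - C 1) * ((X - C (1 : K)) ^ a * g) := by
        calc (X - C (1 : K)) ^ (a + 1) = (r * (X - C (1 : K)) ^ n + s * g) *
              (X - C (1 : K)) ^ (a + 1) := by rw [hrs, one_mul]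
          _ = _ := by ring
      have e2 : aeval D ((X - C (1 : K)) ^ (a + 1)) w = 0 := by
        rw [e1, map_add, map_mul, map_mul _ (s * (X - C 1)), hPD, mul_zero, add_zero,
          Module.End.mul_apply, map_pow _ _ n, hX, hn, map_zero]
      rwa [map_pow, hX] at e2
    have e3 : v * g = 1 - u * (X - C (1 : K)) ^ (a + 1) := by
      rw [← huv]; ring
    rw [e3, map_sub, map_one, map_mul, map_pow, hX, LinearMap.sub_apply, Module.End.one_apply,
      Module.End.mul_apply, h1, map_zero, sub_zero]
  · intro w
    rw [Module.End.mem_maxGenEigenspace]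
    refine ⟨a, ?_⟩
    rw [← hX, ← map_pow, ← Module.End.mul_apply, ← map_mul]
    have e4 : (X - C (1 : K)) ^ a * (v * g) = v * ((X - C (1 : K)) ^ a * g) := by ring
    rw [e4, map_mul, hPD, mul_zero, LinearMap.zero_apply]

/-- A polynomial which is the projector to the generalised eigenspace. -/
lemma exists_projector (A : Module.End K V) (B : Module.End K W) :
    ∃ f : K[X], f.eval 1 = 1 ∧
      (∀ v ∈ A.maxGenEigenspace 1, aeval A f v = v) ∧
      (∀ v, aeval A f v ∈ A.maxGenEigenspace 1) ∧
      (∀ v ∈ B.maxGenEigenspace 1, aeval B f v = v) ∧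
      (∀ v, aeval B f v ∈ B.maxGenEigenspace 1) := by
  have hA : minpoly K A ≠ 0 := minpoly.ne_zero (Algebra.IsIntegral.isIntegral A)
  have hB : minpoly K B ≠ 0 := minpoly.ne_zero (Algebra.IsIntegral.isIntegral B)
  have hP : minpoly K A * minpoly K B ≠ 0 := mul_ne_zero hA hB
  obtain ⟨g, hg, hg'⟩ := Polynomial.exists_eq_pow_rootMultiplicity_mul_and_not_dvd
    (minpoly K A * minpoly K B) hP 1
  have hcop : IsCoprime ((X - C (1 : K)) ^
      (rootMultiplicity 1 (minpoly K A * minpoly K B) + 1)) g := by
    apply IsCoprime.pow_left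
    exact (Polynomial.irreducible_X_sub_C (1 : K)).coprime_iff_not_dvd.2 hg'
  obtain ⟨u, v, huv⟩ := hcop
  have g1 := projector_aux A _ g u v _ hg hg' huv (dvd_mul_right _ _)
  have g2 := projector_aux B _ g u v _ hg hg' huv (dvd_mul_left _ _)
  refine ⟨v * g, ?_, g1.1, g1.2, g2.1, g2.2⟩
  have h3 := congrArg (Polynomial.eval 1) huv
  simpa using h3

/-- The supertrace of the projector. -/
lemma trace_projector {A ε : Module.End K V} (hc : Commute A ε) (h2 : ε * ε = 1)
    (h1 : ∀ v, A v = v → ε v = v) {E : Module.End K V}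
    (hE : ∀ v ∈ A.maxGenEigenspace 1, E v = v) (hE' : ∀ v, E v ∈ A.maxGenEigenspace 1) :
    LinearMap.trace K V (ε * E) = (mult A : K) := by
  have h3 : ε * E = E := by
    apply LinearMap.ext
    intro v
    exact par_eq_of_mem hc h2 h1 (hE' v)
  rw [h3]
  have h4 : LinearMap.IsProj (A.maxGenEigenspace 1) E := ⟨hE', hE⟩
  exact h4.trace

/-- The multiplicities of the eigenvalue one, from the supertraces of the powers. -/
theorem mult_eq {A ε : Module.End K V} (hc : Commute A ε) (h2 : ε * ε = 1)
    (h1 : ∀ v, A v = v → ε v = v) {B δ : Module.End K W} (hc' : Commute B δ) (h2' : δ * δ = 1)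
    (h1' : ∀ v, B v = v → δ v = v)
    (h : ∀ n : ℕ, LinearMap.trace K V (ε * A ^ n) = 1 + LinearMap.trace K W (δ * B ^ n)) :
    mult A = 1 + mult B := by
  obtain ⟨f, hf1, hA1, hA2, hB1, hB2⟩ := exists_projector A B
  have key : ∀ f : K[X], LinearMap.trace K V (ε * aeval A f) =
      f.eval 1 + LinearMap.trace K W (δ * aeval B f) := by
    intro f
    induction f using Polynomial.induction_on' with
    | add p q hp hq =>
      rw [map_add, mul_add, map_add, hp, hq, map_add, mul_add, map_add, eval_add]
      ring
    | monomial n a =>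
      rw [aeval_monomial, aeval_monomial, Algebra.algebraMap_eq_smul_one,
        Algebra.algebraMap_eq_smul_one, smul_mul_assoc, one_mul, smul_mul_assoc, one_mul,
        mul_smul_comm, mul_smul_comm, map_smul, map_smul, h n, eval_monomial, one_pow]
      simp only [smul_eq_mul]
      ring
  have h3 := key f
  rw [trace_projector hc h2 h1 hA1 hA2, trace_projector hc' h2' h1' hB1 hB2, hf1] at h3
  exact_mod_cast h3

end

end Pool.Agent.D0H75.CM
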