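import Pool.Agent.D0H75.CM.Point

/-!
# The symmetric monoidal structure on the category of correspondences
-/

set_option autoImplicit false
set_option linter.unusedSectionVars false

open CategoryTheory AlgebraicGeometry MonoidalCategory

universe u v w

namespace Pool.Agent.D0H75.CM

open Pool.Agent.H914 Pool.Agent.H914.VarClass Pool.Agent.H914.VarClass.Obj Pool.Agent.W492.BB
  Pool.Agent.W550.Corr Pool.Agent.TH133

variable {k : Type u} [Field k] {𝒱 : VarClass k} {C : TheoryData.{u, v, 0} 𝒱 ℚ}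
  [hC : IsChowProj C]

section objects

/-- The tensor product of objects. -/
noncomputable def tObj (M N : CObj C) : CObj C := ⟨M.X.prod N.X, M.m + N.m⟩

/-- The tensor product of morphisms. -/
noncomputable def tHom {M N P Q : CObj C} (f : M ⟶ N) (g : P ⟶ Q) : tObj M P ⟶ tObj N Q :=
  CObj.mkH (tens C (CObj.val f) (CObj.val g)) (by
    have h := tens_mem C (CObj.mem_val f) (CObj.mem_val g)
    have e : (M.X.dim : ℤ) + (N.m - M.m) + (P.X.dim + (Q.m - P.m)) =
        ((M.X.prod P.X).dim : ℤ) + (N.m + Q.m - (M.m + P.m)) := by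
      rw [dim_prod]; push_cast; ring
    rw [e] at h
    exact h)

lemma val_tHom {M N P Q : CObj C} (f : M ⟶ N) (g : P ⟶ Q) :
    CObj.val (tHom f g) = tens C (CObj.val f) (CObj.val g) := rfl

/-- The associator. -/
noncomputable def tAssoc (M N P : CObj C) : tObj (tObj M N) P ≅ tObj M (tObj N P) :=
  isoOf (M := tObj (tObj M N) P) (N := tObj M (tObj N P)) (aI M.X N.X P.X) (aJ M.X N.X P.X)
    aI_aJ aJ_aI (Nat.add_assoc _ _ _) (add_assoc _ _ _)

lemma val_tAssoc_hom (M N P : CObj C) :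
    CObj.val (tAssoc M N P).hom = C.graph (aI M.X N.X P.X) := rfl

lemma val_tAssoc_inv (M N P : CObj C) :
    CObj.val (tAssoc M N P).inv = C.graph (aJ M.X N.X P.X) := rfl

/-- The braiding. -/
noncomputable def tBraid (M N : CObj C) : tObj M N ≅ tObj N M :=
  isoOf (M := tObj M N) (N := tObj N M) (sw M.X N.X) (sw N.X M.X)
    sw_sw sw_sw (Nat.add_comm _ _) (add_comm _ _)

lemma val_tBraid_hom (M N : CObj C) : CObj.val (tBraid M N).hom = C.graph (sw M.X N.X) := rfl

variable [hP : HasPoint 𝒱]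

lemma unitL1 (X : 𝒱.Obj) : snd (pt 𝒱) X ≫ Obj.lift (toPt X) (𝟙 X) = 𝟙 ((pt 𝒱).prod X) := by
  apply prod_ext
  · exact toPt_unique _ _
  · rw [Category.assoc, lift_snd, Category.comp_id, Category.id_comp]

lemma unitL2 (X : 𝒱.Obj) : Obj.lift (toPt X) (𝟙 X) ≫ snd (pt 𝒱) X = 𝟙 X := lift_snd _ _

lemma unitR1 (X : 𝒱.Obj) : fst X (pt 𝒱) ≫ Obj.lift (𝟙 X) (toPt X) = 𝟙 (X.prod (pt 𝒱)) := by
  apply prod_ext
  · rw [Category.assoc, lift_fst, Category.comp_id, Category.id_comp]
  · exact toPt_unique _ _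

lemma unitR2 (X : 𝒱.Obj) : Obj.lift (𝟙 X) (toPt X) ≫ fst X (pt 𝒱) = 𝟙 X := lift_fst _ _

variable (C) in
/-- The unit. -/
noncomputable def tOne : CObj C := ⟨pt 𝒱, 0⟩

/-- The left unitor. -/
noncomputable def tLeft (M : CObj C) : tObj (tOne C) M ≅ M :=
  isoOf (M := tObj (tOne C) M) (N := M) (snd (pt 𝒱) M.X) (Obj.lift (toPt M.X) (𝟙 _))
    (unitL1 _) (unitL2 _) (Nat.zero_add _) (zero_add _)

lemma val_tLeft_hom (M : CObj C) : CObj.val (tLeft M).hom = C.graph (snd (pt 𝒱) M.X) := rfl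
lemma val_tLeft_inv (M : CObj C) :
    CObj.val (tLeft M).inv = C.graph (Obj.lift (toPt M.X) (𝟙 _)) := rfl

/-- The right unitor. -/
noncomputable def tRight (M : CObj C) : tObj M (tOne C) ≅ M :=
  isoOf (M := tObj M (tOne C)) (N := M) (fst M.X (pt 𝒱)) (Obj.lift (𝟙 _) (toPt M.X))
    (unitR1 _) (unitR2 _) (Nat.add_zero _) (add_zero _)

lemma val_tRight_hom (M : CObj C) : CObj.val (tRight M).hom = C.graph (fst M.X (pt 𝒱)) := rfl
lemma val_tRight_inv (M : CObj C) :
    CObj.val (tRight M).inv = C.graph (Obj.lift (𝟙 _) (toPt M.X)) := rfl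

end objects

section naturality

variable {X X' Y Y' Z Z' W : 𝒱.Obj}

lemma pull_tens {V : 𝒱.Obj} (f : V ⟶ X.prod Z) (g : V ⟶ Y.prod W) (Γ : C.A (X.prod Y))
    (Δ : C.A (Z.prod W)) : C.pull (Obj.lift f g) (tens C Γ Δ) =
      C.pull (Obj.lift (f ≫ fst X Z) (g ≫ fst Y W)) Γ *
        C.pull (Obj.lift (f ≫ snd X Z) (g ≫ snd Y W)) Δ := by
  rw [tens, map_mul, ← C.pull_comp, ← C.pull_comp, lift_prodMap, lift_prodMap]

lemma prodMap_lift (f : X ⟶ Y) (g : Z ⟶ W) :
    prodMap f g = Obj.lift (fst X Z ≫ f) (snd X Z ≫ g) := rfl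

/-- Naturality of graphs of isomorphisms, reduced to an identity of pull-backs. -/
lemma graph_natural {f : X ⟶ Y} {g : X' ⟶ Y'} {g' : Y' ⟶ X'} (h1 : g ≫ g' = 𝟙 _)
    (h2 : g' ≫ g = 𝟙 _) (Γ : C.A (X.prod X')) (Δ : C.A (Y.prod Y'))
    (h : C.pull (prodMap (𝟙 X) g') Γ = C.pull (prodMap f (𝟙 Y')) Δ) :
    C.comp Γ (C.graph g) = C.comp (C.graph f) Δ := by
  rw [graph_comp, ← cograph_iso C g' g h2 h1, comp_cograph, h]

end naturality

variable [hP : HasPoint 𝒱]

lemma assoc_nat {X X' Y Y' Z Z' : 𝒱.Obj} (a : C.A (X.prod X')) (b : C.A (Y.prod Y'))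
    (c : C.A (Z.prod Z')) :
    C.pull (prodMap (𝟙 ((X.prod Y).prod Z)) (aJ X' Y' Z')) (tens C (tens C a b) c) =
      C.pull (prodMap (aI X Y Z) (𝟙 (X'.prod (Y'.prod Z')))) (tens C a (tens C b c)) := by
  rw [prodMap_lift, prodMap_lift, pull_tens, pull_tens, pull_tens, pull_tens, mul_assoc]
  congr 3
  all_goals simp [aI, aJ]

variable (C) in
lemma dg_pt : dg C (pt 𝒱) = 1 := by
  have h : C.push (Obj.lift (𝟙 (pt 𝒱)) (𝟙 (pt 𝒱))) 1 = 1 := by
    apply hC.toHasIso.push_one _ (fst (pt 𝒱) (pt 𝒱))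
    · exact toPt_unique _ _
    · apply prod_ext <;> exact toPt_unique _ _
  exact h

lemma left_nat {X Y : 𝒱.Obj} (a : C.A (X.prod Y)) :
    C.comp (tens C (dg C (pt 𝒱)) a) (C.graph (snd (pt 𝒱) Y)) =
      C.comp (C.graph (snd (pt 𝒱) X)) a := by
  apply graph_natural (unitL1 Y) (unitL2 Y)
  rw [prodMap_lift, pull_tens, prodMap_lift, dg_pt, map_one, one_mul]
  congr 2
  all_goals simp

lemma right_nat {X Y : 𝒱.Obj} (a : C.A (X.prod Y)) :
    C.comp (tens C a (dg C (pt 𝒱))) (C.graph (fst Y (pt 𝒱))) =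
      C.comp (C.graph (fst X (pt 𝒱))) a := by
  apply graph_natural (unitR1 Y) (unitR2 Y)
  rw [prodMap_lift, pull_tens, prodMap_lift, dg_pt, map_one, mul_one]
  congr 2
  all_goals simp

variable (C) in
lemma pent (W X Y Z : 𝒱.Obj) :
    C.comp (tens C (C.graph (aI W X Y)) (dg C Z)) (C.comp (C.graph (aI W (X.prod Y) Z))
      (tens C (dg C W) (C.graph (aI X Y Z)))) =
    C.comp (C.graph (aI (W.prod X) Y Z)) (C.graph (aI W X (Y.prod Z))) := by
  rw [← graph_id, ← graph_id, tens_graph, tens_graph, graph_graph, graph_graph, graph_graph]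
  congr 1
  apply prod_ext
  · simp [aI, prodMap, comp_lift]
  · apply prod_ext
    · simp [aI, prodMap, comp_lift]
    · apply prod_ext
      · simp [aI, prodMap, comp_lift]
      · simp [aI, prodMap, comp_lift]

variable (C) in
lemma tri (X Y : 𝒱.Obj) :
    C.comp (C.graph (aI X (pt 𝒱) Y)) (tens C (dg C X) (C.graph (snd (pt 𝒱) Y))) =
      tens C (C.graph (fst X (pt 𝒱))) (dg C Y) := by
  rw [← graph_id, ← graph_id, tens_graph, tens_graph, graph_graph]
  congr 1
  apply prod_ext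
  · simp [aI, prodMap]
  · simp [aI, prodMap]

noncomputable instance corrStruct : MonoidalCategoryStruct (CObj C) where
  tensorObj := tObj
  whiskerLeft M _ _ f := tHom (𝟙 M) f
  whiskerRight f M := tHom f (𝟙 M)
  tensorHom f g := tHom f g
  tensorUnit := tOne C
  associator := tAssoc
  leftUnitor := tLeft
  rightUnitor := tRight

noncomputable instance corrMon : MonoidalCategory (CObj C) :=
  MonoidalCategory.ofTensorHom
    (id_tensorHom_id := fun M N => CObj.hom_ext (tens_dg C M.X N.X))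
    (id_tensorHom := fun P _ _ f => rfl)
    (tensorHom_id := fun f P => rfl)
    (tensorHom_comp_tensorHom := fun f g h k => CObj.hom_ext
      (tens_comp C (ch_comm C) (CObj.val f) (CObj.val g) (CObj.val h) (CObj.val k)))
    (associator_naturality := fun {X₁ X₂ X₃ Y₁ Y₂ Y₃} f g h => by
      apply CObj.hom_ext
      change C.comp (tens C (tens C (CObj.val f) (CObj.val g)) (CObj.val h)) (C.graph _) =
        C.comp (C.graph _) (tens C (CObj.val f) (tens C (CObj.val g) (CObj.val h)))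
      apply graph_natural aI_aJ aJ_aI
      exact assoc_nat _ _ _)
    (leftUnitor_naturality := fun {X Y} f => by
      apply CObj.hom_ext
      exact left_nat (CObj.val f))
    (rightUnitor_naturality := fun {X Y} f => by
      apply CObj.hom_ext
      exact right_nat (CObj.val f))
    (pentagon := fun W X Y Z => by
      apply CObj.hom_ext
      exact pent C W.X X.X Y.X Z.X)
    (triangle := fun X Y => by
      apply CObj.hom_ext
      exact tri C X.X Y.X)

end Pool.Agent.D0H75.CM
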