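import Pool.Agent.D0H75.CM.CK

/-!
# Numerically trivial endomorphisms are nilpotent
-/

set_option autoImplicit false
set_option linter.unusedSectionVars false
set_option linter.unusedVariables false
set_option linter.unusedSimpArgs false

open CategoryTheory AlgebraicGeometry MonoidalCategory Idempotents Limits Polynomial

universe u v w

namespace Pool.Agent.D0H75.CM

open Pool.Agent.H914 Pool.Agent.H914.VarClass Pool.Agent.H914.VarClass.Obj Pool.Agent.W492.BB
  Pool.Agent.W550.Corr Pool.Agent.TH133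

variable {k : Type u} [Field k] {𝒱 : VarClass k} {C : TheoryData.{u, v, 0} 𝒱 ℚ}
  [hC : IsChowProj C]

/-- Substitution in a class. -/
lemma subst_eqv {X W V : 𝒱.Obj} (x y : V ⟶ X) (z : V ⟶ W) (γ : C.A (X.prod W)) :
    eqv C x y * C.pull (Obj.lift x z) γ = eqv C x y * C.pull (Obj.lift y z) γ := by
  have h : C.pull (fst (X.prod X) W) (dg C X) * C.pull (t13 X X W) γ =
      C.pull (fst (X.prod X) W) (dg C X) * C.pull (t23 X X W) γ := by
    rw [dg, TheoryData.graph, C.base_fst, map_one, ← C.proj_right, ← C.proj_right, ← C.pull_comp,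
      ← C.pull_comp]
    have e : prodMap (Obj.lift (𝟙 X) (𝟙 X)) (𝟙 W) ≫ t13 X X W =
        prodMap (Obj.lift (𝟙 X) (𝟙 X)) (𝟙 W) ≫ t23 X X W := by
      apply prod_ext <;> simp [t13, t23, prodMap]
    rw [e]
  have h1 := congrArg (C.pull (Obj.lift (Obj.lift x y) z)) h
  rw [map_mul, map_mul, ← C.pull_comp, ← C.pull_comp, ← C.pull_comp] at h1
  have e1 : Obj.lift (Obj.lift x y) z ≫ fst (X.prod X) W = Obj.lift x y := lift_fst _ _
  have e2 : Obj.lift (Obj.lift x y) z ≫ t13 X X W = Obj.lift x z := by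
    apply prod_ext <;> simp [t13, prodMap]
  have e3 : Obj.lift (Obj.lift x y) z ≫ t23 X X W = Obj.lift y z := by
    apply prod_ext <;> simp [t23, prodMap]
  rw [e1, e2, e3] at h1
  exact h1

/-- The push-forward of the diagonal class along the projection forgetting the last point. -/
lemma push_diag13 (X : 𝒱.Obj) : C.push (fst (X.prod X) X) (C.pull (t13 X X X) (dg C X)) = 1 := by
  let s : (X.prod X).prod X ⟶ (X.prod X).prod X :=
    Obj.lift (t13 X X X) (fst (X.prod X) X ≫ snd X X)
  have s1 : s ≫ s = 𝟙 _ := by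
    apply prod_ext
    · apply prod_ext <;> simp [s, comp_lift]
    · simp [s, comp_lift]
  have s2 : s ≫ fst (X.prod X) X = t13 X X X := lift_fst _ _
  have s3 : t13 X X X = s ≫ fst (X.prod X) X := s2.symm
  have h1 : C.push (t13 X X X) (C.pull (fst (X.prod X) X) (dg C X)) = 1 := by
    have h2 := dg_comp C (1 : C.A (X.prod X))
    rwa [TheoryData.comp, map_one, one_mul] at h2
  rw [s3, C.pull_comp, pull_iso C s s s1 s1, ← C.push_comp, s2]
  exact h1

variable [hP : HasPoint 𝒱]

/-- The degree of the restriction of a composite to the diagonal is an intersection number. -/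
lemma deg_comp {X : 𝒱.Obj} (F G : C.A (X.prod X)) :
    C.push (toPt X) (C.pull (dia X) (C.comp F G)) = C.push (toPt (X.prod X)) (F * tp C G) := by
  have h1 : C.push (dia X) (C.pull (dia X) (C.comp F G)) = C.comp F G * dg C X := by
    have := C.proj_left (dia X) 1 (C.comp F G)
    rw [mul_one] at this
    exact this
  rw [toPt_unique (toPt X) (dia X ≫ toPt (X.prod X)), C.push_comp, h1, TheoryData.comp,
    ← C.proj_right, ← C.push_comp, toPt_unique (t13 X X X ≫ toPt (X.prod X))
      (fst (X.prod X) X ≫ toPt (X.prod X)), C.push_comp]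
  congr 1
  -- rewrite the class on the triple product
  set x1 : (X.prod X).prod X ⟶ X := fst (X.prod X) X ≫ fst X X
  set x2 : (X.prod X).prod X ⟶ X := fst (X.prod X) X ≫ snd X X
  set x3 : (X.prod X).prod X ⟶ X := snd (X.prod X) X
  have e13 : C.pull (t13 X X X) (dg C X) = eqv C x3 x1 := by
    rw [eqv_comm, eqv]
    have e : t13 X X X = Obj.lift x1 x3 := by
      apply prod_ext
      · simp [x1, x3]
      · simp [x1, x3]
    rw [e]
  have e23 : C.pull (t23 X X X) G = C.pull (Obj.lift x3 x2) (tp C G) := by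
    rw [tp, ← C.pull_comp]
    congr 2
    apply prod_ext
    · simp [x2, x3, sw, comp_lift]
    · simp [x2, x3, sw, comp_lift]
  have e12 : C.pull (Obj.lift x1 x2) (tp C G) = C.pull (fst (X.prod X) X) (tp C G) := by
    congr 2
    apply prod_ext
    · simp [x1, x2]
    · simp [x1, x2]
  have h2 : C.pull (t23 X X X) G * C.pull (fst (X.prod X) X) F * C.pull (t13 X X X) (dg C X) =
      C.pull (fst (X.prod X) X) (F * tp C G) * C.pull (t13 X X X) (dg C X) := by
    rw [e13, e23, mul_assoc, ch_comm C (C.pull (fst (X.prod X) X) F), ← mul_assoc,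
      ch_comm C (C.pull (Obj.lift x3 x2) (tp C G)), subst_eqv, e12, map_mul, mul_assoc,
      ch_comm C (C.pull (fst (X.prod X) X) (tp C G)), ch_comm C]
  rw [h2, C.proj_left, push_diag13, mul_one]

/-- The polynomials of the Kunneth projectors. -/
lemma exists_kunPoly (P : ℕ → ℚ[X]) (hP : ∀ i j, i ≠ j → IsCoprime (P i) (P j)) (n N : ℕ)
    (hN : 0 < N) : ∃ D : KunPoly n, D.P = P ∧ D.N = N := by
  have h1 := fun i => exists_crt (Finset.range n) (fun i => P i ^ N)
    (fun i j hij => (hP i j hij).pow) i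
  choose t a b h2 h3 using h1
  exact ⟨⟨P, N, t, a, b, hN, h2, h3, hP⟩, rfl, rfl⟩

variable {K : Type w} [Field K] (H : WeilTheoryData.{u, v, w} C K) [hH : IsWeilFin H]

omit hP in
lemma parL_eq (X : 𝒱.Obj) :
    parL H X = ∑ i ∈ Finset.range (2 * X.dim + 1), (-1 : K) ^ i • prL H X i := by
  apply LinearMap.ext
  intro a
  rw [LinearMap.sum_apply]
  conv_lhs => rw [← prL_sum H X a, map_sum]
  apply Finset.sum_congr rfl
  intro i _
  rw [parL_apply H (prL_mem H X i a), zpow_natCast]
  rfl

lemma eps_eq_zero {X : 𝒱.Obj} (z : C.A X) (h : C.push (toPt X) z = 0) : eps H X (H.cl z) = 0 := by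
  have h1 := congrArg H.cl h
  rw [H.cl_push, push_toPt, map_zero] at h1
  rcases smul_eq_zero.1 h1 with h2 | h2
  · exact h2
  · exact absurd h2 (hH.one_ne_zero _)

variable [Finite k] {Fr : ∀ X : 𝒱.Obj, X ⟶ X}

/-- The realisation of a numerically trivial endomorphism is nilpotent. -/
theorem rho_nil_of_num (h : IsFrobFamily H Fr) (M : CObj C) (f : End M)
    (hf : NumTriv C (M.X.prod M.X) M.X.dim (CObj.val f)) : IsNilpotent (rho H M f) := by
  have hK := hH.charZero
  have hfin := hH.finite M.X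
  obtain ⟨P, hP1, hP2, -⟩ := exists_weil_polys H h M.X
  obtain ⟨D, rfl, -⟩ := exists_kunPoly P hP1 (2 * M.X.dim + 1) 1 Nat.one_pos
  set G0 : End M := aeval (frC Fr M)
    (∑ i ∈ Finset.range (2 * M.X.dim + 1), Polynomial.C ((-1 : ℚ) ^ i) * D.t i) with hG0
  have h1 : rho H M G0 = parL H M.X := by
    rw [parL_eq, hG0, rho_aeval, rho_frC]
    have h2 : ∀ s : Finset ℕ, ev (frobEnd H (Fr M.X)) (∑ i ∈ s, Polynomial.C ((-1 : ℚ) ^ i) * D.t i) =
        ∑ i ∈ s, (-1 : K) ^ i • ev (frobEnd H (Fr M.X)) (D.t i) := by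
      intro s
      rw [ev, Polynomial.map_sum, map_sum]
      apply Finset.sum_congr rfl
      intro i _
      rw [Polynomial.map_mul, map_mul, Polynomial.map_C, aeval_C]
      simp [ev, Algebra.algebraMap_eq_smul_one]
    rw [h2]
    apply Finset.sum_congr rfl
    intro i _
    rw [ev_kun H D (frobEnd H (Fr M.X)) hP2 i (fun j a ha => H.pull_mem (Fr M.X) ha)]
  apply nil_of_trace
  intro n
  have h3 : rho H M f ^ (n + 1) = parL H M.X * rho H M (G0 * f ^ n * f) := by
    rw [map_mul, map_mul, h1, map_pow, pow_succ, mul_assoc, ← mul_assoc (parL H M.X)]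
    have h4 : parL H M.X * parL H M.X = 1 := by
      apply LinearMap.ext
      intro a
      exact parL_sq H M.X a
    rw [h4, one_mul]
  rw [h3]
  have h5 : LinearMap.trace K (H.A M.X) (parL H M.X ∘ₗ H.actL (H.cl
      (C.comp (CObj.val f) (CObj.val (G0 * f ^ n : End M))))) = 0 := by
    rw [trace_formula, ← H.cl_pull]
    apply eps_eq_zero
    rw [deg_comp]
    apply hf.2
    have h6 : CObj.val (G0 * f ^ n : End M) ∈ C.gr (M.X.prod M.X) M.X.dim := by
      have := CObj.mem_val (G0 * f ^ n : M ⟶ M)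
      rwa [sub_self, add_zero] at this
    have e : (((M.X.prod M.X).dim : ℤ) - M.X.dim) = M.X.dim := by
      rw [dim_prod]; push_cast; ring
    rw [e]
    exact tp_mem C h6
  exact h5

/-- **Numerically trivial endomorphisms are nilpotent**, if the category of Chow motives is
abelian. -/
theorem nil_of_num (h : IsFrobFamily H Fr) (hab : IsAbelianCat (CHMot C)) (M : CObj C) (f : End M)
    (hf : NumTriv C (M.X.prod M.X) M.X.dim (CObj.val f)) : IsNilpotent f :=
  nil_of_rho H h hab M f (rho_nil_of_num H h M f hf)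

end Pool.Agent.D0H75.CM
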