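import Pool.Agent.D0H75.CM.Phi

/-!
# The realisation of the category of Chow motives over a finite field
-/

set_option autoImplicit false
set_option linter.unusedSectionVars false
set_option linter.unusedVariables false

open CategoryTheory AlgebraicGeometry MonoidalCategory Idempotents Polynomial

universe u v w

namespace Pool.Agent.D0H75.CM

open Pool.Agent.H914 Pool.Agent.H914.VarClass Pool.Agent.H914.VarClass.Obj Pool.Agent.W492.BB
  Pool.Agent.W550.Corr Pool.Agent.TH133

section lin

variable {K : Type w} [Field K] {V : Type*} [AddCommGroup V] [Module K V]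

lemma pow_eig (A : Module.End K V) (a : V) (c : K) (h : A a = c • a) (i : ℕ) :
    (A ^ i) a = c ^ i • a := by
  induction i with
  | zero => simp
  | succ n ih => rw [pow_succ', Module.End.mul_apply, ih, map_smul, h, smul_smul, pow_succ]

/-- An eigenvalue `q ^ m` of a pure operator of weight `i` has `i = 2 m`. -/
lemma pure_eig [CharZero K] (A : Module.End K V) (U : Submodule K V) {q : ℕ} (hq : 1 < q)
    (i m : ℤ) (hP : IsPure A U ((q : ℝ) ^ i)) (a : V) (ha : a ∈ U) (hne : a ≠ 0)
    (h : A a = (q : K) ^ m • a) : i = 2 * m := by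
  obtain ⟨P, hP0, hP1, hP2⟩ := hP
  have h1 := hP1 a ha
  have h2 : ∑ i ∈ Finset.range (P.natDegree + 1), (P.coeff i : K) • (A ^ i) a =
      ((aeval ((q : ℚ) ^ m) P : ℚ) : K) • a := by
    rw [aeval_eq_sum_range, Rat.cast_sum, Finset.sum_smul]
    apply Finset.sum_congr rfl
    intro j _
    rw [pow_eig A a _ h, smul_smul, smul_eq_mul]
    push_cast
    rfl
  rw [h2] at h1
  have h3 : aeval ((q : ℚ) ^ m) P = 0 := by
    rcases smul_eq_zero.1 h1 with h3 | h3
    · exact_mod_cast h3
    · exact absurd h3 hne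
  have h4 : aeval (((q : ℚ) ^ m : ℚ) : ℂ) P = 0 := by
    have := aeval_algebraMap_apply ℂ ((q : ℚ) ^ m) P
    rw [h3, map_zero] at this
    exact this
  have h5 := hP2 _ h4
  have h6 : ‖(((q : ℚ) ^ m : ℚ) : ℂ)‖ = (q : ℝ) ^ m := by
    push_cast
    rw [norm_zpow, Complex.norm_natCast]
  rw [h6, ← zpow_natCast, ← zpow_mul] at h5
  have hq1 : (1 : ℝ) < q := by exact_mod_cast hq
  have h7 := zpow_right_injective₀ (by linarith) hq1.ne' h5
  have h8 : m * ((2 : ℕ) : ℤ) = i := h7
  push_cast at h8
  linarith

end lin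

variable {k : Type u} [Field k] [Finite k] {𝒱 : VarClass k} {C : TheoryData.{u, v, 0} 𝒱 ℚ}
  [hC : IsChowProj C] [hP : HasPoint 𝒱] {K : Type w} [Field K] {H : WeilTheoryData.{u, v, w} C K}
  [hH : IsWeilFin H] {Fr : ∀ X : 𝒱.Obj, X ⟶ X}

omit hP in
/-- A class which is multiplied by `q ^ m` by the Frobenius is homogeneous of degree `2 m`. -/
lemma eig_mem (h : IsFrobFamily H Fr) {X : 𝒱.Obj} (m : ℤ) (a : H.A X)
    (ha : H.pull (Fr X) a = (Nat.card k : K) ^ m • a) : a ∈ H.gr X (2 * m) := by
  have hK := hH.charZero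
  have hq : 1 < Nat.card k := Finite.one_lt_card
  set e := LinearEquiv.ofBijective (DirectSum.coeLinearMap (H.gr X)) (H.isInternal X) with he
  set x := e.symm a with hx
  have hxa : e x = a := e.apply_symm_apply a
  have hcoe : ∀ y : DirectSum ℤ (fun i => H.gr X i), e y = DirectSum.coeLinearMap (H.gr X) y :=
    fun y => rfl
  -- the Frobenius on the direct sum
  let F : DirectSum ℤ (fun i => H.gr X i) →ₗ[K] DirectSum ℤ (fun i => H.gr X i) :=
    DirectSum.lmap (fun i => ((H.pull (Fr X)).toLinearMap).restrict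
      (fun y hy => H.pull_mem (Fr X) hy))
  have hF : ∀ y, e (F y) = H.pull (Fr X) (e y) := by
    intro y
    have : e.toLinearMap ∘ₗ F = (H.pull (Fr X)).toLinearMap ∘ₗ e.toLinearMap := by
      apply DirectSum.linearMap_ext
      intro i
      ext z
      simp only [LinearMap.comp_apply, LinearEquiv.coe_coe, hcoe, F, DirectSum.lmap_lof]
      rw [DirectSum.lof_eq_of, DirectSum.lof_eq_of, DirectSum.coeLinearMap_of,
        DirectSum.coeLinearMap_of]
      rfl
    exact LinearMap.congr_fun this y
  have h1 : F x = (Nat.card k : K) ^ m • x := by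
    apply e.injective
    rw [hF, map_smul, hxa, ha]
  have h2 : ∀ i, i ≠ 2 * m → x i = 0 := by
    intro i hi
    by_contra hne
    apply hi
    apply pure_eig (H.pull (Fr X)).toLinearMap (H.gr X i) hq i m (h.weights X i) (x i).1 (x i).2
      (fun h0 => hne (Subtype.ext h0))
    have h3 := congrArg (fun y => ((y i : H.gr X i) : H.A X)) h1
    exact h3
  have h4 : x = DirectSum.of (fun i => H.gr X i) (2 * m) (x (2 * m)) := by
    apply DFinsupp.ext
    intro i
    by_cases hi : i = 2 * m
    · subst hi
      rw [DirectSum.of_eq_same]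
    · rw [h2 i hi, DirectSum.of_eq_of_ne _ _ _ hi]
  rw [← hxa, hcoe, h4, DirectSum.coeLinearMap_of]
  exact (x (2 * m)).2

lemma hMap_phi0 (P : CObj C) (a : H.A P.X) :
    hMap H (phi0 C Fr P) a = (Nat.card k : K) ^ (-P.m) • H.pull (Fr P.X) a := by
  have hK := hH.charZero
  change H.act (H.cl ((Nat.card k : ℚ) ^ (-P.m) • C.cograph (Fr P.X))) a = _
  rw [cl_smul', ← actB_apply, map_smul, LinearMap.smul_apply, actB_apply]
  have h1 : H.cl (C.cograph (Fr P.X)) = H.cograph (Fr P.X) := by
    rw [TheoryData.cograph, TheoryData.cograph, H.cl_push, map_one]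
  rw [h1, H.act_cograph]
  push_cast
  rfl

/-- The realisation. -/
noncomputable def realisation (h : IsFrobFamily H Fr) :
    WeightRealisation (Karoubi (CObj C)) K where
  H := rFun H
  additive := rFun_additive H
  finite P := by
    have := hH.finite P.X.X
    exact inferInstanceAs (Module.Finite K (rObj H P))
  par P := ModuleCat.ofHom (rPar H P)
  par_sq P := by
    apply ModuleCat.hom_ext
    apply LinearMap.ext
    intro x
    exact Subtype.ext (parL_sq H P.X.X x.1)
  par_natural {P Q} f := by
    apply ModuleCat.hom_ext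
    apply LinearMap.ext
    intro x
    exact Subtype.ext (hMap_par H f.f x.1)
  trace P a q hq := rFun_trace H P a q hq
  φ P := phiK h P
  φ_natural f := phiK_natural h f
  φ_unit := phiK_unit h
  odd P v hv := by
    have hK := hH.charZero
    have hq : (Nat.card k : K) ≠ 0 := by
      have : 0 < Nat.card k := Nat.card_pos
      exact_mod_cast this.ne'
    obtain ⟨v, hv'⟩ := v
    have h1 : hMap H (P.p ≫ phi0 C Fr P.X) v = v := congrArg Subtype.val hv
    rw [hMap_comp, LinearMap.comp_apply, rObj_fix H hv', hMap_phi0] at h1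
    have h2 : H.pull (Fr P.X.X) v = (Nat.card k : K) ^ P.X.m • v := by
      have h3 := congrArg (fun z => (Nat.card k : K) ^ P.X.m • z) h1
      simp only [smul_smul] at h3
      rw [← zpow_add₀ hq, add_neg_cancel, zpow_zero, one_smul] at h3
      exact h3
    have h4 := eig_mem h P.X.m v h2
    apply Subtype.ext
    change parL H P.X.X v = v
    rw [parL_apply H h4, zpow_mul]
    simp

end Pool.Agent.D0H75.CM
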