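import Pool.Agent.D0H75.CM.Frob

/-!
# The Frobenius endomorphism of the identity functor
-/

set_option autoImplicit false
set_option linter.unusedSectionVars false
set_option linter.unusedVariables false

open CategoryTheory AlgebraicGeometry MonoidalCategory Idempotents Polynomial

universe u v w

namespace Pool.Agent.D0H75.CM

open Pool.Agent.H914 Pool.Agent.H914.VarClass Pool.Agent.H914.VarClass.Obj Pool.Agent.W492.BB
  Pool.Agent.W550.Corr Pool.Agent.TH133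

variable {k : Type u} [Field k] [Finite k] {𝒱 : VarClass k} {C : TheoryData.{u, v, 0} 𝒱 ℚ}
  [hC : IsChowProj C] [hP : HasPoint 𝒱] {K : Type w} [Field K] {H : WeilTheoryData.{u, v, w} C K}
  [hH : IsWeilFin H] {Fr : ∀ X : 𝒱.Obj, X ⟶ X}

omit [Finite k] in
lemma card_ne_zero [Finite k] : (Nat.card k : ℚ) ≠ 0 := by
  have : 0 < Nat.card k := Nat.card_pos
  exact_mod_cast this.ne'

include H hH in
omit [Finite k] in
lemma one_ne_zero_chow (X : 𝒱.Obj) : (1 : C.A X) ≠ 0 := by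
  intro h
  apply hH.one_ne_zero X
  have := congrArg H.cl h
  rwa [map_one, map_zero] at this

omit [Finite k] in
lemma push_toPt_cycle (X : 𝒱.Obj) : ∃ a : C.A X, C.Deg X.dim a ∧ C.push (toPt X) a = 1 := by
  obtain ⟨a, h1, h2, h3⟩ := hC.exists_deg_one X
  refine ⟨a, h1, ?_⟩
  have h4 := h2 (pt 𝒱)
  have e1 : fst (pt 𝒱) X = snd (pt 𝒱) X ≫ toPt X := toPt_unique _ _
  have h5 : C.push (snd (pt 𝒱) X) (C.pull (snd (pt 𝒱) X) a) = a :=
    push_pull_iso C _ _ (unitL1 X) (unitL2 X) a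
  rw [e1, TheoryData.down, C.push_comp, TheoryData.up, h5] at h4
  exact h4

variable (h : IsFrobFamily H Fr)

include h in
lemma push_frob_one (X : 𝒱.Obj) : C.push (Fr X) 1 = (Nat.card k : ℚ) ^ (X.dim : ℤ) • 1 := by
  have h1 : C.push (Fr X) (1 : C.A X) ∈ C.gr X 0 := by
    have := C.push_mem (Fr X) (C.one_mem X)
    simpa using this
  obtain ⟨c, hc⟩ := hC.gr_zero X _ h1
  obtain ⟨a, ha1, ha2⟩ := push_toPt_cycle (C := C) X
  have h2 := C.proj_right (Fr X) 1 a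
  have h0 : C.pull (Fr X) a = (Nat.card k : ℚ) ^ (X.dim : ℤ) • a := h.chow X X.dim a ha1
  rw [one_mul, hc, h0, map_smul, smul_mul_assoc, one_mul] at h2
  have h3 := congrArg (C.push (toPt X)) h2
  rw [map_smul, map_smul, ← C.push_comp, toPt_unique (Fr X ≫ toPt X) (toPt X), ha2] at h3
  have h4 : ((Nat.card k : ℚ) ^ (X.dim : ℤ) - c) • (1 : C.A (pt 𝒱)) = 0 := by
    rw [sub_smul, h3, sub_self]
  rcases smul_eq_zero.1 h4 with h5 | h5
  · rw [hc, sub_eq_zero.1 h5]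
  · exact absurd h5 (one_ne_zero_chow (H := H) _)

include h in
lemma push_prod_one (X Y : 𝒱.Obj) :
    C.push (prodMap (Fr X) (𝟙 Y)) 1 = (Nat.card k : ℚ) ^ (X.dim : ℤ) • 1 := by
  have h1 := C.base_fst (Fr X) Y 1
  rw [push_frob_one h, map_smul, map_one (C.pull (fst X Y))] at h1
  exact h1.symm

include h in
/-- The key relation: `(Fr_X × 1)_* Γ = q^(-e) (1 × Fr_Y)^* Γ` for `Γ` of degree `dim X + e`. -/
lemma frob_rel {X Y : 𝒱.Obj} {e : ℤ} {Γ : C.A (X.prod Y)} (hΓ : Γ ∈ C.gr (X.prod Y) (X.dim + e)) :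
    C.pull (prodMap (𝟙 X) (Fr Y)) Γ = (Nat.card k : ℚ) ^ e • C.push (prodMap (Fr X) (𝟙 Y)) Γ := by
  have hq : (Nat.card k : ℚ) ≠ 0 := card_ne_zero
  have e1 : Fr (X.prod Y) = prodMap (Fr X) (𝟙 Y) ≫ prodMap (𝟙 X) (Fr Y) := by
    rw [h.prod]
    apply prod_ext <;> simp [prodMap]
  have h1 := h.chow (X.prod Y) _ Γ hΓ
  rw [e1, TheoryData.up, C.pull_comp] at h1
  have h2 := congrArg (C.push (prodMap (Fr X) (𝟙 Y))) h1
  have h3 := C.proj_right (prodMap (Fr X) (𝟙 Y)) 1 (C.pull (prodMap (𝟙 X) (Fr Y)) Γ)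
  rw [one_mul, push_prod_one h, smul_mul_assoc, one_mul] at h3
  rw [h3, map_smul, zpow_add₀ hq, mul_smul] at h2
  have h4 : (Nat.card k : ℚ) ^ (X.dim : ℤ) ≠ 0 := zpow_ne_zero _ hq
  exact smul_right_injective _ h4 h2

/-- The Frobenius endomorphism of `(X, m)`. -/
noncomputable def phi0 (C : TheoryData.{u, v, 0} 𝒱 ℚ) [IsChowProj C] (Fr : ∀ X : 𝒱.Obj, X ⟶ X)
    (M : CObj C) : M ⟶ M :=
  CObj.mkH ((Nat.card k : ℚ) ^ (-M.m) • C.cograph (Fr M.X))
    (by rw [sub_self, add_zero]; exact Submodule.smul_mem _ _ (cograph_mem _))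

include h in
omit hP in
lemma phi0_natural [hP : HasPoint 𝒱] {M N : CObj C} (f : M ⟶ N) :
    phi0 C Fr M ≫ f = f ≫ phi0 C Fr N := by
  have hq : (Nat.card k : ℚ) ≠ 0 := card_ne_zero
  apply CObj.hom_ext
  rw [CObj.val_comp, CObj.val_comp, phi0, phi0, CObj.val_mkH, CObj.val_mkH, ← compL_apply,
    ← compL_apply, map_smul, map_smul, LinearMap.smul_apply, compL_apply, compL_apply,
    cograph_comp, comp_cograph, frob_rel h (CObj.mem_val f), smul_smul, ← zpow_add₀ hq]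
  congr 2
  ring

/-- The Frobenius endomorphism of a motive. -/
noncomputable def phiK (P : Karoubi (CObj C)) : P ⟶ P where
  f := P.p ≫ phi0 C Fr P.X
  comm := by
    rw [Category.assoc, phi0_natural h, P.idem_assoc, P.idem_assoc]

lemma phiK_f (P : Karoubi (CObj C)) : (phiK h P).f = P.p ≫ phi0 C Fr P.X := rfl

lemma phiK_natural {P Q : Karoubi (CObj C)} (f : P ⟶ Q) : phiK h P ≫ f = f ≫ phiK h Q := by
  apply Karoubi.hom_ext
  rw [Karoubi.comp_f, Karoubi.comp_f, phiK_f, phiK_f, Category.assoc, phi0_natural h,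
    Karoubi.p_comp_assoc, Karoubi.comp_p_assoc]

lemma phi0_unit : phi0 C Fr (𝟙_ (CObj C)) = 𝟙 _ := by
  apply CObj.hom_ext
  change (Nat.card k : ℚ) ^ (-(0 : ℤ)) • C.cograph (Fr (pt 𝒱)) = dg C (pt 𝒱)
  rw [toPt_unique (Fr (pt 𝒱)) (𝟙 _), neg_zero, zpow_zero, one_smul]
  rfl

lemma phiK_unit : phiK h (𝟙_ (Karoubi (CObj C))) = 𝟙 _ := by
  apply Karoubi.hom_ext
  rw [phiK_f]
  change 𝟙 (𝟙_ (CObj C)) ≫ phi0 C Fr (𝟙_ (CObj C)) = 𝟙 (𝟙_ (CObj C))
  rw [phi0_unit, Category.comp_id]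

end Pool.Agent.D0H75.CM
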