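import Pool.Agent.D0H75.CM.Corr

/-!
# The point
-/

set_option autoImplicit false
set_option linter.unusedSectionVars false

open CategoryTheory AlgebraicGeometry

universe u v w

namespace Pool.Agent.D0H75.CM

open Pool.Agent.H914 Pool.Agent.H914.VarClass Pool.Agent.H914.VarClass.Obj Pool.Agent.W492.BB
  Pool.Agent.W550.Corr Pool.Agent.TH133

variable {k : Type u} [Field k] (𝒱 : VarClass k) [hP : HasPoint 𝒱]

lemma pt_dim : (pt 𝒱).dim = 0 := rfl

variable {𝒱}

lemma toPt_unique {X : 𝒱.Obj} (f g : X ⟶ pt 𝒱) : f = g := by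
  have h : ∀ f : X ⟶ pt 𝒱, SmVar.Hom.hom (X := X.V) (Y := point k) f = X.V.str := by
    intro f
    have h1 := SmVar.Hom.w (X := X.V) (Y := point k) f
    rw [← h1]
    exact (Category.comp_id _).symm
  exact SmVar.Hom.ext ((h f).trans (h g).symm)

end Pool.Agent.D0H75.CM
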