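import Pool.Agent.D0H75.CM.Odd

/-!
# The projections to the homogeneous components of the cohomology
-/

set_option autoImplicit false
set_option linter.unusedSectionVars false
set_option linter.unusedVariables false

open CategoryTheory AlgebraicGeometry MonoidalCategory Idempotents Polynomial

universe u v w

namespace Pool.Agent.D0H75.CM

open Pool.Agent.H914 Pool.Agent.H914.VarClass Pool.Agent.H914.VarClass.Obj Pool.Agent.W492.BB
  Pool.Agent.W550.Corr Pool.Agent.TH133

variable {k : Type u} [Field k] {𝒱 : VarClass k} {C : TheoryData.{u, v, 0} 𝒱 ℚ}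
  [hC : IsChowProj C] {K : Type w} [Field K] (H : WeilTheoryData.{u, v, w} C K)
  [hH : IsWeilFin H]

include hH

/-- The projection of `H(X)` to `H^j(X)`. -/
noncomputable def prL (X : 𝒱.Obj) (j : ℤ) : H.A X →ₗ[K] H.A X :=
  (H.gr X j).subtype ∘ₗ DirectSum.component K ℤ (fun i => H.gr X i) j ∘ₗ
    (LinearEquiv.ofBijective (DirectSum.coeLinearMap (H.gr X)) (H.isInternal X)).symm.toLinearMap

lemma prL_mem (X : 𝒱.Obj) (j : ℤ) (a : H.A X) : prL H X j a ∈ H.gr X j :=
  Submodule.coe_mem _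

lemma prL_symm {X : 𝒱.Obj} {i : ℤ} {a : H.A X} (ha : a ∈ H.gr X i) :
    (LinearEquiv.ofBijective (DirectSum.coeLinearMap (H.gr X)) (H.isInternal X)).symm a =
      DirectSum.lof K ℤ (fun i => H.gr X i) i ⟨a, ha⟩ := by
  rw [LinearEquiv.symm_apply_eq]
  change a = DirectSum.coeLinearMap (H.gr X) _
  rw [DirectSum.lof_eq_of, DirectSum.coeLinearMap_of]

lemma prL_same {X : 𝒱.Obj} {j : ℤ} {a : H.A X} (ha : a ∈ H.gr X j) : prL H X j a = a := by
  rw [prL, LinearMap.comp_apply, LinearMap.comp_apply, LinearEquiv.coe_coe, prL_symm H ha,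
    DirectSum.component.lof_self]
  rfl

lemma prL_ne {X : 𝒱.Obj} {i j : ℤ} {a : H.A X} (ha : a ∈ H.gr X i) (hij : i ≠ j) :
    prL H X j a = 0 := by
  rw [prL, LinearMap.comp_apply, LinearMap.comp_apply, LinearEquiv.coe_coe, prL_symm H ha,
    DirectSum.component.of, dif_neg hij, map_zero]

lemma mem_of_prL {X : 𝒱.Obj} {j : ℤ} {a : H.A X} (h : ∀ i, i ≠ j → prL H X i a = 0) :
    a ∈ H.gr X j := by
  set e := LinearEquiv.ofBijective (DirectSum.coeLinearMap (H.gr X)) (H.isInternal X) with he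
  have h1 : e (e.symm a) = a := e.apply_symm_apply a
  have h4 : e.symm a = DirectSum.of (fun i => H.gr X i) j (e.symm a j) := by
    apply DFinsupp.ext
    intro i
    by_cases hi : i = j
    · subst hi
      rw [DirectSum.of_eq_same]
    · rw [DirectSum.of_eq_of_ne _ _ _ hi]
      exact Subtype.ext (h i hi)
  rw [← h1]
  change DirectSum.coeLinearMap (H.gr X) (e.symm a) ∈ _
  rw [h4, DirectSum.coeLinearMap_of]
  exact (e.symm a j).2

lemma prL_comm {X Y : 𝒱.Obj} (f : H.A X →ₗ[K] H.A Y) (e : ℤ)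
    (hf : ∀ i, ∀ a ∈ H.gr X i, f a ∈ H.gr Y (i + e)) (j : ℤ) (a : H.A X) :
    prL H Y (j + e) (f a) = f (prL H X j a) := by
  have h : prL H Y (j + e) ∘ₗ f = f ∘ₗ prL H X j := by
    apply ext_gr H
    intro i a ha
    rw [LinearMap.comp_apply, LinearMap.comp_apply]
    by_cases hi : i = j
    · subst hi
      rw [prL_same H ha, prL_same H (hf i a ha)]
    · rw [prL_ne H ha hi, prL_ne H (hf i a ha) (fun h => hi (by omega)), map_zero]
  exact LinearMap.congr_fun h a

end Pool.Agent.D0H75.CM
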