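import Pool.Agent.D0H75.CM.Add
import Pool.Agent.D0H75.CM.Lin

/-!
# Functors to super vector spaces satisfying the trace formula
-/

set_option autoImplicit false
set_option linter.unusedSectionVars false
set_option linter.style.haveILetI false

open CategoryTheory Limits MonoidalCategory

namespace Pool.Agent.D0H75.CM

universe v u w w'

section

variable (C : Type u) [Category.{v} C] [MonoidalCategory C] [SymmetricCategory C]
  [RightRigidCategory C] [Preadditive C] [Linear ℚ C] (K : Type w) [Field K]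

/-- An additive functor `H` to finite dimensional super vector spaces over `K` (vector spaces with
an involution `par`) which satisfies the trace formula, and an endomorphism `φ` of the identity
functor with `φ = 1` on the unit object such that `1` is not an eigenvalue of `φ` on the odd parts
of the `H(X)`. -/
structure WeightRealisation where
  /-- the functor -/
  H : C ⥤ ModuleCat.{w'} K
  additive : H.Additive
  finite (X : C) : Module.Finite K (H.obj X)
  /-- the involution -/
  par (X : C) : H.obj X ⟶ H.obj X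
  par_sq (X : C) : par X ≫ par X = 𝟙 _
  par_natural {X Y : C} (f : X ⟶ Y) : H.map f ≫ par Y = par X ≫ H.map f
  trace (X : C) (a : X ⟶ X) (q : ℚ) (h : tr a = q • 𝟙 _) :
    LinearMap.trace K (H.obj X) (H.map a ≫ par X).hom = (q : K)
  /-- the endomorphism of the identity functor -/
  φ (X : C) : X ⟶ X
  φ_natural {X Y : C} (f : X ⟶ Y) : φ X ≫ f = f ≫ φ Y
  φ_unit : φ (𝟙_ C) = 𝟙 _
  odd (X : C) (v : H.obj X) : (H.map (φ X)).hom v = v → (par X).hom v = v

attribute [instance] WeightRealisation.additive WeightRealisation.finite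

end

section

variable {C : Type u} [Category.{v} C] [MonoidalCategory C] [SymmetricCategory C]
  [RightRigidCategory C] [Abelian C] [MonoidalPreadditive C] [Linear ℚ C]
  {K : Type w} [Field K] [CharZero K] (R : WeightRealisation.{v, u, w, w'} C K)

/-- The powers of `φ`. -/
def WeightRealisation.pw (R : WeightRealisation.{v, u, w, w'} C K) (X : C) : ℕ → (X ⟶ X)
  | 0 => 𝟙 X
  | n + 1 => WeightRealisation.pw R X n ≫ R.φ X

lemma pw_natural (n : ℕ) {X Y : C} (f : X ⟶ Y) : R.pw X n ≫ f = f ≫ R.pw Y n := by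
  induction n with
  | zero => simp [WeightRealisation.pw]
  | succ n ih => simp only [WeightRealisation.pw, Category.assoc, R.φ_natural, reassoc_of% ih]

lemma pw_unit (n : ℕ) : R.pw (𝟙_ C) n = 𝟙 _ := by
  induction n with
  | zero => rfl
  | succ n ih => rw [WeightRealisation.pw, ih, R.φ_unit, Category.comp_id]

lemma map_pw (n : ℕ) (X : C) : (R.H.map (R.pw X n)).hom = (R.H.map (R.φ X)).hom ^ n := by
  induction n with
  | zero =>
    rw [WeightRealisation.pw, pow_zero, CategoryTheory.Functor.map_id]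
    rfl
  | succ n ih =>
    rw [WeightRealisation.pw, Functor.map_comp, ModuleCat.hom_comp, ih, pow_succ']
    rfl

/-- The multiplicity of the eigenvalue `1` of `φ` on `H(X)`. -/
noncomputable def WeightRealisation.rk (X : C) : ℕ := mult (K := K) (R.H.map (R.φ X)).hom

/-- The scalars are the only endomorphisms of the unit. -/
def ScalarUnit (C : Type u) [Category.{v} C] [MonoidalCategory C] [Preadditive C]
    [Linear ℚ C] : Prop :=
  (𝟙 (𝟙_ C) ≠ 0) ∧ ∀ e : 𝟙_ C ⟶ 𝟙_ C, ∃ q : ℚ, e = q • 𝟙 _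

lemma ScalarUnit.idem (hU : ScalarUnit C) (e : 𝟙_ C ⟶ 𝟙_ C) (he : e ≫ e = e) :
    e = 0 ∨ e = 𝟙 _ := by
  obtain ⟨q, rfl⟩ := hU.2 e
  rw [Linear.smul_comp, Linear.comp_smul, Category.comp_id, smul_smul] at he
  have h1 : (q * q - q) • 𝟙 (𝟙_ C) = 0 := by rw [sub_smul, he, sub_self]
  rcases smul_eq_zero.1 h1 with h2 | h2
  · have h3 : q * (q - 1) = 0 := by linarith
    rcases mul_eq_zero.1 h3 with h4 | h4
    · left; rw [h4, zero_smul]
    · right
      have : q = 1 := by linarith
      rw [this, one_smul]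
  · exact absurd h2 hU.1

lemma evAt_ne_zero {M : C} {x : 𝟙_ C ⟶ M} (hx : x ≠ 0) : evAt x ≠ 0 := by
  intro h
  apply hx
  have h1 : Mᘁ ◁ x ≫ ε_ M Mᘁ = 0 := by
    have : Mᘁ ◁ x ≫ ε_ M Mᘁ = (ρ_ Mᘁ).hom ≫ evAt x := by
      rw [evAt, Iso.hom_inv_id_assoc]
    rw [this, h, comp_zero]
  have h2 := (tensorLeftHomEquiv (𝟙_ C) M Mᘁ (𝟙_ C))
  have e1 : x = (λ_ _).inv ≫ 𝟙_ C ◁ x ≫ (λ_ M).hom := by
    rw [id_whiskerLeft]; simp
  have e2 : x = (λ_ (𝟙_ C)).inv ≫ (η_ M Mᘁ) ▷ 𝟙_ C ≫ (M ⊗ Mᘁ) ◁ x ≫ (α_ _ _ _).hom ≫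
      M ◁ ε_ M Mᘁ ≫ (ρ_ M).hom := by
    have h3 := ExactPairing.evaluation_coevaluation M Mᘁ
    conv_lhs => rw [e1]
    rw [← whisker_exchange_assoc, reassoc_of% h3]
    simp
  rw [e2, associator_naturality_right_assoc, ← MonoidalCategory.whiskerLeft_comp_assoc, h1]
  simp

/-- Multiplicities are additive. -/
theorem rk_add (hU : ScalarUnit C) {M : C} (x : 𝟙_ C ⟶ M) (hx : x ≠ 0) :
    R.rk M = 1 + R.rk (cokernel x) := by
  have hc : ∀ X : C, Commute (R.H.map (R.φ X)).hom (R.par X).hom := by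
    intro X
    have h1 := R.par_natural (R.φ X)
    have h2 := congrArg ModuleCat.Hom.hom h1
    rw [ModuleCat.hom_comp, ModuleCat.hom_comp] at h2
    exact h2.symm
  have hs : ∀ X : C, (R.par X).hom * (R.par X).hom = 1 := by
    intro X
    have h2 := congrArg ModuleCat.Hom.hom (R.par_sq X)
    rw [ModuleCat.hom_comp] at h2
    exact h2
  apply mult_eq (hc M) (hs M) (R.odd M) (hc _) (hs _) (R.odd _)
  intro n
  obtain ⟨q, hq⟩ := hU.2 (tr (R.pw M n))
  obtain ⟨q', hq'⟩ := hU.2 (tr (R.pw (cokernel x) n))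
  have h1 := R.trace M _ q hq
  have h2 := R.trace _ _ q' hq'
  rw [ModuleCat.hom_comp, map_pw] at h1 h2
  have h3 := tr_add_aux x (R.pw M n) (R.pw (cokernel x) n) (𝟙 _)
    (by rw [← pw_natural, pw_unit]) (pw_natural R n _)
  rw [hq, hq'] at h3
  simp only [Linear.comp_smul, Category.comp_id] at h3
  have h4 : (q - (1 + q')) • evAt x = 0 := by
    rw [sub_smul, add_smul, one_smul, h3, sub_self]
  rcases smul_eq_zero.1 h4 with h5 | h5
  · have h6 : q = 1 + q' := by linarith
    change LinearMap.trace K (R.H.obj M) ((R.par M).hom ∘ₗ (R.H.map (R.φ M)).hom ^ n) =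
      1 + LinearMap.trace K _ ((R.par (cokernel x)).hom ∘ₗ (R.H.map (R.φ (cokernel x))).hom ^ n)
    rw [h1, h2, h6]
    push_cast
    ring
  · exact absurd h5 (evAt_ne_zero hx)

/-- **The dimension bound.** -/
theorem finite_hom (hU : ScalarUnit C) : ∀ (n : ℕ) (M : C), R.rk M = n →
    Module.Finite ℚ (𝟙_ C ⟶ M) ∧ Module.finrank ℚ (𝟙_ C ⟶ M) ≤ n := by
  intro n
  induction n using Nat.strong_induction_on with
  | _ n ih =>
  intro M hM
  by_cases h : ∀ x : 𝟙_ C ⟶ M, x = 0
  · have : Subsingleton (𝟙_ C ⟶ M) := ⟨fun a b => by rw [h a, h b]⟩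
    exact ⟨inferInstance, by rw [Module.finrank_zero_of_subsingleton]; exact Nat.zero_le _⟩
  · push Not at h
    obtain ⟨x, hx⟩ := h
    have h1 := rk_add R hU x hx
    have h2 : R.rk (cokernel x) < n := by omega
    obtain ⟨h3, h4⟩ := ih _ h2 (cokernel x) rfl
    have hmono : Mono x := mono_of_unit hU.idem x hx
    let g : (𝟙_ C ⟶ M) →ₗ[ℚ] (𝟙_ C ⟶ cokernel x) := Linear.rightComp ℚ (𝟙_ C) (cokernel.π x)
    have hker : LinearMap.ker g ≤ Submodule.span ℚ {x} := by
      intro y hy
      have h5 : y ≫ cokernel.π x = 0 := hy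
      obtain ⟨t, ht⟩ : ∃ t : 𝟙_ C ⟶ 𝟙_ C, t ≫ x = y :=
        ⟨Abelian.monoLift x y h5, Abelian.monoLift_comp x y h5⟩
      obtain ⟨q, rfl⟩ := hU.2 t
      rw [Submodule.mem_span_singleton]
      exact ⟨q, by rw [← ht, Linear.smul_comp, Category.id_comp]⟩
    have hfk : Module.Finite ℚ (LinearMap.ker g) :=
      Submodule.finiteDimensional_of_le hker
    have hfin : Module.Finite ℚ (𝟙_ C ⟶ M) := by
      have : Module.Finite ℚ (LinearMap.range g) := inferInstance
      have e := g.quotKerEquivRange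
      have : Module.Finite ℚ ((𝟙_ C ⟶ M) ⧸ LinearMap.ker g) := Module.Finite.equiv e.symm
      exact Module.Finite.of_submodule_quotient (LinearMap.ker g)
    refine ⟨hfin, ?_⟩
    have h6 := LinearMap.finrank_range_add_finrank_ker g
    have h7 : Module.finrank ℚ (LinearMap.range g) ≤ Module.finrank ℚ (𝟙_ C ⟶ cokernel x) :=
      Submodule.finrank_le _
    have h8 : Module.finrank ℚ (LinearMap.ker g) ≤ 1 :=
      (Submodule.finrank_mono hker).trans (finrank_span_singleton hx).le
    omega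

end

end Pool.Agent.D0H75.CM
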