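import Pool.Agent.D0H75.CM.Sym

/-!
# Duals in the category of correspondences
-/

set_option autoImplicit false
set_option linter.unusedSectionVars false
set_option linter.unusedVariables false

open CategoryTheory AlgebraicGeometry MonoidalCategory

universe u v w

namespace Pool.Agent.D0H75.CM

open Pool.Agent.H914 Pool.Agent.H914.VarClass Pool.Agent.H914.VarClass.Obj Pool.Agent.W492.BB
  Pool.Agent.W550.Corr Pool.Agent.TH133

variable {k : Type u} [Field k] {𝒱 : VarClass k} {C : TheoryData.{u, v, 0} 𝒱 ℚ}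
  [hC : IsChowProj C]

/-- The class of the locus where the points `x` and `y` of `X` with values in `W` coincide. -/
noncomputable def eqv (C : TheoryData.{u, v, 0} 𝒱 ℚ) {X W : 𝒱.Obj} (x y : W ⟶ X) : C.A W :=
  C.pull (Obj.lift x y) (dg C X)

lemma pull_eqv {X W V : 𝒱.Obj} (f : V ⟶ W) (x y : W ⟶ X) :
    C.pull f (eqv C x y) = eqv C (f ≫ x) (f ≫ y) := by
  rw [eqv, eqv, ← C.pull_comp, comp_lift]

lemma pull_dg {X W : 𝒱.Obj} (f : W ⟶ X.prod X) :
    C.pull f (dg C X) = eqv C (f ≫ fst X X) (f ≫ snd X X) := by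
  have e : f = Obj.lift (f ≫ fst X X) (f ≫ snd X X) := by
    apply prod_ext <;> simp
  conv_lhs => rw [e]
  rfl

lemma eqv_comm {X W : 𝒱.Obj} (x y : W ⟶ X) : eqv C x y = eqv C y x := by
  have h : dg C X = C.pull (sw X X) (dg C X) := (tp_dg C X).symm
  rw [eqv, eqv]
  conv_lhs => rw [h]
  rw [← C.pull_comp]
  congr 2
  simp [sw, comp_lift]

/-- Substitution. -/
lemma eqv_subst {X W : 𝒱.Obj} (x y z : W ⟶ X) :
    eqv C x y * eqv C x z = eqv C x y * eqv C y z := by
  have h : C.pull (fst (X.prod X) X) (dg C X) * C.pull (t13 X X X) (dg C X) =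
      C.pull (fst (X.prod X) X) (dg C X) * C.pull (t23 X X X) (dg C X) := by
    rw [dg, TheoryData.graph, C.base_fst, map_one, ← C.proj_right, ← C.proj_right, ← C.pull_comp,
      ← C.pull_comp]
    have e : prodMap (Obj.lift (𝟙 X) (𝟙 X)) (𝟙 X) ≫ t13 X X X =
        prodMap (Obj.lift (𝟙 X) (𝟙 X)) (𝟙 X) ≫ t23 X X X := by
      apply prod_ext <;> simp [t13, t23, prodMap]
    rw [e]
  have h1 := congrArg (C.pull (Obj.lift (Obj.lift x y) z)) h
  rw [map_mul, map_mul, ← C.pull_comp, ← C.pull_comp, ← C.pull_comp] at h1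
  have e1 : Obj.lift (Obj.lift x y) z ≫ fst (X.prod X) X = Obj.lift x y := lift_fst _ _
  have e2 : Obj.lift (Obj.lift x y) z ≫ t13 X X X = Obj.lift x z := by
    apply prod_ext <;> simp [t13, prodMap]
  have e3 : Obj.lift (Obj.lift x y) z ≫ t23 X X X = Obj.lift y z := by
    apply prod_ext <;> simp [t23, prodMap]
  rw [e1, e2, e3] at h1
  exact h1

lemma eqv_prod {X Y W : 𝒱.Obj} (x y : W ⟶ X.prod Y) :
    eqv C x y = eqv C (x ≫ fst X Y) (y ≫ fst X Y) * eqv C (x ≫ snd X Y) (y ≫ snd X Y) := by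
  rw [eqv, ← tens_dg C X Y, pull_tens]
  rfl

/-- The diagonal map. -/
noncomputable def dia (X : 𝒱.Obj) : X ⟶ X.prod X := Obj.lift (𝟙 X) (𝟙 X)

lemma dia_fst (X : 𝒱.Obj) : dia X ≫ fst X X = 𝟙 X := lift_fst _ _
lemma dia_snd (X : 𝒱.Obj) : dia X ≫ snd X X = 𝟙 X := lift_snd _ _

/-- Push-forward along `id × δ`. -/
lemma push_id_dia {W X : 𝒱.Obj} (a : C.A (W.prod X)) :
    C.push (prodMap (𝟙 W) (dia X)) a =
      C.pull (u12 W X X) a * eqv C (snd W (X.prod X) ≫ fst X X) (snd W (X.prod X) ≫ snd X X) := by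
  have h1 : a = C.pull (prodMap (𝟙 W) (dia X)) (C.pull (u12 W X X) a) := by
    rw [← C.pull_comp]
    have e : prodMap (𝟙 W) (dia X) ≫ u12 W X X = 𝟙 _ := by
      apply prod_ext <;> simp [u12, prodMap, dia]
    rw [e, C.pull_id]
  have h2 : C.push (prodMap (𝟙 W) (dia X)) 1 =
      eqv C (snd W (X.prod X) ≫ fst X X) (snd W (X.prod X) ≫ snd X X) := by
    have h3 := C.base_snd (dia X) W (1 : C.A X)
    rw [map_one (C.pull (snd W X))] at h3
    rw [← h3]
    have e2 : Obj.lift (snd W (X.prod X) ≫ fst X X) (snd W (X.prod X) ≫ snd X X) =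
        snd W (X.prod X) := by
      apply prod_ext <;> simp
    rw [eqv, e2]
    rfl
  conv_lhs => rw [h1]
  have h4 := C.proj_left (prodMap (𝟙 W) (dia X)) 1 (C.pull (u12 W X X) a)
  rw [mul_one] at h4
  rw [h4, h2]

set_option linter.unusedSimpArgs false

/-- The Frobenius law. -/
lemma frob_law (X : 𝒱.Obj) :
    C.comp (C.graph (prodMap (𝟙 X) (dia X) ≫ aJ X X X)) (C.cograph (prodMap (dia X) (𝟙 X))) =
      C.comp (C.cograph (dia X)) (C.graph (dia X)) := by
  rw [graph_comp, cograph_eq, ← C.pull_comp, comp_graph, push_id_dia, cograph_eq, ← C.pull_comp,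
    pull_dg, pull_dg, eqv_prod, eqv_prod, eqv_prod]
  simp only [Category.assoc, prodMap_fst, prodMap_snd, prodMap_fst_assoc, prodMap_snd_assoc,
    Category.comp_id, Category.id_comp, dia_fst, dia_snd, aJ, u12, lift_fst, lift_snd,
    lift_fst_assoc, lift_snd_assoc, dia]
  rw [mul_assoc, mul_assoc, eqv_subst]

/-- The Frobenius law, the other side. -/
lemma frob_law' (X : 𝒱.Obj) :
    C.comp (C.graph (prodMap (dia X) (𝟙 X) ≫ aI X X X)) (C.cograph (prodMap (𝟙 X) (dia X))) =
      C.comp (C.cograph (dia X)) (C.graph (dia X)) := by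
  rw [graph_comp, cograph_eq, ← C.pull_comp, comp_graph, push_id_dia, cograph_eq, ← C.pull_comp,
    pull_dg, pull_dg, eqv_prod, eqv_prod, eqv_prod]
  simp only [Category.assoc, prodMap_fst, prodMap_snd, prodMap_fst_assoc, prodMap_snd_assoc,
    Category.comp_id, Category.id_comp, dia_fst, dia_snd, aI, u12, lift_fst, lift_snd,
    lift_fst_assoc, lift_snd_assoc, dia]
  generalize (X.prod X).fst (X.prod X) ≫ X.fst X = a
  generalize (X.prod X).fst (X.prod X) ≫ X.snd X = b
  generalize (X.prod X).snd (X.prod X) ≫ X.fst X = c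
  generalize (X.prod X).snd (X.prod X) ≫ X.snd X = d
  rw [← mul_assoc, eqv_subst a c d, mul_assoc, mul_assoc, eqv_comm c d, eqv_comm b d,
    eqv_subst d c b, eqv_comm b c, ch_comm C (eqv C d c)]

variable [hP : HasPoint 𝒱]

/-- The class of the coevaluation. -/
noncomputable def coevC (C : TheoryData.{u, v, 0} 𝒱 ℚ) (X : 𝒱.Obj) :
    C.A ((pt 𝒱).prod (X.prod X)) := C.comp (C.cograph (toPt X)) (C.graph (dia X))

/-- The class of the evaluation. -/
noncomputable def evC (C : TheoryData.{u, v, 0} 𝒱 ℚ) (X : 𝒱.Obj) :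
    C.A ((X.prod X).prod (pt 𝒱)) := C.comp (C.cograph (dia X)) (C.graph (toPt X))

lemma tens_coev (X : 𝒱.Obj) : tens C (dg C X) (coevC C X) =
    C.comp (C.cograph (prodMap (𝟙 X) (toPt X))) (C.graph (prodMap (𝟙 X) (dia X))) := by
  rw [← tens_cograph, ← tens_graph, tens_comp C (ch_comm C), cograph_id, dg_comp]
  rfl

lemma tens_coev' (X : 𝒱.Obj) : tens C (coevC C X) (dg C X) =
    C.comp (C.cograph (prodMap (toPt X) (𝟙 X))) (C.graph (prodMap (dia X) (𝟙 X))) := by
  rw [← tens_cograph, ← tens_graph, tens_comp C (ch_comm C), cograph_id, dg_comp]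
  rfl

lemma tens_ev (X : 𝒱.Obj) : tens C (dg C X) (evC C X) =
    C.comp (C.cograph (prodMap (𝟙 X) (dia X))) (C.graph (prodMap (𝟙 X) (toPt X))) := by
  rw [← tens_cograph, ← tens_graph, tens_comp C (ch_comm C), cograph_id, dg_comp]
  rfl

lemma tens_ev' (X : 𝒱.Obj) : tens C (evC C X) (dg C X) =
    C.comp (C.cograph (prodMap (dia X) (𝟙 X))) (C.graph (prodMap (toPt X) (𝟙 X))) := by
  rw [← tens_cograph, ← tens_graph, tens_comp C (ch_comm C), cograph_id, dg_comp]
  rfl

lemma zig1 (X : 𝒱.Obj) : C.comp (tens C (dg C X) (coevC C X)) (C.comp (C.graph (aJ X X X))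
    (tens C (evC C X) (dg C X))) =
    C.comp (C.graph (fst X (pt 𝒱))) (C.graph (Obj.lift (toPt X) (𝟙 X))) := by
  have h1 : C.comp (C.graph (prodMap (𝟙 X) (dia X))) (C.comp (C.graph (aJ X X X))
      (C.comp (C.cograph (prodMap (dia X) (𝟙 X))) (C.graph (prodMap (toPt X) (𝟙 X))))) =
      C.comp (C.cograph (dia X)) (C.comp (C.graph (dia X)) (C.graph (prodMap (toPt X) (𝟙 X)))) := by
    rw [← comp_assoc, graph_graph, ← comp_assoc, frob_law, comp_assoc]
  rw [tens_coev, tens_ev', comp_assoc, h1, ← comp_assoc, cograph_cograph, graph_graph]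
  have e1 : dia X ≫ prodMap (𝟙 X) (toPt X) = Obj.lift (𝟙 X) (toPt X) := by
    apply prod_ext <;> simp [dia, prodMap]
  have e2 : dia X ≫ prodMap (toPt X) (𝟙 X) = Obj.lift (toPt X) (𝟙 X) := by
    apply prod_ext <;> simp [dia, prodMap]
  rw [e1, e2, cograph_iso C _ _ (unitR2 X) (unitR1 X)]

lemma zig2 (X : 𝒱.Obj) : C.comp (tens C (coevC C X) (dg C X)) (C.comp (C.graph (aI X X X))
    (tens C (dg C X) (evC C X))) =
    C.comp (C.graph (snd (pt 𝒱) X)) (C.graph (Obj.lift (𝟙 X) (toPt X))) := by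
  have h1 : C.comp (C.graph (prodMap (dia X) (𝟙 X))) (C.comp (C.graph (aI X X X))
      (C.comp (C.cograph (prodMap (𝟙 X) (dia X))) (C.graph (prodMap (𝟙 X) (toPt X))))) =
      C.comp (C.cograph (dia X)) (C.comp (C.graph (dia X)) (C.graph (prodMap (𝟙 X) (toPt X)))) := by
    rw [← comp_assoc, graph_graph, ← comp_assoc, frob_law', comp_assoc]
  rw [tens_coev', tens_ev, comp_assoc, h1, ← comp_assoc, cograph_cograph, graph_graph]
  have e1 : dia X ≫ prodMap (toPt X) (𝟙 X) = Obj.lift (toPt X) (𝟙 X) := by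
    apply prod_ext <;> simp [dia, prodMap]
  have e2 : dia X ≫ prodMap (𝟙 X) (toPt X) = Obj.lift (𝟙 X) (toPt X) := by
    apply prod_ext <;> simp [dia, prodMap]
  rw [e1, e2, cograph_iso C _ _ (unitL2 X) (unitL1 X)]

/-- The dual of `(X, m)` is `(X, dim X - m)`. -/
def cDual (M : CObj C) : CObj C := ⟨M.X, M.X.dim - M.m⟩

lemma coevC_mem (X : 𝒱.Obj) : coevC C X ∈ C.gr ((pt 𝒱).prod (X.prod X)) X.dim := by
  have h := comp_mem C (e := 0) (e' := X.dim) (Γ := C.cograph (toPt X)) (Δ := C.graph (dia X))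
    (by rw [add_zero]; exact cograph_mem _)
    (by
      have := graph_mem (C := C) (dia X)
      rw [dim_prod] at this
      push_cast at this
      exact this)
  rw [zero_add, pt_dim, Nat.cast_zero, zero_add] at h
  exact h

lemma evC_mem (X : 𝒱.Obj) : evC C X ∈ C.gr ((X.prod X).prod (pt 𝒱)) X.dim := by
  have h := comp_mem C (e := 0) (e' := -X.dim) (Γ := C.cograph (dia X)) (Δ := C.graph (toPt X))
    (by rw [add_zero]; exact cograph_mem _)
    (by
      have := graph_mem (C := C) (toPt X)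
      rw [pt_dim] at this
      rw [add_neg_cancel]
      exact this)
  have e : ((X.prod X).dim : ℤ) + (0 + -(X.dim : ℤ)) = X.dim := by
    rw [dim_prod]; push_cast; ring
  rw [e] at h
  exact h

/-- The duality pairing. -/
@[instance_reducible]
noncomputable def cPair (M : CObj C) : ExactPairing M (cDual M) where
  coevaluation' := CObj.mkH (M := tOne C) (N := tObj M (cDual M)) (coevC C M.X) (by
    have h := coevC_mem (C := C) M.X
    have e : (((tOne C).X.dim : ℤ) + ((tObj M (cDual M)).m - (tOne C).m)) = M.X.dim := by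
      change (0 : ℤ) + (M.m + (M.X.dim - M.m) - 0) = M.X.dim
      ring
    rw [e]
    exact h)
  evaluation' := CObj.mkH (M := tObj (cDual M) M) (N := tOne C) (evC C M.X) (by
    have h := evC_mem (C := C) M.X
    have e : (((tObj (cDual M) M).X.dim : ℤ) + ((tOne C).m - (tObj (cDual M) M).m)) = M.X.dim := by
      change ((M.X.dim + M.X.dim : ℕ) : ℤ) + (0 - (M.X.dim - M.m + M.m)) = M.X.dim
      push_cast
      ring
    rw [e]
    exact h)
  coevaluation_evaluation' := CObj.hom_ext (zig1 M.X)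
  evaluation_coevaluation' := CObj.hom_ext (zig2 M.X)

noncomputable instance corrRig : RightRigidCategory (CObj C) where
  rightDual M := { rightDual := cDual M, exact := cPair M }

end Pool.Agent.D0H75.CM
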