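import Pool.Agent.D0H75.CM.Mon

/-!
# The symmetry of the category of correspondences
-/

set_option autoImplicit false
set_option linter.unusedSectionVars false
set_option linter.unusedVariables false

open CategoryTheory AlgebraicGeometry MonoidalCategory

universe u v w

namespace Pool.Agent.D0H75.CM

open Pool.Agent.H914 Pool.Agent.H914.VarClass Pool.Agent.H914.VarClass.Obj Pool.Agent.W492.BB
  Pool.Agent.W550.Corr Pool.Agent.TH133

variable {k : Type u} [Field k] {𝒱 : VarClass k} {C : TheoryData.{u, v, 0} 𝒱 ℚ}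
  [hC : IsChowProj C]

lemma braid_nat {X X' Y Y' : 𝒱.Obj} (a : C.A (X.prod X')) (b : C.A (Y.prod Y')) :
    C.comp (tens C a b) (C.graph (sw X' Y')) = C.comp (C.graph (sw X Y)) (tens C b a) := by
  apply graph_natural sw_sw sw_sw
  rw [prodMap_lift, prodMap_lift, pull_tens, pull_tens, ch_comm C]
  congr 3
  all_goals simp [sw]

variable (C) in
lemma hex1 (X Y Z : 𝒱.Obj) :
    C.comp (C.graph (aI X Y Z)) (C.comp (C.graph (sw X (Y.prod Z))) (C.graph (aI Y Z X))) =
    C.comp (tens C (C.graph (sw X Y)) (dg C Z)) (C.comp (C.graph (aI Y X Z))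
      (tens C (dg C Y) (C.graph (sw X Z)))) := by
  rw [← graph_id, ← graph_id, tens_graph, tens_graph, graph_graph, graph_graph, graph_graph,
    graph_graph]
  congr 1
  apply prod_ext
  · simp [aI, sw, prodMap, comp_lift]
  · apply prod_ext
    · simp [aI, sw, prodMap, comp_lift]
    · simp [aI, sw, prodMap, comp_lift]

variable (C) in
lemma hex2 (X Y Z : 𝒱.Obj) :
    C.comp (C.graph (aJ X Y Z)) (C.comp (C.graph (sw (X.prod Y) Z)) (C.graph (aJ Z X Y))) =
    C.comp (tens C (dg C X) (C.graph (sw Y Z))) (C.comp (C.graph (aJ X Z Y))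
      (tens C (C.graph (sw X Z)) (dg C Y))) := by
  rw [← graph_id, ← graph_id, tens_graph, tens_graph, graph_graph, graph_graph, graph_graph,
    graph_graph]
  congr 1
  apply prod_ext
  · apply prod_ext
    · simp [aJ, sw, prodMap, comp_lift]
    · simp [aJ, sw, prodMap, comp_lift]
  · simp [aJ, sw, prodMap, comp_lift]

variable [hP : HasPoint 𝒱]

noncomputable instance corrSym : SymmetricCategory (CObj C) where
  braiding := tBraid
  braiding_naturality_right X Y Z f := CObj.hom_ext (braid_nat (dg C X.X) (CObj.val f))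
  braiding_naturality_left {X Y} f Z := CObj.hom_ext (braid_nat (CObj.val f) (dg C Z.X))
  hexagon_forward X Y Z := CObj.hom_ext (hex1 C X.X Y.X Z.X)
  hexagon_reverse X Y Z := CObj.hom_ext (hex2 C X.X Y.X Z.X)
  symmetry X Y := (tBraid X Y).hom_inv_id

noncomputable instance corrMonPre : MonoidalPreadditive (CObj C) where
  whiskerLeft_zero := CObj.hom_ext (tens_zero_right _)
  zero_whiskerRight := CObj.hom_ext (tens_zero_left _)
  whiskerLeft_add f g := CObj.hom_ext (map_add (tensL (dg C _)) (CObj.val f) (CObj.val g))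
  add_whiskerRight {X} {Y Z} f g := CObj.hom_ext (by
    change tens C (CObj.val f + CObj.val g) (dg C X.X) =
      tens C (CObj.val f) (dg C X.X) + tens C (CObj.val g) (dg C X.X)
    rw [← tensL_apply, map_add, LinearMap.add_apply, tensL_apply, tensL_apply])

end Pool.Agent.D0H75.CM
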