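import Pool.Agent.D0H75.CM.Unit

/-!
# Traces, and their additivity for the cokernel of a morphism out of the unit
-/

set_option autoImplicit false
set_option linter.unusedSectionVars false
set_option linter.style.haveILetI false

open CategoryTheory Limits MonoidalCategory

namespace Pool.Agent.D0H75.CM

universe v u

section

variable {C : Type u} [Category.{v} C] [MonoidalCategory C] [SymmetricCategory C]
  [RightRigidCategory C]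

/-- The trace of an endomorphism of an object of a rigid symmetric monoidal category. -/
def tr {X : C} (a : X ⟶ X) : 𝟙_ C ⟶ 𝟙_ C :=
  η_ X Xᘁ ≫ (a ▷ Xᘁ) ≫ (β_ X Xᘁ).hom ≫ ε_ X Xᘁ

/-- The relative trace of a morphism `T ⊗ X ⟶ X`. -/
def rtr {T X : C} (g : T ⊗ X ⟶ X) : T ⟶ 𝟙_ C :=
  (ρ_ T).inv ≫ T ◁ η_ X Xᘁ ≫ (α_ _ _ _).inv ≫ (g ▷ Xᘁ) ≫ (β_ X Xᘁ).hom ≫ ε_ X Xᘁ

lemma rtr_natural {T T' X : C} (f : T' ⟶ T) (g : T ⊗ X ⟶ X) :
    rtr (f ▷ X ≫ g) = f ≫ rtr g := by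
  simp only [rtr, comp_whiskerRight, Category.assoc]
  rw [← associator_inv_naturality_left_assoc, whisker_exchange_assoc,
    ← rightUnitor_inv_naturality_assoc]

lemma rtr_unit {X : C} (a : X ⟶ X) : rtr ((λ_ X).hom ≫ a) = tr a := by
  simp only [rtr, tr, comp_whiskerRight, Category.assoc]
  have e : 𝟙_ C ◁ η_ X Xᘁ ≫ (α_ (𝟙_ C) X Xᘁ).inv ≫ (λ_ X).hom ▷ Xᘁ =
      (λ_ (𝟙_ C)).hom ≫ η_ X Xᘁ := by
    rw [← leftUnitor_tensor_hom, leftUnitor_naturality]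
  rw [reassoc_of% e, ← unitors_inv_equal, Iso.inv_hom_id_assoc]

lemma rtr_mul {T X : C} (e : T ⟶ 𝟙_ C) (a : X ⟶ X) :
    rtr (e ▷ X ≫ (λ_ X).hom ≫ a) = e ≫ tr a := by
  rw [rtr_natural, rtr_unit]

/-- Cyclicity. -/
lemma rtr_cyc {T X Y : C} (u : X ⟶ Y) (w : T ⊗ Y ⟶ X) :
    rtr (T ◁ u ≫ w) = rtr (w ≫ u) := by
  simp only [rtr, comp_whiskerRight, Category.assoc]
  have e1 : T ◁ η_ X Xᘁ ≫ (α_ _ _ _).inv ≫ (T ◁ u) ▷ Xᘁ =
      T ◁ η_ Y Yᘁ ≫ (α_ _ _ _).inv ≫ (T ⊗ Y) ◁ uᘁ := by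
    rw [← associator_inv_naturality_middle, ← MonoidalCategory.whiskerLeft_comp_assoc,
      ← coevaluation_comp_rightAdjointMate, ← associator_inv_naturality_right,
      ← MonoidalCategory.whiskerLeft_comp_assoc]
  rw [reassoc_of% e1, whisker_exchange_assoc, BraidedCategory.braiding_naturality_right_assoc,
    rightAdjointMate_comp_evaluation]
  simp only [BraidedCategory.braiding_naturality_left_assoc]

/-- The evaluation of functionals at `z`. -/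
def evAt {X : C} (z : 𝟙_ C ⟶ X) : Xᘁ ⟶ 𝟙_ C := (ρ_ Xᘁ).inv ≫ Xᘁ ◁ z ≫ ε_ X Xᘁ

lemma rtr_ev {X : C} (z : 𝟙_ C ⟶ X) : rtr (ε_ X Xᘁ ≫ z) = evAt z := by
  simp only [rtr, evAt, comp_whiskerRight, Category.assoc]
  have e1 : Xᘁ ◁ η_ X Xᘁ ≫ (α_ _ _ _).inv ≫ ε_ X Xᘁ ▷ Xᘁ = (ρ_ Xᘁ).hom ≫ (λ_ Xᘁ).inv :=
    ExactPairing.coevaluation_evaluation X Xᘁ
  rw [reassoc_of% e1, Iso.inv_hom_id_assoc]
  have e2 : (λ_ Xᘁ).inv ≫ z ▷ Xᘁ ≫ (β_ X Xᘁ).hom = (ρ_ Xᘁ).inv ≫ Xᘁ ◁ z := by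
    rw [BraidedCategory.braiding_naturality_left]
    rw [leftUnitor_inv_braiding_assoc]
  rw [reassoc_of% e2]

end

end Pool.Agent.D0H75.CM
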