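import Pool.Agent.D0H75.CM.Lef
import Pool.Agent.D0H75.CM.KarLin
import Pool.Agent.D0H75.CM.Real

/-!
# The trace of a correspondence
-/

set_option autoImplicit false
set_option linter.unusedSectionVars false
set_option linter.unusedVariables false

open CategoryTheory AlgebraicGeometry MonoidalCategory Idempotents

universe u v w

namespace Pool.Agent.D0H75.CM

open Pool.Agent.H914 Pool.Agent.H914.VarClass Pool.Agent.H914.VarClass.Obj Pool.Agent.W492.BB
  Pool.Agent.W550.Corr Pool.Agent.TH133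

section kar

variable {D : Type u} [Category.{v} D] [MonoidalCategory D] [SymmetricCategory D]
  [RightRigidCategory D]

lemma tr_aux {X : D} (p a : X ⟶ X) (hp : p ≫ p = p) (h1 : p ≫ a = a) (h2 : a ≫ p = a) :
    (η_ X Xᘁ ≫ (p ⊗ₘ rightAdjointMate p)) ≫ (a ⊗ₘ rightAdjointMate p) ≫
      ((p ⊗ₘ rightAdjointMate p) ≫ (β_ X Xᘁ).hom) ≫
      ((rightAdjointMate p ⊗ₘ p) ≫ ε_ X Xᘁ) = tr a := by
  have hqq : rightAdjointMate p ≫ rightAdjointMate p = rightAdjointMate p := by
    rw [← comp_rightAdjointMate, hp]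
  simp only [Category.assoc]
  rw [← BraidedCategory.braiding_naturality_assoc]
  simp only [tensorHom_comp_tensorHom_assoc, hqq, hp, h1, h2]
  rw [MonoidalCategory.tensorHom_def, Category.assoc,
    BraidedCategory.braiding_naturality_right_assoc, rightAdjointMate_comp_evaluation,
    ← BraidedCategory.braiding_naturality_left_assoc, ← comp_whiskerRight_assoc, h2]
  rfl

/-- The trace in the Karoubi envelope. -/
lemma kar_tr {P : Karoubi D} (a : P ⟶ P) : (tr a).f = tr a.f :=
  tr_aux P.p a.f P.idem (Karoubi.p_comp a) (Karoubi.comp_p a)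

end kar

variable {k : Type u} [Field k] {𝒱 : VarClass k} {C : TheoryData.{u, v, 0} 𝒱 ℚ}
  [hC : IsChowProj C] [hP : HasPoint 𝒱]

/-- The class of the trace. -/
noncomputable def trC {X : 𝒱.Obj} (Γ : C.A (X.prod X)) : C.A ((pt 𝒱).prod (pt 𝒱)) :=
  C.comp (coevC C X) (C.comp (tens C Γ (dg C X)) (C.comp (C.graph (sw X X)) (evC C X)))

lemma val_tr {M : CObj C} (f : M ⟶ M) : CObj.val (tr f) = trC (CObj.val f) := rfl

/-- The action of the trace on the unit. -/
lemma act_trC {X : 𝒱.Obj} (Γ : C.A (X.prod X)) :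
    C.act (trC Γ) 1 = C.push (toPt X) (C.pull (dia X) Γ) := by
  have h1 : C.pull (toPt X) (1 : C.A (pt 𝒱)) = 1 := map_one _
  have h2 : C.push (dia X) (1 : C.A X) = dg C X := rfl
  have h3 : C.act (tens C Γ (dg C X)) (dg C X) = tp C Γ := by
    rw [act_tens C (ch_comm C), comp_dg, comp_dg]
  have h4 : C.push (sw X X) (tp C Γ) = Γ := by
    rw [← tp_eq_push, tp_tp]
  rw [trC, C.act_comp, C.act_comp, C.act_comp, coevC, evC, C.act_comp, C.act_comp,
    C.act_cograph, C.act_graph, C.act_graph, C.act_cograph, C.act_graph, h1, h2, h3, h4]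

lemma act_tr {M : CObj C} (f : M ⟶ M) :
    C.act (X := pt 𝒱) (Y := pt 𝒱) (CObj.val (tr f)) 1 =
      C.push (toPt M.X) (C.pull (dia M.X) (CObj.val f)) := act_trC _

lemma tr_scalar {M : CObj C} (f : M ⟶ M) (q : ℚ) (h : tr f = q • 𝟙 _) :
    C.push (toPt M.X) (C.pull (dia M.X) (CObj.val f)) = q • (1 : C.A (pt 𝒱)) := by
  have h1 := act_tr f
  rw [← h1, h]
  change C.act (q • dg C (pt 𝒱)) 1 = q • 1
  rw [← actB_apply, map_smul, LinearMap.smul_apply, actB_apply, act_dg]

variable {K : Type w} [Field K] (H : WeilTheoryData.{u, v, w} C K) [hH : IsWeilFin H]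

omit hP in
lemma cl_smul' {X : 𝒱.Obj} (q : ℚ) (z : C.A X) : H.cl (q • z) = (q : K) • H.cl z := by
  have hK := hH.charZero
  have h1 : H.cl (algebraMap ℚ (C.A X) q) = algebraMap K (H.A X) (q : K) := by
    have e1 : (H.cl (X := X)).comp (algebraMap ℚ (C.A X)) =
        (algebraMap K (H.A X)).comp (algebraMap ℚ K) := Subsingleton.elim _ _
    have e2 := RingHom.congr_fun e1 q
    simpa using e2
  rw [Algebra.smul_def, map_mul, h1, Algebra.smul_def]

/-- The trace formula in the category of correspondences. -/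
theorem trace_corr {M : CObj C} (f : M ⟶ M) (q : ℚ) (h : tr f = q • 𝟙 _) :
    LinearMap.trace K (H.A M.X) (parL H M.X ∘ₗ H.actL (H.cl (CObj.val f))) = (q : K) := by
  rw [trace_formula]
  have h1 := congrArg H.cl (tr_scalar f q h)
  rw [H.cl_push, H.cl_pull, push_toPt, cl_smul', map_one] at h1
  have h2 := congrArg (eps H (pt 𝒱)) h1
  have h3 : eps H (pt 𝒱) (1 : H.A (pt 𝒱)) = 1 := by
    rw [eps, LinearMap.smul_apply, smul_eq_mul, inv_mul_cancel₀ (tr_pt_ne_zero H)]
  rw [map_smul, map_smul, h3, smul_eq_mul, smul_eq_mul, mul_one, mul_one] at h2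
  exact h2

end Pool.Agent.D0H75.CM
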