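import Mathlib

/-!
# The unit object of a rigid symmetric monoidal abelian category is simple
-/

set_option autoImplicit false
set_option linter.unusedSectionVars false
set_option linter.style.haveILetI false

open CategoryTheory Limits MonoidalCategory

namespace Pool.Agent.D0H75.CM

universe v u

section

variable {C : Type u} [Category.{v} C] [MonoidalCategory C] [SymmetricCategory C]
  [RightRigidCategory C] [Abelian C] [MonoidalPreadditive C]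

lemma tensorLeft_preservesMono (T : C) : (tensorLeft T).PreservesMonomorphisms :=
  Functor.preservesMonomorphisms_of_adjunction (tensorLeftAdjunction T Tᘁ)

lemma tensorLeft_preservesEpi (T : C) : (tensorLeft T).PreservesEpimorphisms :=
  letI : ExactPairing (Tᘁ) T := BraidedCategory.exactPairing_swap T Tᘁ
  Functor.preservesEpimorphisms_of_adjunction (tensorLeftAdjunction (Tᘁ) T)

lemma tensorRight_preservesEpi (T : C) : (tensorRight T).PreservesEpimorphisms :=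
  Functor.preservesEpimorphisms_of_adjunction (tensorRightAdjunction T Tᘁ)

lemma tensorRight_preservesMono (T : C) : (tensorRight T).PreservesMonomorphisms :=
  letI : ExactPairing (Tᘁ) T := BraidedCategory.exactPairing_swap T Tᘁ
  Functor.preservesMonomorphisms_of_adjunction (tensorRightAdjunction (Tᘁ) T)

instance whiskerLeft_mono' (T : C) {X Y : C} (f : X ⟶ Y) [Mono f] : Mono (T ◁ f) :=
  haveI := tensorLeft_preservesMono T
  inferInstanceAs (Mono ((tensorLeft T).map f))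

instance whiskerLeft_epi' (T : C) {X Y : C} (f : X ⟶ Y) [Epi f] : Epi (T ◁ f) :=
  haveI := tensorLeft_preservesEpi T
  inferInstanceAs (Epi ((tensorLeft T).map f))

instance whiskerRight_mono' (T : C) {X Y : C} (f : X ⟶ Y) [Mono f] : Mono (f ▷ T) :=
  haveI := tensorRight_preservesMono T
  inferInstanceAs (Mono ((tensorRight T).map f))

instance whiskerRight_epi' (T : C) {X Y : C} (f : X ⟶ Y) [Epi f] : Epi (f ▷ T) :=
  haveI := tensorRight_preservesEpi T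
  inferInstanceAs (Epi ((tensorRight T).map f))

lemma isZero_tensorLeft {T X : C} (h : IsZero X) : IsZero (T ⊗ X) := by
  rw [IsZero.iff_id_eq_zero] at h ⊢
  rw [← MonoidalCategory.whiskerLeft_id, h, MonoidalPreadditive.whiskerLeft_zero]

lemma isZero_of_tensor {K Q : C} (h : IsZero (K ⊗ Q)) : IsZero (Kᘁ ⊗ Q) := by
  have h1 : IsZero (K ⊗ (Kᘁ ⊗ Q)) := by
    refine (isZero_tensorLeft (T := Kᘁ) h).of_iso ?_
    exact (α_ _ _ _).symm ≪≫ whiskerRightIso (β_ _ _) _ ≪≫ (α_ _ _ _)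
  rw [IsZero.iff_id_eq_zero]
  apply (tensorLeftHomEquiv Q K Kᘁ (Kᘁ ⊗ Q)).injective
  exact h1.eq_of_tgt _ _

/-- Every nonzero morphism out of the unit object is a monomorphism. -/
theorem mono_of_unit (hid : ∀ e : 𝟙_ C ⟶ 𝟙_ C, e ≫ e = e → e = 0 ∨ e = 𝟙 _) {M : C}
    (x : 𝟙_ C ⟶ M) (hx : x ≠ 0) : Mono x := by
  let K := kernel x
  let κ : K ⟶ 𝟙_ C := kernel.ι x
  let Q := cokernel κ
  let q : 𝟙_ C ⟶ Q := cokernel.π κ
  have hκq : κ ≫ q = 0 := cokernel.condition κ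
  -- `K ⊗ Q = 0`
  have h0 : IsZero (Q ⊗ K) := by
    have h1 : q ▷ K ≫ Q ◁ κ = 0 := by
      rw [← whisker_exchange]
      rw [id_whiskerLeft, MonoidalCategory.whiskerRight_id]
      simp only [Category.assoc]
      rw [← unitors_equal]
      simp only [Iso.inv_hom_id_assoc]
      rw [reassoc_of% hκq]
      simp
    have h2 : Q ◁ κ = 0 := by
      rw [← cancel_epi (q ▷ K), h1, comp_zero]
    exact IsZero.of_mono_eq_zero _ h2
  have h1 : IsZero (K ⊗ Q) := h0.of_iso (β_ _ _)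
  have h2 : IsZero (Kᘁ ⊗ Q) := isZero_of_tensor h1
  -- `K' ◁ κ` is an isomorphism
  have h3 : Epi (Kᘁ ◁ κ) := by
    have : PreservesColimitsOfSize.{0, 0} (tensorLeft (Kᘁ)) :=
      (tensorLeftAdjunction K (Kᘁ)).leftAdjoint_preservesColimits
    have h4 : IsZero ((tensorLeft (Kᘁ)).obj (cokernel κ)) := h2
    have h5 : IsZero (cokernel ((tensorLeft (Kᘁ)).map κ)) :=
      h4.of_iso (PreservesCokernel.iso (tensorLeft (Kᘁ)) κ).symm
    exact Preadditive.epi_of_isZero_cokernel _ h5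
  have h4 : IsIso (Kᘁ ◁ κ) := isIso_of_mono_of_epi _
  -- the retraction
  obtain ⟨s, hs⟩ : ∃ s : Kᘁ ⊗ 𝟙_ C ⟶ 𝟙_ C, Kᘁ ◁ κ ≫ s = ε_ K Kᘁ :=
    ⟨inv (Kᘁ ◁ κ) ≫ ε_ K Kᘁ, by simp⟩
  let r : 𝟙_ C ⟶ K := η_ K Kᘁ ≫ K ◁ (ρ_ Kᘁ).inv ≫ K ◁ s ≫ (ρ_ K).hom
  have hr : κ ≫ r = 𝟙 K := by
    have e1 : κ = (λ_ K).inv ≫ 𝟙_ C ◁ κ ≫ (ρ_ (𝟙_ C)).hom := by
      rw [id_whiskerLeft, ← unitors_equal]
      simp
    have e2 : (ρ_ (𝟙_ C)).hom ≫ η_ K Kᘁ = (η_ K Kᘁ) ▷ 𝟙_ C ≫ (ρ_ _).hom := by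
      simp
    have e3 : (ρ_ (K ⊗ Kᘁ)).hom ≫ K ◁ (ρ_ Kᘁ).inv = (α_ K Kᘁ (𝟙_ C)).hom := by
      simp
    calc κ ≫ r = (λ_ K).inv ≫ 𝟙_ C ◁ κ ≫ (η_ K Kᘁ) ▷ 𝟙_ C ≫ (ρ_ (K ⊗ Kᘁ)).hom ≫
          K ◁ (ρ_ Kᘁ).inv ≫ K ◁ s ≫ (ρ_ K).hom := by
            conv_lhs => rw [e1]
            simp only [r, Category.assoc]
            rw [reassoc_of% e2]
      _ = (λ_ K).inv ≫ 𝟙_ C ◁ κ ≫ (η_ K Kᘁ) ▷ 𝟙_ C ≫ (α_ K Kᘁ (𝟙_ C)).hom ≫
          K ◁ s ≫ (ρ_ K).hom := by rw [reassoc_of% e3]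
      _ = (λ_ K).inv ≫ (η_ K Kᘁ) ▷ K ≫ (K ⊗ Kᘁ) ◁ κ ≫ (α_ K Kᘁ (𝟙_ C)).hom ≫
          K ◁ s ≫ (ρ_ K).hom := by rw [whisker_exchange_assoc]
      _ = (λ_ K).inv ≫ (η_ K Kᘁ) ▷ K ≫ (α_ K Kᘁ K).hom ≫ K ◁ (Kᘁ ◁ κ ≫ s) ≫ (ρ_ K).hom := by
          rw [MonoidalCategory.whiskerLeft_comp, Category.assoc,
            associator_naturality_right_assoc]
      _ = 𝟙 K := by
          rw [hs, ExactPairing.evaluation_coevaluation_assoc]
          simp
  rcases hid (r ≫ κ) (by rw [Category.assoc, reassoc_of% hr]) with h | h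
  · have h5 : κ = 0 := by
      rw [← Category.id_comp κ, ← hr, Category.assoc, h, comp_zero]
    exact Preadditive.mono_of_kernel_zero h5
  · exfalso
    apply hx
    rw [← Category.id_comp x, ← h, Category.assoc]
    have : κ ≫ x = 0 := kernel.condition x
    rw [this, comp_zero]

end

end Pool.Agent.D0H75.CM
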